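import Pool.Agent.H77.FB.Dens

/-!
The map `Φ_P` is injective for every polynomial `P` in any number of variables.
-/

open MvPolynomial MeasureTheory

namespace Pool.Agent.H77.FB

lemma differentiable_conj {n : ℕ} {f : (Fin n → ℂ) → ℂ} (hf : Differentiable ℂ f) :
    Differentiable ℂ (fun z => (starRingEnd ℂ) (f (cj z))) := by
  intro z
  have h := (hf (star z)).star_star
  rw [star_star] at h
  exact h

lemma conj_mem {n : ℕ} {f : (Fin n → ℂ) → ℂ} (hf : f ∈ ExpT n) :
    (fun z => (starRingEnd ℂ) (f (cj z))) ∈ ExpT n := by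
  obtain ⟨hd, C, hC, B, hB, hb⟩ := hf
  refine ⟨differentiable_conj hd, C, hC, B, hB, fun z => ?_⟩
  rw [RCLike.norm_conj]
  have := hb (cj z)
  rwa [norm_cj] at this

lemma eval_star' {n : ℕ} (P : MvPolynomial (Fin n) ℂ) (z : Fin n → ℂ) :
    MvPolynomial.eval z (star' P) = (starRingEnd ℂ) (MvPolynomial.eval (cj z) P) := by
  unfold star'
  rw [MvPolynomial.eval_map]
  induction P using MvPolynomial.induction_on with
  | C a => simp
  | add p q hp hq => simp [hp, hq]
  | mul_X p i hp => simp [hp, cj]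

/-- A functional whose Fourier-Borel transform vanishes is zero. -/
lemma eq_zero_of_borel {n : ℕ} {T : Ent n →ₗ[ℂ] ℂ} (hT : IsAF T)
    (h : ∀ z, T (expo z) = 0) : T = 0 := by
  apply dense_exp hT
  intro f hf
  have h1 := gauss_functional hT hf
  simp only [h, mul_zero, integral_zero] at h1
  have h2 : (gc n : ℂ) ≠ 0 := by exact_mod_cast (gc_pos n).ne'
  exact (mul_eq_zero.1 h1.symm).resolve_right h2

/-- If the Fourier-Borel transform of a functional that vanishes on `P · H(ℂ^n)` is a multiple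
of `P^*` in the functions of exponential type, then it vanishes. -/
lemma borel_eq_zero {n : ℕ} (P : MvPolynomial (Fin n) ℂ) {T : Ent n →ₗ[ℂ] ℂ} (hT : T ∈ Ann P)
    {g : (Fin n → ℂ) → ℂ} (hg : g ∈ ExpT n)
    (h : ∀ z, T (expo z) = MvPolynomial.eval z (star' P) * g z) : ∀ z, T (expo z) = 0 := by
  have hG : (fun z : Fin n → ℂ => T (expo z)) ∈ ExpT n := borel_mem hT.1
  have hf := conj_mem hG
  have h1 := gauss_functional hT.1 hf
  have h2 : T ⟨_, hf.1⟩ = 0 := by
    have h3 := hT.2 ⟨_, (conj_mem hg).1⟩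
    rw [← h3]
    congr 1
    apply Subtype.ext
    funext z
    change (starRingEnd ℂ) (T (expo (cj z))) = MvPolynomial.eval z P * (starRingEnd ℂ) (g (cj z))
    rw [h, map_mul, eval_star', cj_cj, Complex.conj_conj]
  rw [h2, zero_mul] at h1
  have hc : Continuous (fun z : Fin n → ℂ => T (expo (cj z))) :=
    (Differentiable.continuous hG.1).comp continuous_cj
  have h4 : ∀ z : Fin n → ℂ, (starRingEnd ℂ) (T (expo (cj z))) * (gw z : ℂ) * T (expo (cj z))
      = ((‖T (expo (cj z))‖ ^ 2 * gw z : ℝ) : ℂ) := by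
    intro z
    push_cast
    rw [← Complex.mul_conj']
    ring
  simp only [h4] at h1
  rw [integral_complex_ofReal] at h1
  have h5 : ∫ z : Fin n → ℂ, ‖T (expo (cj z))‖ ^ 2 * gw z = 0 := by exact_mod_cast h1
  have hcc : Continuous (fun z : Fin n → ℂ => ‖T (expo (cj z))‖ ^ 2 * gw z) :=
    (hc.norm.pow 2).mul continuous_gw
  obtain ⟨C, hC, B, hB, hb⟩ := hG.2
  have hi : Integrable (fun z : Fin n → ℂ => ‖T (expo (cj z))‖ ^ 2 * gw z) := by
    refine integrable_of_bound (C := C ^ 2) (B := 2 * B) hcc fun z => ?_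
    rw [Real.norm_of_nonneg (mul_nonneg (by positivity) (gw_pos z).le)]
    apply mul_le_mul_of_nonneg_right _ (gw_pos z).le
    have h6 := hb (cj z)
    rw [norm_cj] at h6
    calc ‖T (expo (cj z))‖ ^ 2 ≤ (C * Real.exp (B * ‖z‖)) ^ 2 := by
          apply pow_le_pow_left₀ (norm_nonneg _) h6
      _ = C ^ 2 * (Real.exp (B * ‖z‖) * Real.exp (B * ‖z‖)) := by ring
      _ = _ := by rw [← Real.exp_add]; ring_nf
  have h7' := (integral_eq_zero_iff_of_nonneg
    (fun z => mul_nonneg (by positivity) (gw_pos z).le) hi).1 h5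
  have h7 := (hcc.ae_eq_iff_eq volume continuous_zero).1 h7'
  intro z
  have h8 := congrFun h7 (cj z)
  simp only [cj_cj, Pi.zero_apply] at h8
  have h9 := (mul_eq_zero.1 h8).resolve_right (gw_pos _).ne'
  exact norm_eq_zero.1 (pow_eq_zero_iff (two_ne_zero) |>.1 h9)

/-- `Φ_P` is injective, for every `n` and every polynomial `P`. -/
theorem phi_injective {n : ℕ} (P : MvPolynomial (Fin n) ℂ) : Function.Injective (Phi P) := by
  rw [← LinearMap.ker_eq_bot, LinearMap.ker_eq_bot']
  intro T hT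
  change (LinearMap.range (mulExp (star' P))).mkQ (borel P T) = 0 at hT
  rw [Submodule.mkQ_apply, Submodule.Quotient.mk_eq_zero] at hT
  obtain ⟨g, hg⟩ := hT
  have h1 : ∀ z, T.1 (expo z) = MvPolynomial.eval z (star' P) * g.1 z := by
    intro z
    exact (congrFun (congrArg Subtype.val hg) z).symm
  have h2 := borel_eq_zero P T.2 g.2 h1
  exact Subtype.ext (eq_zero_of_borel T.2.1 h2)

end Pool.Agent.H77.FB
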