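import Pool.Agent.H77.FB.Stmt
import Pool.Agent.H77.FB.Inj

/-!
Injectivity, in the elementary form.
-/

namespace Pool.Agent.H77.FB

/-- The bundled functional. -/
noncomputable def bund {n : ℕ} {T : ((Fin n → ℂ) → ℂ) → ℂ} (hT : AnFunctional T) :
    Ent n →ₗ[ℂ] ℂ where
  toFun f := T f.1
  map_add' f g := hT.1 f.1 g.1 f.2 g.2
  map_smul' c f := hT.2.1 c f.1 f.2

lemma bund_isAF {n : ℕ} {T : ((Fin n → ℂ) → ℂ) → ℂ} (hT : AnFunctional T) : IsAF (bund hT) := by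
  obtain ⟨R, C, h⟩ := hT.2.2
  exact ⟨R, C, fun f A hA => h f.1 f.2 A hA⟩

theorem phiInjective {n : ℕ} (P : MvPolynomial (Fin n) ℂ) : PhiInjective P := by
  rintro T hT hA ⟨g, hg, h⟩ f hf
  have h1 : bund hT ∈ Ann P := ⟨bund_isAF hT, fun f => hA f.1 f.2⟩
  have h2 := borel_eq_zero P h1 hg h
  have h3 := eq_zero_of_borel (bund_isAF hT) h2
  exact congrArg (fun L : Ent n →ₗ[ℂ] ℂ => L ⟨f, hf⟩) h3

end Pool.Agent.H77.FB
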