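import Pool.Agent.H77.FB.Gauss

/-!
Complex differentiable functions of several variables: the Cauchy estimate for the
derivative, differentiation under the integral sign and of series, and the density of the
functions of exponential type in the entire functions.
-/

open MvPolynomial MeasureTheory

namespace Pool.Agent.H77.FB

section General

variable {E : Type*} [NormedAddCommGroup E] [NormedSpace ℂ E]

/-- The Cauchy estimate for the derivative in several variables. -/
lemma fderiv_bound {f : E → ℂ} (hf : Differentiable ℂ f) {z : E} {K : ℝ}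
    (h : ∀ w, ‖w - z‖ ≤ 1 → ‖f w‖ ≤ K) : ‖fderiv ℂ f z‖ ≤ K := by
  have hK : 0 ≤ K := (norm_nonneg _).trans (h z (by simp))
  refine ContinuousLinearMap.opNorm_le_of_unit_norm (𝕜 := ℂ) hK fun v hv => ?_
  have h1 : HasDerivAt (fun c : ℂ => f (z + c • v)) (fderiv ℂ f z v) 0 := by
    have h2 : HasFDerivAt f (fderiv ℂ f z) (z + (0 : ℂ) • v) := by
      rw [zero_smul, add_zero]; exact (hf z).hasFDerivAt
    have h3 : HasDerivAt (fun c : ℂ => z + c • v) v 0 := by
      have := ((hasDerivAt_id (0 : ℂ)).smul_const v).const_add z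
      simpa using this
    exact h2.comp_hasDerivAt (0 : ℂ) h3
  have h4 : Differentiable ℂ (fun c : ℂ => f (z + c • v)) :=
    hf.comp ((differentiable_id.smul_const v).const_add z)
  have h5 := Complex.norm_deriv_le_of_forall_mem_sphere_norm_le (c := (0 : ℂ)) (R := 1) (C := K)
    one_pos h4.diffContOnCl (fun c hc => by
      apply h
      have : ‖c‖ = 1 := by simpa using hc
      simp [norm_smul, this, hv])
  rw [h1.deriv] at h5
  simpa using h5

/-- Locally normally convergent series of differentiable functions. -/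
lemma differentiable_tsum' {ι : Type*} {F : ι → E → ℂ} (hF : ∀ i, Differentiable ℂ (F i))
    (hb : ∀ R : ℝ, ∃ u : ι → ℝ, Summable u ∧ ∀ i z, ‖z‖ ≤ R → ‖F i z‖ ≤ u i) :
    Differentiable ℂ (fun z => ∑' i, F i z) := by
  intro z₀
  obtain ⟨u, hu, hb⟩ := hb (‖z₀‖ + 2)
  have h1 : ∀ i, ∀ z ∈ Metric.ball z₀ 1, ‖fderiv ℂ (F i) z‖ ≤ u i := by
    intro i z hz
    apply fderiv_bound (hF i)
    intro w hw
    apply hb i w
    have h2 : ‖z - z₀‖ < 1 := by simpa [dist_eq_norm] using hz
    calc ‖w‖ = ‖(w - z) + (z - z₀) + z₀‖ := by congr 1; abel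
      _ ≤ ‖w - z‖ + ‖z - z₀‖ + ‖z₀‖ := norm_add₃_le
      _ ≤ ‖z₀‖ + 2 := by linarith
  have h3 : Summable fun i => F i z₀ :=
    Summable.of_norm_bounded hu fun i => hb i z₀ (by linarith)
  have h4 : z₀ ∈ Metric.ball z₀ (1 : ℝ) := Metric.mem_ball_self one_pos
  exact (hasFDerivAt_tsum_of_isPreconnected hu Metric.isOpen_ball
    (convex_ball z₀ 1).isPreconnected (fun i z _ => (hF i z).hasFDerivAt) h1 h4 h3
    h4).differentiableAt

/-- Differentiation under the integral sign. -/
lemma differentiable_integral {E : Type*} [NormedAddCommGroup E] [NormedSpace ℂ E]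
    [FiniteDimensional ℂ E] {F : ℝ → E → ℂ} (hc : Continuous (Function.uncurry F))
    (hF : ∀ θ, Differentiable ℂ (F θ)) (a b : ℝ) :
    Differentiable ℂ (fun z => ∫ θ in a..b, F θ z) := by
  have : ProperSpace E := FiniteDimensional.proper ℂ E
  borelize E
  intro z₀
  set K : Set (ℝ × E) := Set.uIcc a b ×ˢ Metric.closedBall z₀ 2 with hK
  have hKc : IsCompact K := isCompact_uIcc.prod (isCompact_closedBall _ _)
  obtain ⟨M, hM⟩ := hKc.exists_bound_of_continuousOn hc.continuousOn
  have h1 : ∀ θ ∈ Set.uIcc a b, ∀ z ∈ Metric.ball z₀ 1, ‖fderiv ℂ (F θ) z‖ ≤ M := by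
    intro θ hθ z hz
    apply fderiv_bound (hF θ)
    intro w hw
    have h2 : ‖z - z₀‖ < 1 := by simpa [dist_eq_norm] using hz
    apply hM (θ, w)
    refine ⟨hθ, ?_⟩
    rw [Metric.mem_closedBall, dist_eq_norm]
    calc ‖w - z₀‖ = ‖(w - z) + (z - z₀)‖ := by congr 1; abel
      _ ≤ ‖w - z‖ + ‖z - z₀‖ := norm_add_le _ _
      _ ≤ 2 := by linarith
  have hmeas : Measurable fun p : ℝ × E => fderiv ℂ (F p.1) p.2 :=
    measurable_fderiv_with_param ℂ hc
  have h := intervalIntegral.hasFDerivAt_integral_of_dominated_of_fderiv_le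
    (𝕜 := ℂ) (μ := volume) (a := a) (b := b) (F := fun z θ => F θ z)
    (F' := fun z θ => fderiv ℂ (F θ) z) (x₀ := z₀) (s := Metric.ball z₀ 1)
    (bound := fun _ => M) (Metric.ball_mem_nhds z₀ one_pos)
    (Filter.Eventually.of_forall fun z => ?_) ?_ ?_ ?_ ?_ ?_
  · exact h.differentiableAt
  · exact (hc.comp (continuous_id.prodMk continuous_const)).aestronglyMeasurable
  · exact (hc.comp (continuous_id.prodMk continuous_const)).intervalIntegrable _ _
  · have h5 : Measurable fun θ : ℝ => fderiv ℂ (F θ) z₀ :=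
      hmeas.comp (measurable_id.prodMk measurable_const)
    exact h5.aestronglyMeasurable
  · exact Filter.Eventually.of_forall fun θ hθ z hz => h1 θ (Set.uIoc_subset_uIcc hθ) z hz
  · exact intervalIntegrable_const
  · exact Filter.Eventually.of_forall fun θ _ z _ => (hF θ z).hasFDerivAt

end General

/-- The homogeneous component of degree `k` of an entire function. -/
noncomputable def hcomp {n : ℕ} (f : (Fin n → ℂ) → ℂ) (k : ℕ) (z : Fin n → ℂ) : ℂ :=
  (cauchyPowerSeries (fun c : ℂ => f (c • z)) 0 1 k fun _ => 1)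

lemma diff_line {n : ℕ} {f : (Fin n → ℂ) → ℂ} (hf : Differentiable ℂ f) (z : Fin n → ℂ) :
    Differentiable ℂ (fun c : ℂ => f (c • z)) :=
  hf.comp (differentiable_id.smul_const z)

lemma hcomp_hasSum {n : ℕ} {f : (Fin n → ℂ) → ℂ} (hf : Differentiable ℂ f) (z : Fin n → ℂ) :
    HasSum (fun k => hcomp f k z) (f z) := by
  have h := (diff_line hf z).hasFPowerSeriesOnBall 0 (R := 1) one_pos
  have h1 := h.hasSum (y := 1) (by simp)
  simpa [hcomp] using h1

lemma hcomp_radius {n : ℕ} {f : (Fin n → ℂ) → ℂ} (hf : Differentiable ℂ f) (z : Fin n → ℂ)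
    (k : ℕ) {r : NNReal} (hr : 0 < r) :
    hcomp f k z = (cauchyPowerSeries (fun c : ℂ => f (c • z)) 0 r k fun _ => 1) := by
  have h := ((diff_line hf z).hasFPowerSeriesOnBall 0 (R := 1) one_pos).hasFPowerSeriesAt
  have h' := ((diff_line hf z).hasFPowerSeriesOnBall 0 hr).hasFPowerSeriesAt
  have h1 := h.eq_formalMultilinearSeries h'
  unfold hcomp
  rw [← h1]
  rfl

lemma hcomp_bound {n : ℕ} {f : (Fin n → ℂ) → ℂ} (hf : Differentiable ℂ f) (z : Fin n → ℂ)
    (k : ℕ) {r : NNReal} (hr : 0 < r) {M : ℝ} (hM : ∀ w, ‖w‖ ≤ r * ‖z‖ → ‖f w‖ ≤ M) :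
    ‖hcomp f k z‖ ≤ M * ((r : ℝ)⁻¹) ^ k := by
  rw [hcomp_radius hf z k hr]
  refine (ContinuousMultilinearMap.le_opNorm _ _).trans ?_
  simp only [norm_one, Finset.prod_const_one, mul_one]
  refine (norm_cauchyPowerSeries_le _ _ _ _).trans ?_
  rw [abs_of_pos (by exact_mod_cast hr : (0 : ℝ) < r)]
  apply mul_le_mul_of_nonneg_right _ (by positivity)
  have h1 : ‖∫ θ in (0 : ℝ)..2 * Real.pi, ‖f (circleMap 0 r θ • z)‖‖ ≤ M * |2 * Real.pi - 0| := by
    apply intervalIntegral.norm_integral_le_of_norm_le_const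
    intro θ _
    rw [norm_norm]
    apply hM
    rw [norm_smul]
    simp
  rw [sub_zero, abs_of_pos (by positivity : 0 < 2 * Real.pi)] at h1
  have h2 := (le_abs_self _).trans ((Real.norm_eq_abs _).symm.le.trans h1)
  rw [inv_mul_le_iff₀ (by positivity)]
  linarith

lemma hcomp_mem {n : ℕ} {f : (Fin n → ℂ) → ℂ} (hf : Differentiable ℂ f) (k : ℕ) :
    hcomp f k ∈ ExpT n := by
  refine ⟨?_, ?_⟩
  · have h1 : hcomp f k = fun z => (2 * Real.pi * Complex.I : ℂ)⁻¹ •
        ∫ θ in (0 : ℝ)..2 * Real.pi, deriv (circleMap 0 1) θ •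
          ((1 / (circleMap 0 1 θ - 0)) ^ k • (circleMap 0 1 θ - 0)⁻¹ •
            f (circleMap 0 1 θ • z)) := by
      funext z
      unfold hcomp
      rw [cauchyPowerSeries_apply]
      rfl
    rw [h1]
    apply Differentiable.fun_const_smul
    apply differentiable_integral
    · have hne : ∀ θ : ℝ, circleMap 0 1 θ - 0 ≠ 0 := fun θ => by
        rw [sub_zero]; exact circleMap_ne_center one_ne_zero
      have hcm : Continuous (fun p : ℝ × (Fin n → ℂ) => circleMap 0 1 p.1) :=
        (continuous_circleMap 0 1).comp continuous_fst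
      change Continuous (fun p : ℝ × (Fin n → ℂ) => deriv (circleMap 0 1) p.1 •
          ((1 / (circleMap 0 1 p.1 - 0)) ^ k • (circleMap 0 1 p.1 - 0)⁻¹ •
            f (circleMap 0 1 p.1 • p.2)))
      have hz : Continuous (fun p : ℝ × (Fin n → ℂ) => circleMap 0 1 p.1 • p.2) :=
        Continuous.smul hcm continuous_snd
      simp only [smul_eq_mul]
      refine Continuous.mul ?_ (Continuous.mul ?_ (Continuous.mul ?_ ?_))
      · simp only [deriv_circleMap]
        exact hcm.mul continuous_const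
      · exact (continuous_const.div (hcm.sub continuous_const) fun p => hne p.1).pow k
      · exact (hcm.sub continuous_const).inv₀ fun p => hne p.1
      · exact hf.continuous.comp hz
    · intro θ
      apply Differentiable.fun_const_smul
      apply Differentiable.fun_const_smul
      apply Differentiable.fun_const_smul
      exact hf.comp (differentiable_id.fun_const_smul _)
  · obtain ⟨M, hM⟩ := (isCompact_closedBall (0 : Fin n → ℂ) 1).exists_bound_of_continuousOn
      hf.continuous.continuousOn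
    have hM0 : 0 ≤ M := (norm_nonneg _).trans (hM 0 (by simp))
    refine ⟨(M + 1) * k.factorial, by positivity, 1, one_pos, fun z => ?_⟩
    rw [one_mul]
    have h5 : ‖hcomp f k z‖ ≤ M * (max ‖z‖ 1) ^ k := by
      set r : NNReal := ⟨(max ‖z‖ 1)⁻¹, by positivity⟩ with hr
      have hr0 : 0 < r := by
        rw [← NNReal.coe_pos]; change 0 < (max ‖z‖ 1)⁻¹; positivity
      have h6 := hcomp_bound hf z k hr0 (M := M) (fun w hw => hM w (by
        rw [mem_closedBall_zero_iff]
        refine hw.trans ?_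
        change (max ‖z‖ 1)⁻¹ * ‖z‖ ≤ 1
        rw [inv_mul_le_iff₀ (by positivity), mul_one]
        exact le_max_left _ _))
      change ‖hcomp f k z‖ ≤ M * (((max ‖z‖ 1)⁻¹)⁻¹) ^ k at h6
      rwa [inv_inv] at h6
    have h7 : (max ‖z‖ 1) ^ k ≤ k.factorial * Real.exp ‖z‖ := by
      rcases le_total ‖z‖ 1 with h8 | h8
      · rw [max_eq_right h8, one_pow]
        have h9 : (1 : ℝ) ≤ k.factorial := by exact_mod_cast Nat.one_le_iff_ne_zero.2 (Nat.factorial_ne_zero k)
        have h10 := Real.one_le_exp (norm_nonneg z)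
        nlinarith
      · rw [max_eq_left h8]
        have h9 := Real.pow_div_factorial_le_exp ‖z‖ (norm_nonneg z) k
        rw [div_le_iff₀ (by positivity)] at h9
        linarith
    calc ‖hcomp f k z‖ ≤ M * (max ‖z‖ 1) ^ k := h5
      _ ≤ (M + 1) * (k.factorial * Real.exp ‖z‖) := by
          apply mul_le_mul (by linarith) h7 (by positivity) (by positivity)
      _ = _ := by ring

/-- An analytic functional that vanishes on the entire functions of exponential type is
zero. -/
lemma dense_exp {n : ℕ} {T : Ent n →ₗ[ℂ] ℂ} (hT : IsAF T)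
    (h : ∀ f (hf : f ∈ ExpT n), T ⟨f, hf.1⟩ = 0) : T = 0 := by
  obtain ⟨R₀, C₀, hRC⟩ := hT
  apply LinearMap.ext
  intro f
  rw [LinearMap.zero_apply]
  set R := max R₀ 0
  set C := max C₀ 0
  obtain ⟨M, hM⟩ := (isCompact_closedBall (0 : Fin n → ℂ) (2 * R)).exists_bound_of_continuousOn
      (Differentiable.continuous f.2).continuousOn
  have hM0 : 0 ≤ M := (norm_nonneg _).trans (hM 0 (by simp [R]))
  have h1 : ∀ k, ∀ z : Fin n → ℂ, ‖z‖ ≤ R → ‖hcomp f.1 k z‖ ≤ M * (1 / 2) ^ k := by
    intro k z hz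
    have := hcomp_bound (r := 2) f.2 z k (by norm_num) (M := M) (fun w hw => hM w (by
      rw [mem_closedBall_zero_iff]
      refine hw.trans ?_
      have : ((2 : NNReal) : ℝ) = 2 := rfl
      rw [this]
      linarith))
    rw [show (((2 : NNReal) : ℝ))⁻¹ = 1 / 2 by rw [show ((2 : NNReal) : ℝ) = 2 from rfl]; norm_num]
      at this
    exact this
  have h2 : ∀ N : ℕ, ‖T f‖ ≤ C * (M * (2 * (1 / 2) ^ N)) := by
    intro N
    set g : Ent n := f - ∑ k ∈ Finset.range N, ⟨hcomp f.1 k, (hcomp_mem f.2 k).1⟩ with hg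
    have h3 : T f = T g := by
      rw [hg, map_sub, map_sum]
      rw [Finset.sum_eq_zero, sub_zero]
      intro k _
      exact h _ (hcomp_mem f.2 k)
    have h4 : ∀ z : Fin n → ℂ, ‖z‖ ≤ R → ‖g.1 z‖ ≤ M * (2 * (1 / 2) ^ N) := by
      intro z hz
      have h5 : g.1 z = ∑' k, hcomp f.1 (k + N) z := by
        have h6 := hcomp_hasSum f.2 z
        have h7 := h6.summable.sum_add_tsum_nat_add N
        rw [h6.tsum_eq] at h7
        have h8 : g.1 z = f.1 z - ∑ k ∈ Finset.range N, hcomp f.1 k z := by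
          rw [hg]
          change f.1 z - ((∑ k ∈ Finset.range N,
            (⟨hcomp f.1 k, (hcomp_mem f.2 k).1⟩ : Ent n) : Ent n) : (Fin n → ℂ) → ℂ) z = _
          rw [Submodule.coe_sum, Finset.sum_apply]
        rw [h8, ← h7]
        ring
      rw [h5]
      have h9 : HasSum (fun k : ℕ => M * (1 / 2 : ℝ) ^ (k + N)) (M * (2 * (1 / 2) ^ N)) := by
        have h10 := (hasSum_geometric_two.mul_right ((1 / 2 : ℝ) ^ N)).mul_left M
        simpa [pow_add] using h10
      exact tsum_of_norm_bounded h9 fun k => h1 (k + N) z hz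
    rw [h3]
    have h11 := hRC g (M * (2 * (1 / 2) ^ N)) fun z hz => h4 z (hz.trans (le_max_left _ _))
    refine h11.trans ?_
    apply mul_le_mul_of_nonneg_right (le_max_left _ _) (by positivity)
  have h3 : Filter.Tendsto (fun N : ℕ => C * (M * (2 * (1 / 2 : ℝ) ^ N))) Filter.atTop
      (nhds (C * (M * (2 * 0)))) := by
    refine Filter.Tendsto.const_mul _ (Filter.Tendsto.const_mul _ (Filter.Tendsto.const_mul _ ?_))
    exact tendsto_pow_atTop_nhds_zero_of_lt_one (by norm_num) (by norm_num)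
  have h4 := ge_of_tendsto' h3 h2
  simp only [mul_zero] at h4
  exact norm_le_zero_iff.1 h4

end Pool.Agent.H77.FB
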