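import Mathlib

/-!
The statement of the problem on the Fourier-Borel transform modulo a polynomial, in
elementary terms.
-/

namespace Pool.Agent.H77.FB

/-- `f` is an entire function of exponential type on `ℂ^n`. -/
def ExpType {n : ℕ} (f : (Fin n → ℂ) → ℂ) : Prop :=
  Differentiable ℂ f ∧ ∃ C > (0 : ℝ), ∃ B > (0 : ℝ), ∀ z, ‖f z‖ ≤ C * Real.exp (B * ‖z‖)

/-- `T`, restricted to the entire functions on `ℂ^n`, is an analytic functional: it is linear,
and continuous for uniform convergence on compact sets. -/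
def AnFunctional {n : ℕ} (T : ((Fin n → ℂ) → ℂ) → ℂ) : Prop :=
  (∀ f g : (Fin n → ℂ) → ℂ, Differentiable ℂ f → Differentiable ℂ g →
    T (fun z => f z + g z) = T f + T g) ∧
  (∀ (c : ℂ) (f : (Fin n → ℂ) → ℂ), Differentiable ℂ f → T (fun z => c * f z) = c * T f) ∧
  ∃ R C : ℝ, ∀ f : (Fin n → ℂ) → ℂ, Differentiable ℂ f → ∀ A : ℝ,
    (∀ z, ‖z‖ ≤ R → ‖f z‖ ≤ A) → ‖T f‖ ≤ C * A

/-- `T` vanishes on `P · H(ℂ^n)`. -/
def Annihilates {n : ℕ} (P : MvPolynomial (Fin n) ℂ) (T : ((Fin n → ℂ) → ℂ) → ℂ) : Prop :=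
  ∀ f : (Fin n → ℂ) → ℂ, Differentiable ℂ f → T (fun z => MvPolynomial.eval z P * f z) = 0

/-- The Fourier-Borel transform of `T`. -/
noncomputable def fourierBorel {n : ℕ} (T : ((Fin n → ℂ) → ℂ) → ℂ) (z : Fin n → ℂ) : ℂ :=
  T (fun ζ => Complex.exp (∑ j, ζ j * z j))

/-- `P^*(z)`, the value at `z` of the polynomial with conjugated coefficients. -/
noncomputable def starEval {n : ℕ} (P : MvPolynomial (Fin n) ℂ) (z : Fin n → ℂ) : ℂ :=
  MvPolynomial.eval z (MvPolynomial.map (starRingEnd ℂ) P)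

/-- `Φ_P` is injective: a functional in `(P · H(ℂ^n))^⊥` whose Fourier-Borel transform lies in
`P^* · Exp(ℂ^n)` is zero. -/
def PhiInjective {n : ℕ} (P : MvPolynomial (Fin n) ℂ) : Prop :=
  ∀ T : ((Fin n → ℂ) → ℂ) → ℂ, AnFunctional T → Annihilates P T →
    (∃ g, ExpType g ∧ ∀ z, fourierBorel T z = starEval P z * g z) →
      ∀ f, Differentiable ℂ f → T f = 0

/-- `Φ_P` is surjective: every `s` in `Exp(ℂ^n)` is the Fourier-Borel transform of a
functional in `(P · H(ℂ^n))^⊥` plus an element of `P^* · Exp(ℂ^n)`. -/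
def PhiSurjective {n : ℕ} (P : MvPolynomial (Fin n) ℂ) : Prop :=
  ∀ s : (Fin n → ℂ) → ℂ, ExpType s → ∃ T : ((Fin n → ℂ) → ℂ) → ℂ, ∃ g,
    AnFunctional T ∧ Annihilates P T ∧ ExpType g ∧
      ∀ z, s z = fourierBorel T z + starEval P z * g z

end Pool.Agent.H77.FB
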