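import Pool.Agent.H77.FB.Phi

/-!
The reproducing formula for the Gaussian weight on `ℂ^n`, for entire functions of
exponential type, and the corresponding formula for analytic functionals.
-/

open MvPolynomial MeasureTheory

namespace Pool.Agent.H77.FB

/-- The Gaussian weight. -/
noncomputable def gw {n : ℕ} (z : Fin n → ℂ) : ℝ := Real.exp (-(∑ j, ‖z j‖ ^ 2))

lemma gw_pos {n : ℕ} (z : Fin n → ℂ) : 0 < gw z := Real.exp_pos _

lemma continuous_gw {n : ℕ} : Continuous (gw (n := n)) := by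
  unfold gw; fun_prop

lemma integrable_one (B : ℝ) :
    Integrable (fun z : ℂ => Real.exp (B * ‖z‖ - ‖z‖ ^ 2)) := by
  have h1 : Integrable (fun v : ℂ => Complex.exp (-(1 / 2 : ℂ) * (‖v‖ : ℂ) ^ 2
      + (0 : ℂ) * (inner ℝ (0 : ℂ) v : ℝ))) :=
    GaussianFourier.integrable_cexp_neg_mul_sq_norm_add (V := ℂ) (b := (1 / 2 : ℂ))
      (by norm_num) 0 0
  have h2 : Integrable (fun v : ℂ => Real.exp (B ^ 2 / 2) * Real.exp (-(1 / 2) * ‖v‖ ^ 2)) := by
    refine Integrable.const_mul ?_ _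
    refine h1.norm.congr (Filter.Eventually.of_forall fun v => ?_)
    change ‖Complex.exp _‖ = _
    rw [Complex.norm_exp]
    congr 1
    simp [← Complex.ofReal_pow]
  refine h2.mono' (by fun_prop) (Filter.Eventually.of_forall fun v => ?_)
  rw [Real.norm_eq_abs, abs_of_pos (Real.exp_pos _), ← Real.exp_add]
  apply Real.exp_le_exp.2
  nlinarith [sq_nonneg (B - ‖v‖)]

lemma norm_le_sum {n : ℕ} (z : Fin n → ℂ) : ‖z‖ ≤ ∑ j, ‖z j‖ := by
  refine (pi_norm_le_iff_of_nonneg (Finset.sum_nonneg fun _ _ => norm_nonneg _)).2 fun i => ?_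
  exact Finset.single_le_sum (f := fun j => ‖z j‖) (fun j _ => norm_nonneg _) (Finset.mem_univ i)

lemma integrable_gw {n : ℕ} (B : ℝ) :
    Integrable (fun z : Fin n → ℂ => Real.exp (B * ‖z‖) * gw z) := by
  have h1 : Integrable (fun z : Fin n → ℂ => ∏ j, Real.exp (|B| * ‖z j‖ - ‖z j‖ ^ 2)) :=
    Integrable.fintype_prod (fun _ => integrable_one |B|)
  refine h1.mono' ?_ (Filter.Eventually.of_forall fun z => ?_)
  · exact (Continuous.mul (by fun_prop) continuous_gw).aestronglyMeasurable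
  · rw [Real.norm_eq_abs, abs_of_pos (mul_pos (Real.exp_pos _) (gw_pos z)), gw, ← Real.exp_add,
      ← Real.exp_sum]
    apply Real.exp_le_exp.2
    rw [Finset.sum_sub_distrib, ← Finset.mul_sum]
    have h2 := norm_le_sum z
    have h3 : B * ‖z‖ ≤ |B| * ‖z‖ := mul_le_mul_of_nonneg_right (le_abs_self B) (norm_nonneg _)
    have h4 : |B| * ‖z‖ ≤ |B| * ∑ j, ‖z j‖ := mul_le_mul_of_nonneg_left h2 (abs_nonneg _)
    linarith

/-- The total mass of the Gaussian weight. -/
noncomputable def gc (n : ℕ) : ℝ := ∫ z : Fin n → ℂ, gw z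

lemma integrable_gw' {n : ℕ} : Integrable (fun z : Fin n → ℂ => gw z) := by
  have := integrable_gw (n := n) 0
  simpa using this

lemma gc_pos (n : ℕ) : 0 < gc n := by
  unfold gc
  rw [integral_pos_iff_support_of_nonneg (fun z => (gw_pos z).le) integrable_gw']
  have : Function.support (fun z : Fin n → ℂ => gw z) = Set.univ := by
    ext z; simp [(gw_pos z).ne']
  rw [this]
  exact isOpen_univ.measure_pos volume Set.univ_nonempty

lemma rot_preserving {n : ℕ} (c : Circle) :
    MeasurePreserving (fun z : Fin n → ℂ => fun j => (c : ℂ) * z j) := by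
  have h : ∀ _ : Fin n, MeasurePreserving (fun w : ℂ => (c : ℂ) * w) := fun _ =>
    (rotation c).measurePreserving
  exact volume_preserving_pi h

lemma conj_preserving {n : ℕ} :
    MeasurePreserving (fun z : Fin n → ℂ => fun j => (starRingEnd ℂ) (z j)) := by
  have h : ∀ _ : Fin n, MeasurePreserving (fun w : ℂ => (starRingEnd ℂ) w) := fun _ =>
    Complex.conjLIE.measurePreserving
  exact volume_preserving_pi h

lemma integrable_of_bound {n : ℕ} {E : Type*} [NormedAddCommGroup E]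
    {F : (Fin n → ℂ) → E} (hF : Continuous F) {C B : ℝ}
    (h : ∀ z, ‖F z‖ ≤ C * Real.exp (B * ‖z‖) * gw z) : Integrable F := by
  have h1 : Integrable (fun z : Fin n → ℂ => C * (Real.exp (B * ‖z‖) * gw z)) :=
    (integrable_gw B).const_mul C
  refine h1.mono' hF.aestronglyMeasurable (Filter.Eventually.of_forall fun z => ?_)
  rw [← mul_assoc]; exact h z

/-- The mean value property for the Gaussian weight. -/
lemma gauss_mean {n : ℕ} {F : (Fin n → ℂ) → ℂ} (hF : F ∈ ExpT n) :
    ∫ z, F z * (gw z : ℂ) = F 0 * gc n := by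
  obtain ⟨hd, C, hC, B, hB, hb⟩ := hF
  set G : ℝ → (Fin n → ℂ) → ℂ := fun θ z => F (circleMap 0 1 θ • z) * (gw z : ℂ) with hG
  have hFc : Continuous F := hd.continuous
  have hgc : Continuous (gw (n := n)) := continuous_gw
  -- each rotated integral is the same
  have h1 : ∀ θ, ∫ z, G θ z = ∫ z, F z * (gw z : ℂ) := by
    intro θ
    have hm := rot_preserving (n := n) (Circle.exp θ)
    have h2 : ∫ z, F z * (gw z : ℂ)
        = ∫ z : Fin n → ℂ, F (fun j => (Circle.exp θ : ℂ) * z j)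
          * (gw (fun j => (Circle.exp θ : ℂ) * z j) : ℂ) := by
      conv_lhs => rw [← hm.map_eq]
      rw [integral_map hm.aemeasurable]
      exact (hFc.mul (Complex.continuous_ofReal.comp hgc)).aestronglyMeasurable
    rw [h2]
    refine integral_congr_ae (Filter.Eventually.of_forall fun z => ?_)
    have h3 : (fun j => (Circle.exp θ : ℂ) * z j) = circleMap 0 1 θ • z := by
      funext j
      simp [circleMap, Circle.coe_exp]
    have h4 : gw (fun j => (Circle.exp θ : ℂ) * z j) = gw z := by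
      unfold gw; simp
    change F (circleMap 0 1 θ • z) * (gw z : ℂ) = F (fun j => (Circle.exp θ : ℂ) * z j)
          * (gw (fun j => (Circle.exp θ : ℂ) * z j) : ℂ)
    rw [h4, h3]
  -- the averages over circles
  have h5 : ∀ z : Fin n → ℂ, ∫ θ in (0 : ℝ)..2 * Real.pi, G θ z
      = 2 * Real.pi * (F 0 * (gw z : ℂ)) := by
    intro z
    have h6 : DiffContOnCl ℂ (fun c : ℂ => F (c • z)) (Metric.ball 0 |1|) := by
      apply Differentiable.diffContOnCl
      exact hd.comp (differentiable_id.smul_const z)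
    have h7 := h6.circleAverage
    rw [Real.circleAverage, inv_smul_eq_iff₀ (by positivity)] at h7
    rw [hG]
    simp only
    rw [intervalIntegral.integral_mul_const, h7, zero_smul]
    simp [mul_assoc]
  have h8 : Integrable (Function.uncurry G)
      ((volume.restrict (Set.Ioc (0 : ℝ) (2 * Real.pi))).prod volume) := by
    have h9 : Integrable (fun z : Fin n → ℂ => C * (Real.exp (B * ‖z‖) * gw z)) :=
      (integrable_gw B).const_mul C
    have h10 := h9.comp_snd (volume.restrict (Set.Ioc (0 : ℝ) (2 * Real.pi)))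
    refine h10.mono' ?_ (Filter.Eventually.of_forall ?_)
    · apply Continuous.aestronglyMeasurable
      refine Continuous.mul (hFc.comp ?_) (Complex.continuous_ofReal.comp (hgc.comp continuous_snd))
      exact ((continuous_circleMap 0 1).comp continuous_fst).smul continuous_snd
    · rintro ⟨θ, z⟩
      change ‖F (circleMap 0 1 θ • z) * (gw z : ℂ)‖ ≤ C * (Real.exp (B * ‖z‖) * gw z)
      rw [norm_mul, Complex.norm_real, Real.norm_of_nonneg (gw_pos z).le, ← mul_assoc]
      refine mul_le_mul_of_nonneg_right ((hb _).trans_eq ?_) (gw_pos z).le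
      rw [norm_smul]
      simp
  have h11 := integral_integral_swap h8
  have h12 : ∫ θ in Set.Ioc (0 : ℝ) (2 * Real.pi), (∫ z, G θ z)
      = 2 * Real.pi * ∫ z, F z * (gw z : ℂ) := by
    simp only [h1]
    rw [setIntegral_const]
    simp [Real.pi_pos.le, Measure.real]
  have h13 : ∫ z, (∫ θ in Set.Ioc (0 : ℝ) (2 * Real.pi), G θ z)
      = 2 * Real.pi * (F 0 * gc n) := by
    have h14 : ∀ z, ∫ θ in Set.Ioc (0 : ℝ) (2 * Real.pi), G θ z
        = 2 * Real.pi * (F 0 * (gw z : ℂ)) := by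
      intro z
      rw [← h5 z, intervalIntegral.integral_of_le (by positivity)]
    simp only [h14]
    rw [integral_const_mul, integral_const_mul, integral_complex_ofReal]
    rfl
  rw [h12, h13] at h11
  have h15 : (2 * Real.pi : ℂ) ≠ 0 := by
    simp [Real.pi_ne_zero]
  exact mul_left_cancel₀ h15 h11

/-- Coordinatewise conjugation. -/
noncomputable def cj {n : ℕ} (z : Fin n → ℂ) : Fin n → ℂ := fun j => (starRingEnd ℂ) (z j)

lemma continuous_cj {n : ℕ} : Continuous (cj (n := n)) := by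
  unfold cj; fun_prop

lemma cj_cj {n : ℕ} (z : Fin n → ℂ) : cj (cj z) = z := by
  funext j; simp [cj]

lemma norm_cj {n : ℕ} (z : Fin n → ℂ) : ‖cj z‖ = ‖z‖ := by
  simp [cj, Pi.norm_def]

lemma gw_cj {n : ℕ} (z : Fin n → ℂ) : gw (cj z) = gw z := by
  simp [gw, cj]

lemma integral_cj {n : ℕ} {F : (Fin n → ℂ) → ℂ} (hF : Continuous F) :
    ∫ z, F (cj z) = ∫ z, F z := by
  have hm := conj_preserving (n := n)
  conv_rhs => rw [← hm.map_eq]
  rw [integral_map hm.aemeasurable hF.aestronglyMeasurable]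
  rfl

/-- The reproducing formula. -/
lemma gauss_repr {n : ℕ} {f : (Fin n → ℂ) → ℂ} (hf : f ∈ ExpT n) (ζ : Fin n → ℂ) :
    ∫ z, (f z * (gw z : ℂ)) * (expo (cj z)).1 ζ = f ζ * gc n := by
  obtain ⟨hd, C, hC, B, hB, hb⟩ := hf
  have h1 : ∫ z, (f z * (gw z : ℂ)) * (expo (cj z)).1 ζ
      = ∫ z : Fin n → ℂ, (f (z + ζ) * (gw (z + ζ) : ℂ)) * (expo (cj (z + ζ))).1 ζ :=
    (integral_add_right_eq_self (fun z => (f z * (gw z : ℂ)) * (expo (cj z)).1 ζ) ζ).symm
  rw [h1]
  set F : (Fin n → ℂ) → ℂ := fun z => f (z + ζ) * Complex.exp (∑ j, z j * (-(starRingEnd ℂ) (ζ j)))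
    with hFdef
  have h2 : ∀ z : Fin n → ℂ, (f (z + ζ) * (gw (z + ζ) : ℂ)) * (expo (cj (z + ζ))).1 ζ
      = F z * (gw z : ℂ) := by
    intro z
    change (f (z + ζ) * (gw (z + ζ) : ℂ)) * Complex.exp (∑ j, ζ j * cj (z + ζ) j)
      = (f (z + ζ) * Complex.exp (∑ j, z j * (-(starRingEnd ℂ) (ζ j)))) * (gw z : ℂ)
    rw [mul_assoc, mul_assoc]
    congr 1
    unfold gw
    rw [Complex.ofReal_exp, Complex.ofReal_exp, ← Complex.exp_add, ← Complex.exp_add]
    congr 1
    push_cast
    rw [← Finset.sum_neg_distrib, ← Finset.sum_add_distrib, ← Finset.sum_neg_distrib,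
      ← Finset.sum_add_distrib]
    refine Finset.sum_congr rfl fun j _ => ?_
    have h3 : ((‖(z + ζ) j‖ : ℂ)) ^ 2 = (z j + ζ j) * ((starRingEnd ℂ) (z j + ζ j)) := by
      rw [Complex.mul_conj, Complex.normSq_eq_norm_sq]; push_cast; rfl
    have h4 : ((‖z j‖ : ℂ)) ^ 2 = z j * ((starRingEnd ℂ) (z j)) := by
      rw [Complex.mul_conj, Complex.normSq_eq_norm_sq]; push_cast; rfl
    rw [h3, h4]
    simp only [cj, Pi.add_apply, map_add]
    ring
  simp only [h2]
  have h5 : F ∈ ExpT n := by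
    refine ⟨?_, C * Real.exp (B * ‖ζ‖), by positivity, B + n * ‖ζ‖, by positivity, fun z => ?_⟩
    · have h6 : Differentiable ℂ (fun z : Fin n → ℂ => f (z + ζ)) :=
        hd.comp (differentiable_id.add_const ζ)
      have h7 : Differentiable ℂ (fun z : Fin n → ℂ =>
          Complex.exp (∑ j, z j * (-(starRingEnd ℂ) (ζ j)))) := by fun_prop
      exact h6.mul h7
    · have h8 := norm_expo_le (fun j => -(starRingEnd ℂ) (ζ j)) z
      have h9 : ‖(fun j => -(starRingEnd ℂ) (ζ j))‖ = ‖ζ‖ := by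
        simp [Pi.norm_def]
      rw [h9] at h8
      have h10 := hb (z + ζ)
      have h11 : Real.exp (B * ‖z + ζ‖) ≤ Real.exp (B * ‖ζ‖) * Real.exp (B * ‖z‖) := by
        rw [← Real.exp_add]
        apply Real.exp_le_exp.2
        have := norm_add_le z ζ
        nlinarith
      calc ‖F z‖ = ‖f (z + ζ)‖ * ‖Complex.exp (∑ j, z j * (-(starRingEnd ℂ) (ζ j)))‖ :=
            norm_mul _ _
        _ ≤ (C * (Real.exp (B * ‖ζ‖) * Real.exp (B * ‖z‖))) * Real.exp (n * ‖z‖ * ‖ζ‖) := by
            apply mul_le_mul (h10.trans (by gcongr)) h8 (norm_nonneg _) (by positivity)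
        _ = C * Real.exp (B * ‖ζ‖) * (Real.exp (B * ‖z‖) * Real.exp (n * ‖z‖ * ‖ζ‖)) := by ring
        _ = _ := by rw [← Real.exp_add]; ring_nf
  rw [gauss_mean h5]
  simp [hFdef]

/-- The reproducing formula, after applying an analytic functional. -/
lemma gauss_functional {n : ℕ} {T : Ent n →ₗ[ℂ] ℂ} (hT : IsAF T) {f : (Fin n → ℂ) → ℂ}
    (hf : f ∈ ExpT n) :
    ∫ z, (f z * (gw z : ℂ)) * T (expo (cj z)) = T ⟨f, hf.1⟩ * gc n := by
  obtain ⟨R, hR, S, hS⟩ := exists_ext hT
  set Φ : (Fin n → ℂ) → C(Bl n R, ℂ) := fun z => (f z * (gw z : ℂ)) • restr R (expo (cj z))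
    with hΦ
  obtain ⟨hd, C, hC, B, hB, hb⟩ := hf
  have hc : Continuous Φ := by
    refine Continuous.smul (hd.continuous.mul (Complex.continuous_ofReal.comp continuous_gw)) ?_
    exact (differentiable_restr_expo R).continuous.comp continuous_cj
  have hi : Integrable Φ := by
    refine integrable_of_bound (C := C) (B := B + n * R) hc fun z => ?_
    have h1 : ‖restr R (expo (cj z))‖ ≤ Real.exp (n * R * ‖z‖) := by
      refine (ContinuousMap.norm_le _ (Real.exp_pos _).le).2 fun ζ => ?_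
      refine (norm_expo_le (cj z) ζ.1).trans (Real.exp_le_exp.2 ?_)
      rw [norm_cj]
      have h2 : ‖ζ.1‖ ≤ R := mem_closedBall_zero_iff.1 ζ.2
      gcongr
    rw [hΦ]
    simp only
    rw [norm_smul, norm_mul, Complex.norm_real, Real.norm_of_nonneg (gw_pos z).le]
    calc ‖f z‖ * gw z * ‖restr R (expo (cj z))‖
        ≤ (C * Real.exp (B * ‖z‖)) * gw z * Real.exp (n * R * ‖z‖) := by
          apply mul_le_mul _ h1 (norm_nonneg _) (mul_nonneg (by positivity) (gw_pos z).le)
          exact mul_le_mul_of_nonneg_right (hb z) (gw_pos z).le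
      _ = C * (Real.exp (B * ‖z‖) * Real.exp (n * R * ‖z‖)) * gw z := by ring
      _ = _ := by rw [← Real.exp_add]; ring_nf
  have h3 : ∫ z, Φ z = (gc n : ℂ) • restr R ⟨f, hd⟩ := by
    ext ζ
    have h4 := ((ContinuousMap.evalCLM ℂ (M := ℂ) ζ).integral_comp_comm hi)
    change (ContinuousMap.evalCLM ℂ (M := ℂ) ζ) (∫ z, Φ z) = (gc n : ℂ) * f ζ.1
    rw [← h4, mul_comm, ← gauss_repr ⟨hd, C, hC, B, hB, hb⟩ ζ.1]
    rfl
  have h5 := S.integral_comp_comm hi
  rw [h3, map_smul] at h5
  have h6 : ∀ z, S (Φ z) = (f z * (gw z : ℂ)) * T (expo (cj z)) := by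
    intro z
    rw [hΦ, hS]
    simp only [map_smul, smul_eq_mul]
  simp only [h6] at h5
  rw [h5, hS, smul_eq_mul, mul_comm]

end Pool.Agent.H77.FB
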