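import Mathlib

/-!
Circle averages of functions that are holomorphic outside a disc.
-/

open MeasureTheory

namespace Pool.Agent.H77.FB

/-- The average over the circle of radius `r` around `0`. -/
noncomputable abbrev av (F : ℂ → ℂ) (r : ℝ) : ℂ := Real.circleAverage F 0 r

lemma norm_cm {r : ℝ} (hr : 0 ≤ r) (θ : ℝ) : ‖circleMap 0 r θ‖ = r := by
  rw [norm_circleMap_zero, abs_of_nonneg hr]

lemma av_congr {F G : ℂ → ℂ} {r : ℝ} (hr : 0 ≤ r) (h : ∀ x, ‖x‖ = r → F x = G x) :
    av F r = av G r := by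
  apply Real.circleAverage_congr_sphere
  intro x hx
  apply h
  simpa [abs_of_nonneg hr] using hx

lemma av_norm_le {F : ℂ → ℂ} {r M : ℝ} (hr : 0 ≤ r) (h : ∀ x, ‖x‖ = r → ‖F x‖ ≤ M) :
    ‖av F r‖ ≤ M := by
  unfold av Real.circleAverage
  have h1 : ‖∫ θ in (0 : ℝ)..2 * Real.pi, F (circleMap 0 r θ)‖ ≤ M * |2 * Real.pi - 0| :=
    intervalIntegral.norm_integral_le_of_norm_le_const fun θ _ => h _ (norm_cm hr θ)
  rw [sub_zero, abs_of_pos Real.two_pi_pos] at h1
  rw [norm_smul, norm_inv, Real.norm_of_nonneg Real.two_pi_pos.le,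
    inv_mul_le_iff₀ Real.two_pi_pos]
  linarith

lemma av_int {F : ℂ → ℂ} {r : ℝ} (hr : 0 ≤ r) (h : ContinuousOn F {x | ‖x‖ = r}) :
    CircleIntegrable F 0 r := by
  apply ContinuousOn.circleIntegrable hr
  refine h.mono fun x hx => ?_
  simpa using hx

lemma av_add {F G : ℂ → ℂ} {r : ℝ} (hr : 0 ≤ r) (hF : ContinuousOn F {x | ‖x‖ = r})
    (hG : ContinuousOn G {x | ‖x‖ = r}) :
    av (fun x => F x + G x) r = av F r + av G r :=
  Real.circleAverage_fun_add (av_int hr hF) (av_int hr hG)

lemma av_sub {F G : ℂ → ℂ} {r : ℝ} (hr : 0 ≤ r) (hF : ContinuousOn F {x | ‖x‖ = r})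
    (hG : ContinuousOn G {x | ‖x‖ = r}) :
    av (fun x => F x - G x) r = av F r - av G r :=
  Real.circleAverage_fun_sub (av_int hr hF) (av_int hr hG)

lemma av_mul_left (c : ℂ) (F : ℂ → ℂ) (r : ℝ) : av (fun x => c * F x) r = c * av F r := by
  have := Real.circleAverage_fun_smul (a := c) (f := F) (c := 0) (R := r)
  simpa [smul_eq_mul] using this

lemma av_const (c : ℂ) (r : ℝ) : av (fun _ => c) r = c := Real.circleAverage_const c 0 r

/-- Independence of the radius. -/
lemma av_radius' {F : ℂ → ℂ} {R₀ r r' : ℝ} (h0 : 0 ≤ R₀) (hr : R₀ < r) (hr' : R₀ < r')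
    {s : Set ℂ} (hs : s.Countable) (hc : ContinuousOn F {x | R₀ < ‖x‖})
    (hd : ∀ x, R₀ < ‖x‖ → x ∉ s → DifferentiableAt ℂ F x) : av F r = av F r' := by
  wlog hle : r ≤ r' generalizing r r'
  · exact (this hr' hr (le_of_not_ge hle)).symm
  have hr0 : 0 < r := h0.trans_lt hr
  have hr0' : 0 < r' := h0.trans_lt hr'
  unfold av
  rw [Real.circleAverage_eq_circleIntegral hr0.ne', Real.circleAverage_eq_circleIntegral hr0'.ne']
  congr 1
  refine (Complex.circleIntegral_sub_center_inv_smul_eq_of_differentiable_on_annulus_off_countable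
    hr0 hle hs ?_ ?_).symm
  · refine hc.mono fun x hx => ?_
    have : r ≤ ‖x‖ := by simpa using hx.2
    exact hr.trans_le this
  · rintro x ⟨hx, hxs⟩
    have : r < ‖x‖ := by simpa using hx.2
    exact hd x (hr.trans this) hxs

lemma av_radius {F : ℂ → ℂ} {R₀ r r' : ℝ} (h0 : 0 ≤ R₀) (hr : R₀ < r) (hr' : R₀ < r')
    (hd : ∀ x, R₀ < ‖x‖ → DifferentiableAt ℂ F x) : av F r = av F r' :=
  av_radius' h0 hr hr' Set.countable_empty
    (fun x hx => (hd x hx).continuousAt.continuousWithinAt) fun x hx _ => hd x hx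

/-- Sums and averages. -/
lemma av_tsum {ι : Type*} [Countable ι] {F : ι → ℂ → ℂ} {u : ι → ℝ} {r : ℝ} (hr : 0 ≤ r)
    (hu : Summable u) (hc : ∀ i, ContinuousOn (F i) {x | ‖x‖ = r})
    (hb : ∀ i x, ‖x‖ = r → ‖F i x‖ ≤ u i) :
    HasSum (fun i => av (F i) r) (av (fun x => ∑' i, F i x) r) := by
  unfold av Real.circleAverage
  apply HasSum.const_smul
  apply intervalIntegral.hasSum_integral_of_dominated_convergence (fun i _ => u i)
  · intro i
    have h1 : Continuous (fun θ => F i (circleMap 0 r θ)) :=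
      (hc i).comp_continuous (continuous_circleMap 0 r) fun θ => norm_cm hr θ
    exact h1.aestronglyMeasurable
  · exact fun i => Filter.Eventually.of_forall fun θ _ => hb i _ (norm_cm hr θ)
  · exact Filter.Eventually.of_forall fun θ _ => hu
  · exact intervalIntegrable_const
  · refine Filter.Eventually.of_forall fun θ _ => ?_
    exact (Summable.of_norm_bounded hu fun i => hb i _ (norm_cm hr θ)).hasSum

/-- The double average does not depend on the order. -/
lemma av_swap {K : ℂ → ℂ → ℂ} {ρ r : ℝ} (hρ : 0 ≤ ρ) (hr : 0 ≤ r)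
    (hc : ContinuousOn (Function.uncurry K) ({y | ‖y‖ = ρ} ×ˢ {x | ‖x‖ = r})) :
    av (fun y => av (K y) r) ρ = av (fun x => av (fun y => K y x) ρ) r := by
  unfold av Real.circleAverage
  have h1 : Continuous (fun p : ℝ × ℝ => K (circleMap 0 ρ p.1) (circleMap 0 r p.2)) := by
    have h2 : Continuous (fun p : ℝ × ℝ => (circleMap 0 ρ p.1, circleMap 0 r p.2)) :=
      ((continuous_circleMap 0 ρ).comp continuous_fst).prodMk
        ((continuous_circleMap 0 r).comp continuous_snd)
    exact hc.comp_continuous h2 fun p => ⟨norm_cm hρ _, norm_cm hr _⟩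
  have h3 : Integrable (Function.uncurry fun (φ θ : ℝ) => K (circleMap 0 ρ φ) (circleMap 0 r θ))
      ((volume.restrict (Set.Ioc (0 : ℝ) (2 * Real.pi))).prod
        (volume.restrict (Set.Ioc (0 : ℝ) (2 * Real.pi)))) := by
    rw [Measure.prod_restrict]
    have h4 : IntegrableOn (Function.uncurry fun (φ θ : ℝ) =>
        K (circleMap 0 ρ φ) (circleMap 0 r θ))
        (Set.Icc (0 : ℝ) (2 * Real.pi) ×ˢ Set.Icc (0 : ℝ) (2 * Real.pi))
        (volume.prod volume) :=
      h1.continuousOn.integrableOn_compact (isCompact_Icc.prod isCompact_Icc)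
    exact h4.mono_set (Set.prod_mono Set.Ioc_subset_Icc_self Set.Ioc_subset_Icc_self)
  have h5 := integral_integral_swap h3
  simp only [intervalIntegral.integral_of_le Real.two_pi_pos.le, integral_smul]
  rw [h5]

lemma av_scale (F : ℂ → ℂ) (r : ℝ) : av F r = av (fun z => F (r * z)) 1 := by
  have := Real.circleAverage_eq_circleAverage_zero_one (f := F) (c := 0) (R := r)
  simpa using this

lemma av_inv (F : ℂ → ℂ) (r : ℝ) : av (fun x => F x⁻¹) r = av F r⁻¹ := by
  rw [av_scale, av_scale F r⁻¹]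
  have h := Real.circleAverage_zero_one_congr_inv (f := fun z : ℂ => F (((r⁻¹ : ℝ) : ℂ) * z))
  unfold av
  rw [← h]
  congr 1
  funext z
  rw [mul_inv]
  push_cast
  rfl

lemma av_conj (F : ℂ → ℂ) (r : ℝ) : av (fun x => F ((starRingEnd ℂ) x)) r = av F r := by
  rw [av_scale, av_scale F r]
  have h := Real.circleAverage_zero_one_congr_inv (f := fun z : ℂ => F (r * z))
  unfold av
  rw [← h]
  apply av_congr zero_le_one
  intro z hz
  rw [map_mul, Complex.conj_ofReal]
  congr 2
  exact (Complex.inv_eq_conj hz).symm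

/-- The nonnegative Laurent coefficients of a function of `1/x` holomorphic at infinity. -/
lemma av_inner {g : ℂ → ℂ} {r : ℝ} (hr : 0 < r) (k : ℕ)
    (hg : DiffContOnCl ℂ g (Metric.ball 0 r⁻¹)) :
    av (fun x => g x⁻¹ * (x⁻¹) ^ k) r = g 0 * 0 ^ k := by
  rw [av_inv (fun x => g x * x ^ k)]
  have h1 : DiffContOnCl ℂ (fun x => g x * x ^ k) (Metric.ball 0 |r⁻¹|) := by
    rw [abs_of_pos (inv_pos.2 hr)]
    exact hg.smul (differentiable_id.pow k).diffContOnCl
  exact h1.circleAverage

lemma cont_inv {r : ℝ} (hr : 0 < r) : ContinuousOn (fun x : ℂ => x⁻¹) {x | ‖x‖ = r} := by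
  apply continuousOn_id.inv₀
  intro x hx h
  have h1 : ‖x‖ = r := hx
  rw [show x = 0 from h, norm_zero] at h1
  exact hr.ne h1

/-- If the nonnegative Laurent coefficients at infinity vanish, the function is `O(1/|y|)`. -/
lemma decay_of_coeff {F : ℂ → ℂ} {R₀ R₁ : ℝ} (h0 : 0 ≤ R₀) (h1 : R₀ < R₁)
    (hd : ∀ x, R₀ < ‖x‖ → DifferentiableAt ℂ F x)
    (hz : ∀ N : ℕ, av (fun x => F x * (x⁻¹) ^ N) R₁ = 0) :
    ∃ C : ℝ, ∀ y, R₁ + 1 ≤ ‖y‖ → ‖F y‖ ≤ C / ‖y‖ := by
  have hR₁ : 0 < R₁ := h0.trans_lt h1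
  have hFc : ContinuousOn F {x | R₀ < ‖x‖} := fun x hx =>
    (hd x hx).continuousAt.continuousWithinAt
  -- a bound on the circle of radius R₁
  obtain ⟨M, hM⟩ := (isCompact_sphere (0 : ℂ) R₁).exists_bound_of_continuousOn
    (hFc.mono fun x hx => by
      have : ‖x‖ = R₁ := by simpa using hx
      change R₀ < ‖x‖
      rw [this]; exact h1)
  have hM' : ∀ x : ℂ, ‖x‖ = R₁ → ‖F x‖ ≤ M := fun x hx => hM x (by simpa using hx)
  have hM0 : 0 ≤ M := (norm_nonneg _).trans (hM' (R₁ : ℂ) (by simp [abs_of_pos hR₁]))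
  refine ⟨M * R₁ * (R₁ + 1), fun y hy => ?_⟩
  have hy1 : R₁ < ‖y‖ := by linarith
  have hy0 : y ≠ 0 := by
    rw [← norm_pos_iff]; linarith
  -- the function G
  set G : ℂ → ℂ := fun x => dslope F y x * x with hG
  set r : ℝ := ‖y‖ + 1 with hr
  have hyr : ‖y‖ < r := by rw [hr]; linarith
  have hr0 : 0 < r := by positivity
  have hGc : ContinuousOn G {x | R₀ < ‖x‖} := by
    intro x hx
    by_cases hxy : x = y
    · subst hxy
      exact ((continuousAt_dslope_same.2 (hd x hx)).mul continuousAt_id).continuousWithinAt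
    · exact (((continuousAt_dslope_of_ne hxy).2 (hd x hx).continuousAt).mul
        continuousAt_id).continuousWithinAt
  have hGd : ∀ x, R₀ < ‖x‖ → x ∉ ({y} : Set ℂ) → DifferentiableAt ℂ G x := by
    intro x hx hxy
    exact ((differentiableAt_dslope_of_ne (by simpa using hxy)).2 (hd x hx)).mul
      differentiableAt_id
  have h2 : av G R₁ = av G r :=
    av_radius' h0 h1 (by linarith) (Set.countable_singleton y) hGc hGd
  -- decomposition of G away from y
  have hdec : ∀ x, ‖x‖ ≠ ‖y‖ → G x = F x * (x / (x - y)) - F y * (x / (x - y)) := by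
    intro x hx
    have hne : x ≠ y := fun h => hx (by rw [h])
    rw [hG]
    simp only
    rw [dslope_of_ne _ hne, slope_def_field]
    ring
  have hcont : ∀ s : ℝ, R₀ < s → s ≠ ‖y‖ →
      ContinuousOn (fun x => F x * (x / (x - y))) {x | ‖x‖ = s} ∧
      ContinuousOn (fun x => F y * (x / (x - y))) {x | ‖x‖ = s} := by
    intro s hs hsy
    have h3 : ContinuousOn (fun x : ℂ => x / (x - y)) {x | ‖x‖ = s} := by
      apply continuousOn_id.div (continuousOn_id.sub continuousOn_const)
      intro x hx h4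
      have h5 : x = y := sub_eq_zero.1 h4
      exact hsy (by rw [← h5]; exact (show ‖x‖ = s from hx).symm)
    refine ⟨ContinuousOn.mul (hFc.mono fun x hx => ?_) h3, ContinuousOn.mul continuousOn_const h3⟩
    change R₀ < ‖x‖
    rw [show ‖x‖ = s from hx]
    exact hs
  have h3 : av G R₁ = av (fun x => F x * (x / (x - y))) R₁ - F y * av (fun x => x / (x - y)) R₁ := by
    rw [av_congr hR₁.le (fun x hx => hdec x (by rw [hx]; exact hy1.ne)),
      av_sub hR₁.le (hcont R₁ h1 hy1.ne).1 (hcont R₁ h1 hy1.ne).2, av_mul_left]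
  have h4 : av G r = av (fun x => F x * (x / (x - y))) r - F y * av (fun x => x / (x - y)) r := by
    rw [av_congr hr0.le (fun x hx => hdec x (by rw [hx]; exact hyr.ne')),
      av_sub hr0.le (hcont r (by linarith) hyr.ne').1 (hcont r (by linarith) hyr.ne').2,
      av_mul_left]
  -- the geometric series outside
  have hgeo : ∀ x : ℂ, ‖x‖ = r → HasSum (fun n : ℕ => y ^ n * (x⁻¹) ^ n) (x / (x - y)) := by
    intro x hx
    have hx0 : x ≠ 0 := by rw [← norm_pos_iff, hx]; exact hr0
    have h5 : ‖y * x⁻¹‖ < 1 := by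
      rw [norm_mul, norm_inv, hx, ← div_eq_mul_inv, div_lt_one hr0]; exact hyr
    have h6 := hasSum_geometric_of_norm_lt_one h5
    have h7 : (1 - y * x⁻¹)⁻¹ = x / (x - y) := by
      have h8 : x - y ≠ 0 := by
        intro h9
        have : x = y := sub_eq_zero.1 h9
        rw [this] at hx; linarith
      have h10 : 1 - y * x⁻¹ = (x - y) / x := by field_simp
      rw [h10, inv_div]
    rw [h7] at h6
    simpa [mul_pow] using h6
  have hrat : ‖y‖ / r < 1 := (div_lt_one hr0).2 hyr
  have hsum : Summable fun n : ℕ => (‖y‖ / r) ^ n :=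
    summable_geometric_of_lt_one (by positivity) hrat
  -- the average of x/(x-y) over the big circle is 1
  have h5 : av (fun x => x / (x - y)) r = 1 := by
    have h6 := av_tsum (ι := ℕ) (F := fun n x => y ^ n * (x⁻¹) ^ n) (u := fun n => (‖y‖ / r) ^ n)
      hr0.le hsum (fun n => by
        apply ContinuousOn.mul continuousOn_const
        exact (cont_inv hr0).pow n) (fun n x hx => by
        rw [norm_mul, norm_pow, norm_pow, norm_inv, hx, ← mul_pow, ← div_eq_mul_inv])
    have h7 : av (fun x => ∑' n : ℕ, y ^ n * (x⁻¹) ^ n) r = av (fun x => x / (x - y)) r :=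
      av_congr hr0.le fun x hx => (hgeo x hx).tsum_eq
    rw [h7] at h6
    have h8 : ∀ n : ℕ, av (fun x => y ^ n * (x⁻¹) ^ n) r = if n = 0 then 1 else 0 := by
      intro n
      rw [av_mul_left]
      have h9 := av_inner (g := fun _ => 1) hr0 n diffContOnCl_const
      simp only [one_mul] at h9
      rw [h9]
      split_ifs with h10
      · subst h10; simp
      · simp [h10]
    simp only [h8] at h6
    exact h6.unique (hasSum_ite_eq 0 1)
  -- the average over the small circle is 0
  have h6 : av (fun x => x / (x - y)) R₁ = 0 := by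
    have h7 : DiffContOnCl ℂ (fun x => x / (x - y)) (Metric.ball 0 |R₁|) := by
      rw [abs_of_pos hR₁]
      apply DifferentiableOn.diffContOnCl
      intro x hx
      have hx1 : ‖x‖ ≤ R₁ := by
        have := Metric.closure_ball_subset_closedBall hx
        simpa using this
      have h8 : x - y ≠ 0 := by
        intro h9
        have : x = y := sub_eq_zero.1 h9
        rw [this] at hx1; linarith
      exact (differentiableAt_id.div (differentiableAt_id.sub_const y) h8).differentiableWithinAt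
    have := h7.circleAverage
    unfold av
    rw [this]
    simp
  -- the average of F x/(x-y) over the big circle is 0
  have h7 : av (fun x => F x * (x / (x - y))) r = 0 := by
    obtain ⟨M', hM2⟩ := (isCompact_sphere (0 : ℂ) r).exists_bound_of_continuousOn
      (hFc.mono fun x hx => by
        have : ‖x‖ = r := by simpa using hx
        change R₀ < ‖x‖
        rw [this]; linarith)
    have hM2' : ∀ x : ℂ, ‖x‖ = r → ‖F x‖ ≤ M' := fun x hx => hM2 x (by simpa using hx)
    have h8 := av_tsum (ι := ℕ) (F := fun n x => F x * (y ^ n * (x⁻¹) ^ n))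
      (u := fun n => M' * (‖y‖ / r) ^ n) hr0.le (hsum.mul_left M') (fun n => by
        apply ContinuousOn.mul
        · refine hFc.mono fun x hx => ?_
          change R₀ < ‖x‖
          rw [show ‖x‖ = r from hx]; linarith
        apply ContinuousOn.mul continuousOn_const
        exact (cont_inv hr0).pow n) (fun n x hx => by
        rw [norm_mul, norm_mul, norm_pow, norm_pow, norm_inv, hx, ← mul_pow, ← div_eq_mul_inv]
        exact mul_le_mul_of_nonneg_right (hM2' x hx) (by positivity))
    have h9 : av (fun x => ∑' n : ℕ, F x * (y ^ n * (x⁻¹) ^ n)) r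
        = av (fun x => F x * (x / (x - y))) r :=
      av_congr hr0.le fun x hx => ((hgeo x hx).mul_left (F x)).tsum_eq
    rw [h9] at h8
    have h10 : ∀ n : ℕ, av (fun x => F x * (y ^ n * (x⁻¹) ^ n)) r = 0 := by
      intro n
      have h11 : (fun x => F x * (y ^ n * (x⁻¹) ^ n)) = fun x => y ^ n * (F x * (x⁻¹) ^ n) := by
        funext x; ring
      rw [h11, av_mul_left]
      have h12 : av (fun x => F x * (x⁻¹) ^ n) r = av (fun x => F x * (x⁻¹) ^ n) R₁ := by
        apply av_radius h0 (by linarith) h1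
        intro x hx
        apply (hd x hx).mul
        apply DifferentiableAt.pow
        apply differentiableAt_inv
        rw [← norm_pos_iff]
        linarith
      rw [h12, hz, mul_zero]
    simp only [h10] at h8
    exact h8.unique hasSum_zero
  rw [h3, h4, h5, h6, h7] at h2
  have h8 : F y = - av (fun x => F x * (x / (x - y))) R₁ := by linear_combination h2
  rw [h8, norm_neg]
  have h9 : ‖av (fun x => F x * (x / (x - y))) R₁‖ ≤ M * (R₁ / (‖y‖ - R₁)) := by
    apply av_norm_le hR₁.le
    intro x hx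
    rw [norm_mul, norm_div, hx]
    apply mul_le_mul (hM' x hx) _ (by positivity) hM0
    apply div_le_div_of_nonneg_left hR₁.le (by linarith)
    have := norm_sub_norm_le y x
    rw [hx, norm_sub_rev] at this
    exact this
  refine h9.trans ?_
  have hypos : 0 < ‖y‖ := by linarith
  have hy2 : 0 < ‖y‖ - R₁ := by linarith
  rw [mul_div_assoc', div_le_div_iff₀ hy2 hypos]
  have h10 : ‖y‖ ≤ (R₁ + 1) * (‖y‖ - R₁) := by nlinarith
  calc M * R₁ * ‖y‖ ≤ M * R₁ * ((R₁ + 1) * (‖y‖ - R₁)) :=
        mul_le_mul_of_nonneg_left h10 (by positivity)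
    _ = _ := by ring

end Pool.Agent.H77.FB
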