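import Mathlib

/-!
The coefficients of a plane curve in coordinates.
-/

open MvPolynomial

namespace Pool.Agent.H77.FB

/-- Total degree at most `N`, for polynomials in two variables. -/
def TD (N : ℕ) (f : Polynomial (Polynomial ℂ)) : Prop :=
  ∀ k l, N < k + l → (f.coeff k).coeff l = 0

lemma TD.mono {N N' : ℕ} {f : Polynomial (Polynomial ℂ)} (h : TD N f) (hN : N ≤ N') : TD N' f :=
  fun k l hkl => h k l (by omega)

lemma TD.add {N : ℕ} {f g : Polynomial (Polynomial ℂ)} (hf : TD N f) (hg : TD N g) :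
    TD N (f + g) := fun k l hkl => by
  rw [Polynomial.coeff_add, Polynomial.coeff_add, hf k l hkl, hg k l hkl, add_zero]

lemma TD.zero (N : ℕ) : TD N 0 := fun k l _ => by simp

lemma TD.sum {N : ℕ} {ι : Type*} {s : Finset ι} {f : ι → Polynomial (Polynomial ℂ)}
    (h : ∀ i ∈ s, TD N (f i)) : TD N (∑ i ∈ s, f i) := fun k l hkl => by
  rw [Polynomial.finsetSum_coeff, Polynomial.finsetSum_coeff]
  exact Finset.sum_eq_zero fun i hi => h i hi k l hkl

lemma TD.mul {N N' : ℕ} {f g : Polynomial (Polynomial ℂ)} (hf : TD N f) (hg : TD N' g) :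
    TD (N + N') (f * g) := fun k l hkl => by
  rw [Polynomial.coeff_mul, Polynomial.finsetSum_coeff]
  refine Finset.sum_eq_zero fun x hx => ?_
  rw [Polynomial.coeff_mul]
  refine Finset.sum_eq_zero fun y hy => ?_
  have h1 := Finset.HasAntidiagonal.mem_antidiagonal.1 hx
  have h2 := Finset.HasAntidiagonal.mem_antidiagonal.1 hy
  by_cases h3 : N < x.1 + y.1
  · rw [hf _ _ h3, zero_mul]
  · rw [hg _ _ (by omega), mul_zero]

lemma TD.C (c : ℂ) : TD 0 (Polynomial.C (Polynomial.C c)) := fun k l hkl => by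
  rw [Polynomial.coeff_C]
  split_ifs with h
  · rw [Polynomial.coeff_C, if_neg (by omega)]
  · simp

lemma TD.pow {N : ℕ} {f : Polynomial (Polynomial ℂ)} (hf : TD N f) (n : ℕ) :
    TD (n * N) (f ^ n) := by
  induction n with
  | zero =>
    rw [zero_mul, pow_zero, ← Polynomial.C_1, ← Polynomial.C_1]
    exact TD.C 1
  | succ n ih =>
    rw [pow_succ]
    exact (ih.mul hf).mono (by rw [Nat.succ_mul])

lemma TD.Y : TD 1 (Polynomial.X : Polynomial (Polynomial ℂ)) := fun k l hkl => by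
  rw [Polynomial.coeff_X]
  split_ifs with h
  · rw [Polynomial.coeff_one, if_neg (by omega)]
  · simp

lemma TD.CX : TD 1 (Polynomial.C Polynomial.X : Polynomial (Polynomial ℂ)) := fun k l hkl => by
  rw [Polynomial.coeff_C]
  split_ifs with h
  · rw [Polynomial.coeff_X, if_neg (by omega)]
  · simp

/-- The change of coordinates. -/
noncomputable def cc (t : ℂ) : MvPolynomial (Fin 2) ℂ →+* Polynomial (Polynomial ℂ) :=
  MvPolynomial.eval₂Hom (Polynomial.C.comp Polynomial.C)
    ![Polynomial.C Polynomial.X + Polynomial.C (Polynomial.C t) * Polynomial.X, Polynomial.X]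

lemma cc_C (t c : ℂ) : cc t (C c) = Polynomial.C (Polynomial.C c) := by
  simp [cc]

lemma cc_X0 (t : ℂ) : cc t (X 0) =
    Polynomial.C Polynomial.X + Polynomial.C (Polynomial.C t) * Polynomial.X := by
  simp [cc]

lemma cc_X1 (t : ℂ) : cc t (X 1) = Polynomial.X := by
  simp [cc]

lemma cc_eval (t u w : ℂ) (R : MvPolynomial (Fin 2) ℂ) :
    MvPolynomial.eval ![u + t * w, w] R
      = Polynomial.eval₂ (Polynomial.evalRingHom u) w (cc t R) := by
  have h : MvPolynomial.eval ![u + t * w, w]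
      = (Polynomial.eval₂RingHom (Polynomial.evalRingHom u) w).comp (cc t) := by
    apply MvPolynomial.ringHom_ext
    · intro c
      rw [RingHom.comp_apply, cc_C]
      simp
    · intro i
      fin_cases i
      · rw [RingHom.comp_apply]
        change MvPolynomial.eval ![u + t * w, w] (X 0) =
          (Polynomial.eval₂RingHom (Polynomial.evalRingHom u) w) (cc t (X 0))
        rw [cc_X0]
        simp
      · rw [RingHom.comp_apply]
        change MvPolynomial.eval ![u + t * w, w] (X 1) =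
          (Polynomial.eval₂RingHom (Polynomial.evalRingHom u) w) (cc t (X 1))
        rw [cc_X1]
        simp
  rw [h]
  rfl

lemma td_X0 (t : ℂ) : TD 1 (cc t (X 0)) := by
  rw [cc_X0]
  exact TD.CX.add (((TD.C t).mul TD.Y).mono (by omega))

lemma td_X1 (t : ℂ) : TD 1 (cc t (X 1)) := by
  rw [cc_X1]
  exact TD.Y

lemma td_of_totalDegree (t : ℂ) {Q : MvPolynomial (Fin 2) ℂ} {N : ℕ} (hQ : Q.totalDegree ≤ N) :
    TD N (cc t Q) := by
  rw [← MvPolynomial.support_sum_monomial_coeff Q, map_sum]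
  apply TD.sum
  intro d hd
  have h1 : d 0 + d 1 ≤ N := by
    have := MvPolynomial.le_totalDegree hd
    rw [Finsupp.sum_fintype _ _ (fun _ => rfl), Fin.sum_univ_two] at this
    omega
  have h2 : cc t (monomial d (coeff d Q))
      = Polynomial.C (Polynomial.C (coeff d Q)) * ((cc t (X 0)) ^ d 0 * (cc t (X 1)) ^ d 1) := by
    rw [MvPolynomial.monomial_eq, map_mul, cc_C, Finsupp.prod_fintype _ _ (fun _ => pow_zero _),
      Fin.prod_univ_two, map_mul, map_pow, map_pow]
  rw [h2]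
  exact ((TD.C _).mul (((td_X0 t).pow _).mul ((td_X1 t).pow _))).mono (by omega)

lemma td_prod (t : ℂ) {ι : Type*} (s : Finset ι) (α β : ι → ℂ) :
    TD s.card (cc t (∏ j ∈ s, (C (α j) * X 0 + C (β j) * X 1))) ∧
    (cc t (∏ j ∈ s, (C (α j) * X 0 + C (β j) * X 1))).coeff s.card
      = Polynomial.C (∏ j ∈ s, (α j * t + β j)) := by
  classical
  induction s using Finset.induction_on with
  | empty =>
    simp only [Finset.prod_empty, Finset.card_empty, map_one]
    refine ⟨?_, by simp⟩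
    rw [← Polynomial.C_1, ← Polynomial.C_1]
    exact TD.C 1
  | insert a s ha ih =>
    rw [Finset.prod_insert ha, Finset.card_insert_of_notMem ha, Finset.prod_insert ha, map_mul]
    obtain ⟨ih1, ih2⟩ := ih
    set f := cc t (∏ j ∈ s, (C (α j) * X 0 + C (β j) * X 1)) with hf
    have h1 : cc t (C (α a) * X 0 + C (β a) * X 1)
        = Polynomial.C (Polynomial.C (α a) * Polynomial.X) +
          Polynomial.C (Polynomial.C (α a * t + β a)) * Polynomial.X := by
      rw [map_add, map_mul, map_mul, cc_C, cc_C, cc_X0, cc_X1]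
      simp only [map_add, map_mul]
      ring
    have h2 : TD 1 (cc t (C (α a) * X 0 + C (β a) * X 1)) := by
      rw [map_add, map_mul, map_mul, cc_C, cc_C]
      exact (((TD.C _).mul (td_X0 t)).mono (by omega)).add
        (((TD.C _).mul (td_X1 t)).mono (by omega))
    refine ⟨(h2.mul ih1).mono (by omega), ?_⟩
    have h3 : f.coeff (s.card + 1) = 0 := by
      ext l
      rw [Polynomial.coeff_zero]
      exact ih1 _ _ (by omega)
    rw [h1, add_mul, Polynomial.coeff_add, Polynomial.coeff_C_mul, h3, mul_zero, zero_add,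
      mul_assoc, Polynomial.coeff_C_mul, Polynomial.coeff_X_mul, ih2, ← map_mul]

lemma poly_bound {q : Polynomial ℂ} {n : ℕ} (h : ∀ l, n < l → q.coeff l = 0) (u : ℂ) :
    ‖q.eval u‖ ≤ (∑ l ∈ Finset.range (n + 1), ‖q.coeff l‖) * (1 + ‖u‖) ^ n := by
  have h1 : q.natDegree < n + 1 := by
    have := Polynomial.natDegree_le_iff_coeff_eq_zero.2 h
    omega
  rw [Polynomial.eval_eq_sum_range' h1, Finset.sum_mul]
  refine (norm_sum_le _ _).trans (Finset.sum_le_sum fun l hl => ?_)
  rw [norm_mul, norm_pow]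
  apply mul_le_mul_of_nonneg_left _ (norm_nonneg _)
  have h2 : l ≤ n := by have := Finset.mem_range.1 hl; omega
  calc ‖u‖ ^ l ≤ (1 + ‖u‖) ^ l := by
        apply pow_le_pow_left₀ (norm_nonneg _); linarith
    _ ≤ _ := pow_le_pow_right₀ (by have := norm_nonneg u; linarith) h2

/-- The curve in coordinates. -/
theorem coords {M : ℕ} {R Q : MvPolynomial (Fin 2) ℂ} {α β : Fin (M + 1) → ℂ}
    (hR : R = ∏ j, (C (α j) * X 0 + C (β j) * X 1) + Q) (hQ : Q.totalDegree < M + 1) {t : ℂ}
    (ht : ∀ j, α j * t + β j ≠ 0) :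
    ∃ c₀ : ℂ, c₀ ≠ 0 ∧ ∃ p : ℕ → ℂ → ℂ, (∀ k, Differentiable ℂ (p k)) ∧ ∃ K : ℝ, 0 ≤ K ∧
      (∀ u, ∀ k ≤ M, ‖p k u‖ * (1 + ‖u‖) ^ k ≤ K * (1 + ‖u‖) ^ (M + 1)) ∧
      ∀ u w, MvPolynomial.eval ![u + t * w, w] R
        = c₀ * (w ^ (M + 1) + ∑ k ∈ Finset.range (M + 1), p k u * w ^ k) := by
  set c₀ : ℂ := ∏ j, (α j * t + β j) with hc₀
  have hc : c₀ ≠ 0 := Finset.prod_ne_zero_iff.2 fun j _ => ht j
  have h1 := td_prod t Finset.univ α β
  rw [Finset.card_univ, Fintype.card_fin] at h1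
  have h2 := td_of_totalDegree t (N := M) (by omega : Q.totalDegree ≤ M)
  have h3 : TD (M + 1) (cc t R) := by
    rw [hR, map_add]
    exact h1.1.add (h2.mono (by omega))
  have h4 : (cc t R).coeff (M + 1) = Polynomial.C c₀ := by
    rw [hR, map_add, Polynomial.coeff_add, h1.2]
    have h5 : (cc t Q).coeff (M + 1) = 0 := by
      ext l
      rw [Polynomial.coeff_zero]
      exact h2 _ _ (by omega)
    rw [h5, add_zero]
  have h5 : (cc t R).natDegree < M + 1 + 1 := by
    have : (cc t R).natDegree ≤ M + 1 := by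
      rw [Polynomial.natDegree_le_iff_coeff_eq_zero]
      intro k hk
      ext l
      rw [Polynomial.coeff_zero]
      exact h3 _ _ (by omega)
    omega
  refine ⟨c₀, hc, fun k u => c₀⁻¹ * ((cc t R).coeff k).eval u, fun k => ?_,
    ∑ k ∈ Finset.range (M + 1), ‖c₀⁻¹‖ * ∑ l ∈ Finset.range (M + 1 - k + 1),
      ‖((cc t R).coeff k).coeff l‖, ?_, fun u k hk => ?_, fun u w => ?_⟩
  · exact (Polynomial.differentiable _).const_mul _
  · exact Finset.sum_nonneg fun k _ => by positivity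
  · have h6 := poly_bound (q := (cc t R).coeff k) (n := M + 1 - k)
      (fun l hl => h3 k l (by omega)) u
    have h7 : ‖c₀⁻¹‖ * ∑ l ∈ Finset.range (M + 1 - k + 1), ‖((cc t R).coeff k).coeff l‖ ≤
        ∑ k ∈ Finset.range (M + 1), ‖c₀⁻¹‖ * ∑ l ∈ Finset.range (M + 1 - k + 1),
          ‖((cc t R).coeff k).coeff l‖ :=
      Finset.single_le_sum (f := fun k => ‖c₀⁻¹‖ * ∑ l ∈ Finset.range (M + 1 - k + 1),
        ‖((cc t R).coeff k).coeff l‖) (fun _ _ => by positivity) (Finset.mem_range.2 (by omega))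
    rw [norm_mul]
    calc ‖c₀⁻¹‖ * ‖((cc t R).coeff k).eval u‖ * (1 + ‖u‖) ^ k
        ≤ ‖c₀⁻¹‖ * ((∑ l ∈ Finset.range (M + 1 - k + 1), ‖((cc t R).coeff k).coeff l‖) *
          (1 + ‖u‖) ^ (M + 1 - k)) * (1 + ‖u‖) ^ k := by gcongr
      _ = (‖c₀⁻¹‖ * ∑ l ∈ Finset.range (M + 1 - k + 1), ‖((cc t R).coeff k).coeff l‖) *
          ((1 + ‖u‖) ^ (M + 1 - k) * (1 + ‖u‖) ^ k) := by ring
      _ = (‖c₀⁻¹‖ * ∑ l ∈ Finset.range (M + 1 - k + 1), ‖((cc t R).coeff k).coeff l‖) *
          (1 + ‖u‖) ^ (M + 1) := by rw [← pow_add, Nat.sub_add_cancel (by omega)]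
      _ ≤ _ := by
          apply mul_le_mul_of_nonneg_right h7
          have := norm_nonneg u
          positivity
  · rw [cc_eval, Polynomial.eval₂_eq_sum_range' _ h5, Finset.sum_range_succ, h4]
    simp only [Polynomial.coe_evalRingHom, Polynomial.eval_C]
    rw [mul_add, Finset.mul_sum, add_comm]
    congr 1
    apply Finset.sum_congr rfl
    intro k _
    field_simp

end Pool.Agent.H77.FB
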