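import Mathlib

/-!
Definitions for the Fourier-Borel transform on quotients by a polynomial ideal
(problem MP_6e521b_an), and the proof that the transform of an analytic functional
is an entire function of exponential type.
-/

open MvPolynomial

namespace Pool.Agent.H77.FB

/-- The space of entire functions on `ℂ^n`. -/
def Ent (n : ℕ) : Submodule ℂ ((Fin n → ℂ) → ℂ) where
  carrier := {f | Differentiable ℂ f}
  add_mem' := fun ha hb => ha.add hb
  zero_mem' := differentiable_const 0
  smul_mem' := fun c _ hf => hf.const_smul c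

/-- The space of entire functions of exponential type on `ℂ^n`. -/
def ExpT (n : ℕ) : Submodule ℂ ((Fin n → ℂ) → ℂ) where
  carrier := {f | Differentiable ℂ f ∧
    ∃ C > (0 : ℝ), ∃ B > (0 : ℝ), ∀ z, ‖f z‖ ≤ C * Real.exp (B * ‖z‖)}
  add_mem' := by
    rintro f g ⟨hf, C, hC, B, hB, h⟩ ⟨hg, C', hC', B', hB', h'⟩
    refine ⟨hf.add hg, C + C', by positivity, B + B', by positivity, fun z => ?_⟩
    have h1 : Real.exp (B * ‖z‖) ≤ Real.exp ((B + B') * ‖z‖) := by
      apply Real.exp_le_exp.2
      have := norm_nonneg z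
      nlinarith
    have h2 : Real.exp (B' * ‖z‖) ≤ Real.exp ((B + B') * ‖z‖) := by
      apply Real.exp_le_exp.2
      have := norm_nonneg z
      nlinarith
    calc ‖(f + g) z‖ ≤ ‖f z‖ + ‖g z‖ := norm_add_le _ _
      _ ≤ C * Real.exp (B * ‖z‖) + C' * Real.exp (B' * ‖z‖) := add_le_add (h z) (h' z)
      _ ≤ C * Real.exp ((B + B') * ‖z‖) + C' * Real.exp ((B + B') * ‖z‖) := by gcongr
      _ = _ := by ring
  zero_mem' := ⟨differentiable_const 0, 1, one_pos, 1, one_pos, fun z => by
    simp only [Pi.zero_apply, norm_zero]; positivity⟩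
  smul_mem' := by
    rintro c f ⟨hf, C, hC, B, hB, h⟩
    refine ⟨hf.const_smul c, (‖c‖ + 1) * C, by positivity, B, hB, fun z => ?_⟩
    rw [Pi.smul_apply, norm_smul]
    calc ‖c‖ * ‖f z‖ ≤ (‖c‖ + 1) * (C * Real.exp (B * ‖z‖)) := by
          apply mul_le_mul _ (h z) (norm_nonneg _) (by positivity)
          linarith
      _ = _ := by ring

/-- The value of a polynomial, as a function on `ℂ^n`, is entire. -/
lemma differentiable_eval {n : ℕ} (Q : MvPolynomial (Fin n) ℂ) :
    Differentiable ℂ (fun z : Fin n → ℂ => MvPolynomial.eval z Q) := by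
  induction Q using MvPolynomial.induction_on with
  | C a => simp only [MvPolynomial.eval_C]; exact differentiable_const a
  | add p q hp hq => simp only [map_add]; exact hp.add hq
  | mul_X p i hp =>
    simp only [map_mul, MvPolynomial.eval_X]
    exact hp.mul (differentiable_apply i)

/-- A polynomial grows at most like an exponential. -/
lemma eval_bound {n : ℕ} (Q : MvPolynomial (Fin n) ℂ) :
    ∃ C > (0 : ℝ), ∃ B > (0 : ℝ), ∀ z : Fin n → ℂ,
      ‖MvPolynomial.eval z Q‖ ≤ C * Real.exp (B * ‖z‖) := by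
  induction Q using MvPolynomial.induction_on with
  | C a =>
    refine ⟨‖a‖ + 1, by positivity, 1, one_pos, fun z => ?_⟩
    rw [MvPolynomial.eval_C]
    have h1 : 1 ≤ Real.exp (1 * ‖z‖) := Real.one_le_exp (by positivity)
    nlinarith [norm_nonneg a]
  | add p q hp hq =>
    obtain ⟨C, hC, B, hB, h⟩ := hp
    obtain ⟨C', hC', B', hB', h'⟩ := hq
    refine ⟨C + C', by positivity, B + B', by positivity, fun z => ?_⟩
    rw [map_add]
    have h1 : Real.exp (B * ‖z‖) ≤ Real.exp ((B + B') * ‖z‖) := by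
      apply Real.exp_le_exp.2
      have := norm_nonneg z
      nlinarith
    have h2 : Real.exp (B' * ‖z‖) ≤ Real.exp ((B + B') * ‖z‖) := by
      apply Real.exp_le_exp.2
      have := norm_nonneg z
      nlinarith
    calc _ ≤ C * Real.exp (B * ‖z‖) + C' * Real.exp (B' * ‖z‖) :=
          (norm_add_le _ _).trans (add_le_add (h z) (h' z))
      _ ≤ C * Real.exp ((B + B') * ‖z‖) + C' * Real.exp ((B + B') * ‖z‖) := by gcongr
      _ = _ := by ring
  | mul_X p i hp =>
    obtain ⟨C, hC, B, hB, h⟩ := hp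
    refine ⟨C, hC, B + 1, by positivity, fun z => ?_⟩
    rw [map_mul, MvPolynomial.eval_X, norm_mul]
    have h1 : ‖z i‖ ≤ Real.exp ‖z‖ := by
      have h2 := norm_le_pi_norm z i
      have h3 := Real.add_one_le_exp ‖z‖
      linarith
    calc _ ≤ (C * Real.exp (B * ‖z‖)) * Real.exp ‖z‖ :=
          mul_le_mul (h z) h1 (norm_nonneg _) (by positivity)
      _ = _ := by rw [mul_assoc, ← Real.exp_add]; ring_nf

/-- Multiplication by the polynomial `Q` on entire functions. -/
noncomputable def mulEnt {n : ℕ} (Q : MvPolynomial (Fin n) ℂ) : Ent n →ₗ[ℂ] Ent n where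
  toFun f := ⟨fun z => MvPolynomial.eval z Q * f.1 z, (differentiable_eval Q).mul f.2⟩
  map_add' f g := by
    apply Subtype.ext; funext z
    change MvPolynomial.eval z Q * (f.1 z + g.1 z) = _
    rw [mul_add]; rfl
  map_smul' c f := by
    apply Subtype.ext; funext z
    change MvPolynomial.eval z Q * (c * f.1 z) = c * (MvPolynomial.eval z Q * f.1 z)
    ring

/-- Multiplication by the polynomial `Q` on entire functions of exponential type. -/
noncomputable def mulExp {n : ℕ} (Q : MvPolynomial (Fin n) ℂ) : ExpT n →ₗ[ℂ] ExpT n where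
  toFun f := ⟨fun z => MvPolynomial.eval z Q * f.1 z, (differentiable_eval Q).mul f.2.1, by
    obtain ⟨C, hC, B, hB, h⟩ := eval_bound Q
    obtain ⟨C', hC', B', hB', h'⟩ := f.2.2
    refine ⟨C * C', by positivity, B + B', by positivity, fun z => ?_⟩
    rw [norm_mul]
    calc _ ≤ (C * Real.exp (B * ‖z‖)) * (C' * Real.exp (B' * ‖z‖)) :=
          mul_le_mul (h z) (h' z) (norm_nonneg _) (by positivity)
      _ = C * C' * (Real.exp (B * ‖z‖) * Real.exp (B' * ‖z‖)) := by ring
      _ = _ := by rw [← Real.exp_add]; ring_nf⟩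
  map_add' f g := by
    apply Subtype.ext; funext z
    change MvPolynomial.eval z Q * (f.1 z + g.1 z) = _
    rw [mul_add]; rfl
  map_smul' c f := by
    apply Subtype.ext; funext z
    change MvPolynomial.eval z Q * (c * f.1 z) = c * (MvPolynomial.eval z Q * f.1 z)
    ring

/-- A linear functional on the entire functions is an analytic functional if it is
continuous for uniform convergence on compact sets: it is bounded by a constant times
the supremum over some ball. -/
def IsAF {n : ℕ} (T : Ent n →ₗ[ℂ] ℂ) : Prop :=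
  ∃ R C : ℝ, ∀ f : Ent n, ∀ A : ℝ, (∀ z, ‖z‖ ≤ R → ‖f.1 z‖ ≤ A) → ‖T f‖ ≤ C * A

/-- The analytic functionals that vanish on `P · H(ℂ^n)`. -/
def Ann {n : ℕ} (P : MvPolynomial (Fin n) ℂ) : Submodule ℂ (Ent n →ₗ[ℂ] ℂ) where
  carrier := {T | IsAF T ∧ ∀ f, T (mulEnt P f) = 0}
  add_mem' := by
    rintro S T ⟨⟨R, C, h⟩, h0⟩ ⟨⟨R', C', h'⟩, h0'⟩
    refine ⟨⟨max R R', C + C', fun f A hA => ?_⟩, fun f => ?_⟩
    · have h1 := h f A fun z hz => hA z (hz.trans (le_max_left _ _))
      have h2 := h' f A fun z hz => hA z (hz.trans (le_max_right _ _))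
      calc ‖(S + T) f‖ ≤ ‖S f‖ + ‖T f‖ := norm_add_le _ _
        _ ≤ C * A + C' * A := add_le_add h1 h2
        _ = _ := by ring
    · rw [LinearMap.add_apply, h0, h0', add_zero]
  zero_mem' := ⟨⟨0, 0, fun f A _ => by simp⟩, fun f => rfl⟩
  smul_mem' := by
    rintro c T ⟨⟨R, C, h⟩, h0⟩
    refine ⟨⟨R, ‖c‖ * C, fun f A hA => ?_⟩, fun f => ?_⟩
    · rw [LinearMap.smul_apply, norm_smul, mul_assoc]
      exact mul_le_mul_of_nonneg_left (h f A hA) (norm_nonneg _)
    · rw [LinearMap.smul_apply, h0, smul_zero]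

/-- The exponential `ζ ↦ exp (ζ_1 z_1 + ⋯ + ζ_n z_n)`. -/
noncomputable def expo {n : ℕ} (z : Fin n → ℂ) : Ent n :=
  ⟨fun ζ => Complex.exp (∑ j, ζ j * z j), by
    change Differentiable ℂ _
    fun_prop⟩

end Pool.Agent.H77.FB
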