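import Mathlib

/-!
Entire coefficients of a polynomial that is small at sufficiently many points vanish.
-/

open Filter Topology

namespace Pool.Agent.H77.FB

lemma interp_zero {M : ℕ} {r : ℕ → ℂ → ℂ} (hr : ∀ k, Differentiable ℂ (r k))
    {w : Fin (M + 1) → ℂ → ℂ} {lam : Fin (M + 1) → ℂ} (hinj : Function.Injective lam)
    (h1 : ∀ j, Tendsto (fun u => w j u / u) (cocompact ℂ) (𝓝 (lam j)))
    (h2 : ∀ j, Tendsto (fun u => ∑ k ∈ Finset.range (M + 1), r k u * w j u ^ k)
      (cocompact ℂ) (𝓝 0)) (k : ℕ) (hk : k < M + 1) (u : ℂ) : r k u = 0 := by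
  have hinv : Tendsto (fun u : ℂ => u⁻¹) (cocompact ℂ) (𝓝 0) := by
    rw [← Metric.cobounded_eq_cocompact]
    exact tendsto_inv₀_cobounded
  have hne : ∀ᶠ u : ℂ in cocompact ℂ, u ≠ 0 := by
    have h3 : ({0} : Set ℂ)ᶜ ∈ cocompact ℂ := isCompact_singleton.compl_mem_cocompact
    filter_upwards [h3] with u hu using hu
  set ω : ℂ → Fin (M + 1) → ℂ := fun u j => w j u / u with hω
  set b : ℂ → Fin (M + 1) → ℂ := fun u j =>
    ∑ k ∈ Finset.range (M + 1), r k u * w j u ^ k with hb
  set x : ℂ → Fin (M + 1) → ℂ := fun u k => r k u * u ^ (k : ℕ) with hx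
  have hωt : Tendsto ω (cocompact ℂ) (𝓝 lam) := tendsto_pi_nhds.2 h1
  have hbt : Tendsto b (cocompact ℂ) (𝓝 0) := tendsto_pi_nhds.2 h2
  have hV : Continuous (fun ω : Fin (M + 1) → ℂ => Matrix.vandermonde ω) := by
    apply continuous_matrix
    intro i j
    simp only [Matrix.vandermonde_apply]
    exact (continuous_apply i).pow _
  have hdet : Matrix.det (Matrix.vandermonde lam) ≠ 0 := Matrix.det_vandermonde_ne_zero_iff.2 hinj
  have hdt : Tendsto (fun u => Matrix.det (Matrix.vandermonde (ω u))) (cocompact ℂ)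
      (𝓝 (Matrix.det (Matrix.vandermonde lam))) :=
    ((hV.matrix_det).tendsto lam).comp hωt
  have hdne : ∀ᶠ u in cocompact ℂ, Matrix.det (Matrix.vandermonde (ω u)) ≠ 0 :=
    hdt.eventually_ne hdet
  have hadj : Tendsto (fun u => (Matrix.adjugate (Matrix.vandermonde (ω u))).mulVec (b u))
      (cocompact ℂ) (𝓝 0) := by
    have h3 : Continuous (fun p : (Fin (M + 1) → ℂ) × (Fin (M + 1) → ℂ) =>
        (Matrix.adjugate (Matrix.vandermonde p.1)).mulVec p.2) :=
      ((hV.comp continuous_fst).matrix_adjugate).matrix_mulVec continuous_snd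
    have h4 := (h3.tendsto (lam, 0)).comp (hωt.prodMk_nhds hbt)
    simpa [Function.comp_def] using h4
  have hxt : Tendsto x (cocompact ℂ) (𝓝 0) := by
    have h3 := (hdt.inv₀ hdet).smul hadj
    rw [smul_zero] at h3
    refine h3.congr' ?_
    filter_upwards [hne, hdne] with u hu hd
    have h4 : (Matrix.vandermonde (ω u)).mulVec (x u) = b u := by
      funext i
      rw [hb, hx, hω]
      simp only [Matrix.mulVec, dotProduct, Matrix.vandermonde_apply]
      rw [Finset.sum_range]
      apply Finset.sum_congr rfl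
      intro j _
      have : u ^ (j : ℕ) ≠ 0 := pow_ne_zero _ hu
      rw [div_pow]
      field_simp
    rw [← h4, Matrix.mulVec_mulVec, Matrix.adjugate_mul, Matrix.smul_mulVec, Matrix.one_mulVec,
      smul_smul, inv_mul_cancel₀ hd, one_smul]
  have h5 : Tendsto (r k) (cocompact ℂ) (𝓝 0) := by
    have h6 := ((tendsto_pi_nhds.1 hxt ⟨k, hk⟩).mul (hinv.pow k))
    rw [Pi.zero_apply, zero_mul] at h6
    refine h6.congr' ?_
    filter_upwards [hne] with u hu
    rw [hx]
    simp only
    rw [mul_assoc, ← mul_pow, mul_inv_cancel₀ hu, one_pow, mul_one]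
  exact (hr k).apply_eq_of_tendsto_cocompact u h5

end Pool.Agent.H77.FB
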