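import Pool.Agent.H77.FB.Taylor
import Pool.Agent.H77.FB.Interp

/-!
Division of functions of exponential type by a monic polynomial in the second variable.
-/

open MeasureTheory Filter Topology

namespace Pool.Agent.H77.FB

lemma differentiable_tc_term {s : (Fin 2 → ℂ) → ℂ} (hs : Differentiable ℂ s) {M : ℕ}
    {p : ℕ → ℂ → ℂ} (hp : ∀ k, Differentiable ℂ (p k)) (n : ℕ) :
    Differentiable ℂ (fun v : Fin 2 → ℂ => tc s n (v 0) * qt M p n (v 0) (v 1)) :=
  ((tc_diff hs n).comp (differentiable_apply 0)).fun_mul (qt_diff hp n)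

lemma hasSum_exp' (x : ℝ) : HasSum (fun n : ℕ => x ^ n / n.factorial) (Real.exp x) := by
  have := NormedSpace.expSeries_div_hasSum_exp x
  rwa [← Real.exp_eq_exp_ℝ] at this

theorem division_rem {M : ℕ} {p : ℕ → ℂ → ℂ} (hp : ∀ k, Differentiable ℂ (p k)) {K : ℝ}
    (hK : 0 ≤ K)
    (hpb : ∀ u, ∀ k ≤ M, ‖p k u‖ * (1 + ‖u‖) ^ k ≤ K * (1 + ‖u‖) ^ (M + 1))
    {s : (Fin 2 → ℂ) → ℂ} (hs : Differentiable ℂ s) {C B : ℝ} (hC : 0 < C)
    (hB : 0 < B) (h : ∀ u w, ‖s ![u, w]‖ ≤ C * Real.exp (B * (‖u‖ + ‖w‖))) :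
    ∃ g : (Fin 2 → ℂ) → ℂ, ∃ r : ℕ → ℂ → ℂ, ExpType g ∧ (∀ k, Differentiable ℂ (r k)) ∧
      ∀ u w, s ![u, w] = (w ^ (M + 1) + ∑ k ∈ Finset.range (M + 1), p k u * w ^ k) * g ![u, w] +
        ∑ k ∈ Finset.range (M + 1), r k u * w ^ k := by
  obtain ⟨b, hb⟩ : ∃ b : ℝ, b = Real.exp 1 * B := ⟨_, rfl⟩
  have hb0 : 0 < b := by rw [hb]; positivity
  -- bound of the terms
  have h1 : ∀ n (v : Fin 2 → ℂ), ‖tc s n (v 0) * qt M p n (v 0) (v 1)‖
      ≤ C * Real.exp (B * ‖v‖) * ((b * (2 * (1 + K)) * (1 + ‖v‖)) ^ n / n.factorial) := by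
    intro n v
    have h2 := tc_exp hs hC hB h n (v 0)
    rw [← hb] at h2
    have hv0 : ‖v 0‖ ≤ ‖v‖ := norm_le_pi_norm v 0
    have hv1 : ‖v 1‖ ≤ ‖v‖ := norm_le_pi_norm v 1
    have h3 := qt_bound (M := M) (p := p) (K := K) (U := 1 + ‖v 0‖) (W := 1 + ‖v‖) (u := v 0)
      (w := v 1) (by have := norm_nonneg (v 0); linarith) hK (by linarith) (by linarith)
      (hpb (v 0)) n
    rw [norm_mul]
    calc ‖tc s n (v 0)‖ * ‖qt M p n (v 0) (v 1)‖
        ≤ (C * Real.exp (B * ‖v 0‖) * (b ^ n / n.factorial)) *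
          ((2 * (1 + K)) ^ n * (1 + ‖v‖) ^ n) := by gcongr
      _ ≤ (C * Real.exp (B * ‖v‖) * (b ^ n / n.factorial)) *
          ((2 * (1 + K)) ^ n * (1 + ‖v‖) ^ n) := by gcongr
      _ = _ := by rw [mul_pow (b * (2 * (1 + K))), mul_pow b]; ring
  have hsum : ∀ v : Fin 2 → ℂ, HasSum (fun n : ℕ =>
      C * Real.exp (B * ‖v‖) * ((b * (2 * (1 + K)) * (1 + ‖v‖)) ^ n / n.factorial))
      (C * Real.exp (B * ‖v‖) * Real.exp (b * (2 * (1 + K)) * (1 + ‖v‖))) := fun v =>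
    (hasSum_exp' _).mul_left _
  have hsm : ∀ v : Fin 2 → ℂ, Summable fun n => tc s n (v 0) * qt M p n (v 0) (v 1) := fun v =>
    Summable.of_norm_bounded (hsum v).summable fun n => h1 n v
  -- bound of the remainders
  have hr1 : ∀ k ≤ M, ∀ n u, ‖tc s n u * rh M p n k u‖
      ≤ C * Real.exp (B * ‖u‖) * ((b * (1 + K) * (1 + ‖u‖)) ^ n / n.factorial) := by
    intro k hk n u
    have h2 := tc_exp hs hC hB h n u
    rw [← hb] at h2
    have hU : 1 ≤ 1 + ‖u‖ := by have := norm_nonneg u; linarith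
    have h3 := rh_bound (M := M) (p := p) hU hK (hpb u) n k hk
    have h4 : ‖rh M p n k u‖ ≤ (1 + K) ^ n * (1 + ‖u‖) ^ n := by
      calc ‖rh M p n k u‖ = ‖rh M p n k u‖ * 1 := by ring
        _ ≤ ‖rh M p n k u‖ * (1 + ‖u‖) ^ k := by gcongr; exact one_le_pow₀ hU
        _ ≤ _ := h3
    rw [norm_mul]
    calc ‖tc s n u‖ * ‖rh M p n k u‖
        ≤ (C * Real.exp (B * ‖u‖) * (b ^ n / n.factorial)) *
          ((1 + K) ^ n * (1 + ‖u‖) ^ n) := by gcongr
      _ = _ := by rw [mul_pow (b * (1 + K)), mul_pow b]; ring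
  have hsr : ∀ k ≤ M, ∀ u, Summable fun n => tc s n u * rh M p n k u := fun k hk u =>
    Summable.of_norm_bounded ((hasSum_exp' _).mul_left _).summable fun n => hr1 k hk n u
  refine ⟨fun v => ∑' n, tc s n (v 0) * qt M p n (v 0) (v 1),
    fun k u => if k ≤ M then ∑' n, tc s n u * rh M p n k u else 0, ⟨?_, ?_⟩, ?_, ?_⟩
  · apply differentiable_tsum' (differentiable_tc_term hs hp)
    intro R
    refine ⟨fun n => C * Real.exp (B * |R|) *
      ((b * (2 * (1 + K)) * (1 + |R|)) ^ n / n.factorial),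
      ((hasSum_exp' _).mul_left _).summable, fun n v hv => (h1 n v).trans ?_⟩
    have : ‖v‖ ≤ |R| := hv.trans (le_abs_self R)
    simp only
    gcongr
  · refine ⟨C * Real.exp (b * (2 * (1 + K))), by positivity, B + b * (2 * (1 + K)),
      by positivity, fun v => ?_⟩
    refine (tsum_of_norm_bounded (hsum v) fun n => h1 n v).trans_eq ?_
    rw [mul_assoc C, mul_assoc C, ← Real.exp_add, ← Real.exp_add]
    congr 2
    ring
  · intro k
    by_cases hk : k ≤ M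
    · simp only [hk, if_true]
      apply differentiable_tsum' (fun n => (tc_diff hs n).mul (rh_diff hp n k))
      intro R
      refine ⟨fun n => C * Real.exp (B * |R|) *
        ((b * (1 + K) * (1 + |R|)) ^ n / n.factorial),
        ((hasSum_exp' _).mul_left _).summable, fun n u hu => (hr1 k hk n u).trans ?_⟩
      have : ‖u‖ ≤ |R| := hu.trans (le_abs_self R)
      simp only
      gcongr
    · simp only [hk, if_false]
      exact differentiable_const _
  · intro u w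
    have h2 := tc_hasSum hs u w
    have h3 := (hsm ![u, w]).hasSum.mul_left
      (w ^ (M + 1) + ∑ k ∈ Finset.range (M + 1), p k u * w ^ k)
    have h4 : HasSum (fun n => ∑ k ∈ Finset.range (M + 1), tc s n u * rh M p n k u * w ^ k)
        (∑ k ∈ Finset.range (M + 1),
          (if k ≤ M then ∑' n, tc s n u * rh M p n k u else 0) * w ^ k) := by
      apply hasSum_sum
      intro k hk
      have hk' : k ≤ M := by have := Finset.mem_range.1 hk; omega
      rw [if_pos hk']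
      exact (hsr k hk' u).hasSum.mul_right _
    have h5 := h3.add h4
    refine h2.unique ?_
    refine h5.congr_fun ?_
    intro n
    simp only [Matrix.cons_val_zero, Matrix.cons_val_one]
    rw [show tc s n u * w ^ n = tc s n u * ((w ^ (M + 1) + ∑ k ∈ Finset.range (M + 1), p k u * w ^ k) *
      qt M p n u w + ∑ k ∈ Finset.range (M + 1), rh M p n k u * w ^ k) by rw [← pow_eq]]
    rw [mul_add, Finset.mul_sum]
    congr 1
    · ring
    · apply Finset.sum_congr rfl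
      intro k _
      ring

theorem division_uw {M : ℕ} {p : ℕ → ℂ → ℂ} (hp : ∀ k, Differentiable ℂ (p k)) {K : ℝ}
    (hK : 0 ≤ K)
    (hpb : ∀ u, ∀ k ≤ M, ‖p k u‖ * (1 + ‖u‖) ^ k ≤ K * (1 + ‖u‖) ^ (M + 1))
    {s : (Fin 2 → ℂ) → ℂ} (hs : Differentiable ℂ s) {C B : ℝ} (hC : 0 < C)
    (hB : 0 < B) (h : ∀ u w, ‖s ![u, w]‖ ≤ C * Real.exp (B * (‖u‖ + ‖w‖)))
    {w : Fin (M + 1) → ℂ → ℂ} {lam : Fin (M + 1) → ℂ} (hinj : Function.Injective lam)
    (h0 : ∀ j, ∀ᶠ u in cocompact ℂ,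
      w j u ^ (M + 1) + ∑ k ∈ Finset.range (M + 1), p k u * w j u ^ k = 0)
    (h1 : ∀ j, Tendsto (fun u => w j u / u) (cocompact ℂ) (𝓝 (lam j)))
    (h2 : ∀ j, Tendsto (fun u => s ![u, w j u]) (cocompact ℂ) (𝓝 0)) :
    ∃ g : (Fin 2 → ℂ) → ℂ, ExpType g ∧
      ∀ u w, s ![u, w] = (w ^ (M + 1) + ∑ k ∈ Finset.range (M + 1), p k u * w ^ k) * g ![u, w] := by
  obtain ⟨g, r, hg, hr, hgr⟩ := division_rem hp hK hpb hs hC hB h
  refine ⟨g, hg, fun u w' => ?_⟩
  rw [hgr]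
  rw [Finset.sum_eq_zero (s := Finset.range (M + 1)) (f := fun k => r k u * w' ^ k), add_zero]
  intro k hk
  rw [interp_zero hr hinj h1 (fun j => ?_) k (Finset.mem_range.1 hk) u, zero_mul]
  refine (h2 j).congr' ?_
  filter_upwards [h0 j] with u hu
  rw [hgr, hu, zero_mul, zero_add]

end Pool.Agent.H77.FB
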