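import Mathlib

/-!
A Fredholm alternative for finite rank perturbations of bijective maps, and operators given
by matrices with bounded row sums.
-/

namespace Pool.Agent.H77.FB

section Algebra

variable {k X : Type*} [Field k] [AddCommGroup X] [Module k X]

lemma one_add_surj {F : X →ₗ[k] X} (hF : FiniteDimensional k (LinearMap.range F))
    (hi : Function.Injective (LinearMap.id + F : X →ₗ[k] X)) :
    Function.Surjective (LinearMap.id + F : X →ₗ[k] X) := by
  set R := LinearMap.range F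
  let A : R →ₗ[k] R := LinearMap.codRestrict R ((LinearMap.id + F).comp R.subtype) (by
    intro x
    exact R.add_mem x.2 (LinearMap.mem_range_self F _))
  have hA : Function.Injective A := by
    intro x y hxy
    have h1 : (LinearMap.id + F : X →ₗ[k] X) x = (LinearMap.id + F : X →ₗ[k] X) y :=
      congrArg Subtype.val hxy
    exact Subtype.ext (hi h1)
  have hA' : Function.Surjective A := LinearMap.surjective_of_injective hA
  intro y
  obtain ⟨r, hr⟩ := hA' ⟨-(F y), R.neg_mem (LinearMap.mem_range_self F y)⟩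
  have h2 : (r : X) + F r = -(F y) := congrArg Subtype.val hr
  refine ⟨y + r, ?_⟩
  change (y + r) + F (y + r) = y
  rw [map_add]
  calc y + (r : X) + (F y + F r) = y + F y + ((r : X) + F r) := by abel
    _ = y := by rw [h2]; abel

lemma add_surj {U F : X →ₗ[k] X} (hU : Function.Bijective U)
    (hF : FiniteDimensional k (LinearMap.range F)) (hi : Function.Injective (U + F)) :
    Function.Surjective (U + F) := by
  let e : X ≃ₗ[k] X := LinearEquiv.ofBijective U hU
  let F' : X →ₗ[k] X := e.symm.toLinearMap.comp F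
  have h1 : ∀ x, (U + F) x = e ((LinearMap.id + F' : X →ₗ[k] X) x) := by
    intro x
    change U x + F x = e (x + e.symm (F x))
    rw [map_add, LinearEquiv.apply_symm_apply]
    rfl
  have hF' : FiniteDimensional k (LinearMap.range F') := by
    have : LinearMap.range F' = (LinearMap.range F).map e.symm.toLinearMap :=
      LinearMap.range_comp F e.symm.toLinearMap
    rw [this]
    infer_instance
  have hi' : Function.Injective (LinearMap.id + F' : X →ₗ[k] X) := by
    intro x y hxy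
    apply hi
    rw [h1, h1, hxy]
  have hs := one_add_surj hF' hi'
  intro y
  obtain ⟨x, hx⟩ := hs (e.symm y)
  refine ⟨x, ?_⟩
  rw [h1, hx, LinearEquiv.apply_symm_apply]

/-- If `M = U + F` with `U` bijective and `F` of finite rank, and `K` contains the range of `M`
and meets the kernel of `M` only in `0`, then `K` is the range of `M`. -/
lemma fredholm {U F : X →ₗ[k] X} (hU : Function.Bijective U)
    (hF : FiniteDimensional k (LinearMap.range F)) {K : Submodule k X}
    (hK : ∀ x, (U + F) x ∈ K) (hN : ∀ x, (U + F) x = 0 → x ∈ K → x = 0) :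
    ∀ y ∈ K, ∃ x, (U + F) x = y := by
  let e : X ≃ₗ[k] X := LinearEquiv.ofBijective U hU
  set N := LinearMap.ker (U + F)
  have hNf : FiniteDimensional k N := by
    have h1 : N ≤ (LinearMap.range F).map e.symm.toLinearMap := by
      intro x hx
      have h2 : U x + F x = 0 := hx
      refine ⟨-(F x), (LinearMap.range F).neg_mem (LinearMap.mem_range_self F x), ?_⟩
      change e.symm (-(F x)) = x
      rw [LinearEquiv.symm_apply_eq]
      change -(F x) = U x
      exact (eq_neg_of_add_eq_zero_left h2).symm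
    exact Submodule.finiteDimensional_of_le h1
  obtain ⟨g, hg⟩ := LinearMap.exists_leftInverse_of_injective N.subtype
    (LinearMap.ker_eq_bot.2 N.subtype_injective)
  let pr : X →ₗ[k] X := N.subtype.comp g
  have hpr : ∀ x, x ∈ N → pr x = x := by
    intro x hx
    have h3 : g (N.subtype ⟨x, hx⟩) = ⟨x, hx⟩ := LinearMap.congr_fun hg ⟨x, hx⟩
    change N.subtype (g x) = x
    have h4 : g x = ⟨x, hx⟩ := h3
    rw [h4]
    rfl
  have hprN : ∀ x, pr x ∈ N := fun x => (g x).2
  have hfin : FiniteDimensional k (LinearMap.range (F + pr)) := by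
    have h5 : LinearMap.range (F + pr) ≤ LinearMap.range F ⊔ N := by
      rintro _ ⟨x, rfl⟩
      exact Submodule.add_mem_sup (LinearMap.mem_range_self F x) (hprN x)
    exact Submodule.finiteDimensional_of_le h5
  have hsum : ∀ x, (U + (F + pr)) x = (U + F) x + pr x := by
    intro x
    change U x + (F x + pr x) = U x + F x + pr x
    abel
  have hinj : Function.Injective (U + (F + pr)) := by
    rw [← LinearMap.ker_eq_bot, LinearMap.ker_eq_bot']
    intro x hx
    rw [hsum] at hx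
    have h6 : (U + F) x = -(pr x) := eq_neg_of_add_eq_zero_left hx
    have h7 : pr x ∈ K := by
      have := K.neg_mem (hK x)
      rwa [h6, neg_neg] at this
    have h8 : pr x = 0 := hN _ (hprN x) h7
    have h9 : (U + F) x = 0 := by rw [h6, h8, neg_zero]
    rw [← hpr x h9, h8]
  have hsurj := add_surj hU hfin hinj
  intro y hy
  obtain ⟨x, hx⟩ := hsurj y
  rw [hsum] at hx
  have h10 : pr x ∈ K := by
    have h11 : pr x = y - (U + F) x := by rw [← hx]; abel
    rw [h11]
    exact K.sub_mem hy (hK x)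
  have h12 : pr x = 0 := hN _ (hprN x) h10
  rw [h12, add_zero] at hx
  exact ⟨x, hx⟩

end Algebra

section Matrix

open BoundedContinuousFunction

variable {α : Type*} [TopologicalSpace α] [DiscreteTopology α]

/-- The operator with matrix `e`, on bounded families. -/
noncomputable def mop (e : α → α → ℂ) (w : α → ℝ) (W : ℝ) (hs : ∀ q, Summable fun p => ‖e q p‖)
    (hw : ∀ q, ∑' p, ‖e q p‖ ≤ w q) (hW : ∀ q, w q ≤ W) : (α →ᵇ ℂ) →L[ℂ] (α →ᵇ ℂ) :=
  LinearMap.mkContinuous
    { toFun := fun ψ => BoundedContinuousFunction.ofNormedAddCommGroupDiscrete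
        (fun q => ∑' p, e q p * ψ p) (W * ‖ψ‖) (fun q => by
          have h1 : HasSum (fun p => ‖e q p‖ * ‖ψ‖) ((∑' p, ‖e q p‖) * ‖ψ‖) :=
            (hs q).hasSum.mul_right _
          refine (tsum_of_norm_bounded h1 fun p => ?_).trans ?_
          · rw [norm_mul]
            exact mul_le_mul_of_nonneg_left (ψ.norm_coe_le_norm p) (norm_nonneg _)
          · exact mul_le_mul_of_nonneg_right ((hw q).trans (hW q)) (norm_nonneg _))
      map_add' := fun ψ φ => by
        ext q
        have hb : ∀ χ : α →ᵇ ℂ, Summable fun p => e q p * χ p := fun χ =>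
          Summable.of_norm_bounded ((hs q).mul_right ‖χ‖) fun p => by
            rw [norm_mul]
            exact mul_le_mul_of_nonneg_left (χ.norm_coe_le_norm p) (norm_nonneg _)
        change ∑' p, e q p * (ψ p + φ p) = (∑' p, e q p * ψ p) + ∑' p, e q p * φ p
        rw [← (hb ψ).tsum_add (hb φ)]
        congr 1
        funext p
        ring
      map_smul' := fun c ψ => by
        ext q
        change ∑' p, e q p * (c * ψ p) = c * ∑' p, e q p * ψ p
        rw [← tsum_mul_left]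
        congr 1
        funext p
        ring }
    W (fun ψ => by
      refine (BoundedContinuousFunction.norm_le ?_).2 fun q => ?_
      · by_cases hα : Nonempty α
        · obtain ⟨q⟩ := hα
          have h2 : 0 ≤ ∑' p, ‖e q p‖ := tsum_nonneg fun _ => norm_nonneg _
          exact mul_nonneg (h2.trans ((hw q).trans (hW q))) (norm_nonneg _)
        · have : ψ = 0 := by
            ext q
            exact (hα ⟨q⟩).elim
          rw [this, norm_zero, mul_zero]
      · have h1 : HasSum (fun p => ‖e q p‖ * ‖ψ‖) ((∑' p, ‖e q p‖) * ‖ψ‖) :=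
          (hs q).hasSum.mul_right _
        refine (tsum_of_norm_bounded h1 fun p => ?_).trans ?_
        · rw [norm_mul]
          exact mul_le_mul_of_nonneg_left (ψ.norm_coe_le_norm p) (norm_nonneg _)
        · exact mul_le_mul_of_nonneg_right ((hw q).trans (hW q)) (norm_nonneg _))

lemma mop_apply (e : α → α → ℂ) (w : α → ℝ) (W : ℝ) (hs : ∀ q, Summable fun p => ‖e q p‖)
    (hw : ∀ q, ∑' p, ‖e q p‖ ≤ w q) (hW : ∀ q, w q ≤ W) (ψ : α →ᵇ ℂ) (q : α) :
    mop e w W hs hw hW ψ q = ∑' p, e q p * ψ p := rfl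

lemma mop_norm_le (e : α → α → ℂ) (w : α → ℝ) (W : ℝ) (hs : ∀ q, Summable fun p => ‖e q p‖)
    (hw : ∀ q, ∑' p, ‖e q p‖ ≤ w q) (hW : ∀ q, w q ≤ W) (hW0 : 0 ≤ W) :
    ‖mop e w W hs hw hW‖ ≤ W := LinearMap.mkContinuous_norm_le _ hW0 _

/-- The diagonal operator. -/
noncomputable def dop (d : α → ℂ) (C : ℝ) (h : ∀ q, ‖d q‖ ≤ C) : (α →ᵇ ℂ) →ₗ[ℂ] (α →ᵇ ℂ) where
  toFun ψ := BoundedContinuousFunction.ofNormedAddCommGroupDiscrete
    (fun q => d q * ψ q) (C * ‖ψ‖) (fun q => by
      rw [norm_mul]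
      exact mul_le_mul (h q) (ψ.norm_coe_le_norm q) (norm_nonneg _)
        ((norm_nonneg _).trans (h q)))
  map_add' ψ φ := by
    ext q
    change d q * (ψ q + φ q) = d q * ψ q + d q * φ q
    ring
  map_smul' c ψ := by
    ext q
    change d q * (c * ψ q) = c * (d q * ψ q)
    ring

lemma dop_apply (d : α → ℂ) (C : ℝ) (h : ∀ q, ‖d q‖ ≤ C) (ψ : α →ᵇ ℂ) (q : α) :
    dop d C h ψ q = d q * ψ q := rfl

lemma dop_bij (d : α → ℂ) (C : ℝ) (h : ∀ q, ‖d q‖ ≤ C) (h1 : ∀ q, 1 ≤ ‖d q‖) :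
    Function.Bijective (dop d C h) := by
  have h2 : ∀ q, ‖(d q)⁻¹‖ ≤ 1 := fun q => by
    rw [norm_inv]; exact inv_le_one_of_one_le₀ (h1 q)
  have h3 : ∀ q, d q ≠ 0 := fun q h4 => by
    have := h1 q
    rw [h4, norm_zero] at this
    linarith
  refine Function.bijective_iff_has_inverse.2 ⟨dop (fun q => (d q)⁻¹) 1 h2, fun ψ => ?_,
    fun ψ => ?_⟩
  · ext q
    rw [dop_apply, dop_apply, ← mul_assoc, inv_mul_cancel₀ (h3 q), one_mul]
  · ext q
    rw [dop_apply, dop_apply, ← mul_assoc, mul_inv_cancel₀ (h3 q), one_mul]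

/-- The operator `d + e` is a finite rank perturbation of a bijective one when the row sums
of `e` are small outside of finitely many rows. -/
lemma split_op (d : α → ℂ) (C : ℝ) (h : ∀ q, ‖d q‖ ≤ C) (h1 : ∀ q, 1 ≤ ‖d q‖)
    (e : α → α → ℂ) (w : α → ℝ) (W : ℝ) (hs : ∀ q, Summable fun p => ‖e q p‖)
    (hw : ∀ q, ∑' p, ‖e q p‖ ≤ w q) (hW : ∀ q, w q ≤ W) (S : Finset α)
    (hS : ∀ q, q ∉ S → w q ≤ 1 / 2) :
    ∃ U F : (α →ᵇ ℂ) →ₗ[ℂ] (α →ᵇ ℂ), Function.Bijective U ∧
      FiniteDimensional ℂ (LinearMap.range F) ∧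
      ∀ ψ q, (U + F) ψ q = d q * ψ q + ∑' p, e q p * ψ p := by
  classical
  have h3 : ∀ q, d q ≠ 0 := fun q h4 => by
    have := h1 q
    rw [h4, norm_zero] at this
    linarith
  -- the small part
  set e1 : α → α → ℂ := fun q p => if q ∈ S then 0 else (d q)⁻¹ * e q p with he1
  have hn1 : ∀ q p, ‖e1 q p‖ ≤ ‖e q p‖ := by
    intro q p
    rw [he1]
    simp only
    split_ifs with hq
    · rw [norm_zero]; exact norm_nonneg _
    · rw [norm_mul, norm_inv]
      have : ‖d q‖⁻¹ ≤ 1 := inv_le_one_of_one_le₀ (h1 q)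
      nlinarith [norm_nonneg (e q p)]
  have hs1 : ∀ q, Summable fun p => ‖e1 q p‖ := fun q =>
    Summable.of_nonneg_of_le (fun _ => norm_nonneg _) (hn1 q) (hs q)
  have hw1 : ∀ q, ∑' p, ‖e1 q p‖ ≤ (fun _ => (1 / 2 : ℝ)) q := by
    intro q
    by_cases hq : q ∈ S
    · have : ∀ p, ‖e1 q p‖ = 0 := fun p => by rw [he1]; simp [hq]
      simp only [this, tsum_zero]
      norm_num
    · exact ((hs1 q).tsum_le_tsum (hn1 q) (hs q)).trans ((hw q).trans (hS q hq))
  set E1 := mop e1 (fun _ => (1 / 2 : ℝ)) (1 / 2) hs1 hw1 (fun _ => le_rfl) with hE1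
  have hE1n : ‖E1‖ ≤ 1 / 2 := mop_norm_le _ _ _ _ _ _ (by norm_num)
  have hunit : IsUnit (1 + E1) := by
    have h5 : ‖-E1‖ < 1 := by rw [norm_neg]; linarith
    have h6 := isUnit_one_sub_of_norm_lt_one (x := -E1) h5
    rwa [sub_neg_eq_add] at h6
  obtain ⟨V, hV⟩ := hunit
  have hbij : Function.Bijective (1 + E1 : (α →ᵇ ℂ) →L[ℂ] (α →ᵇ ℂ)) := by
    refine Function.bijective_iff_has_inverse.2 ⟨(V⁻¹ : ((α →ᵇ ℂ) →L[ℂ] (α →ᵇ ℂ))ˣ), fun x => ?_,
      fun x => ?_⟩
    · rw [← hV]
      have h7 : ((V⁻¹ : ((α →ᵇ ℂ) →L[ℂ] (α →ᵇ ℂ))ˣ) : (α →ᵇ ℂ) →L[ℂ] (α →ᵇ ℂ)) *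
        (V : (α →ᵇ ℂ) →L[ℂ] (α →ᵇ ℂ)) = 1 := V.inv_mul
      exact congrArg (fun L : (α →ᵇ ℂ) →L[ℂ] (α →ᵇ ℂ) => L x) h7
    · rw [← hV]
      have h7 : (V : (α →ᵇ ℂ) →L[ℂ] (α →ᵇ ℂ)) *
        ((V⁻¹ : ((α →ᵇ ℂ) →L[ℂ] (α →ᵇ ℂ))ˣ) : (α →ᵇ ℂ) →L[ℂ] (α →ᵇ ℂ)) = 1 := V.mul_inv
      exact congrArg (fun L : (α →ᵇ ℂ) →L[ℂ] (α →ᵇ ℂ) => L x) h7
  -- the finite rank part
  set e2 : α → α → ℂ := fun q p => if q ∈ S then e q p else 0 with he2
  have hn2 : ∀ q p, ‖e2 q p‖ ≤ ‖e q p‖ := by
    intro q p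
    rw [he2]
    simp only
    split_ifs with hq
    · exact le_rfl
    · rw [norm_zero]; exact norm_nonneg _
  have hs2 : ∀ q, Summable fun p => ‖e2 q p‖ := fun q =>
    Summable.of_nonneg_of_le (fun _ => norm_nonneg _) (hn2 q) (hs q)
  have hw2 : ∀ q, ∑' p, ‖e2 q p‖ ≤ w q := fun q =>
    ((hs2 q).tsum_le_tsum (hn2 q) (hs q)).trans (hw q)
  set E2 := mop e2 w W hs2 hw2 hW with hE2
  refine ⟨(dop d C h).comp (1 + E1 : (α →ᵇ ℂ) →L[ℂ] (α →ᵇ ℂ)).toLinearMap, E2.toLinearMap,
    (dop_bij d C h h1).comp hbij, ?_, fun ψ q => ?_⟩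
  · -- finite rank
    let r : LinearMap.range E2.toLinearMap →ₗ[ℂ] (S → ℂ) :=
      { toFun := fun ψ s => (ψ : α →ᵇ ℂ) s
        map_add' := fun _ _ => rfl
        map_smul' := fun _ _ => rfl }
    apply FiniteDimensional.of_injective r
    rw [← LinearMap.ker_eq_bot, LinearMap.ker_eq_bot']
    rintro ⟨_, x, rfl⟩ hx
    apply Subtype.ext
    ext q
    change (E2 x) q = 0
    by_cases hq : q ∈ S
    · exact congrFun hx ⟨q, hq⟩
    · rw [hE2, mop_apply]
      have : ∀ p, e2 q p * x p = 0 := fun p => by rw [he2]; simp [hq]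
      simp only [this, tsum_zero]
  · change d q * (ψ q + (E1 ψ) q) + (E2 ψ) q = _
    rw [hE1, hE2, mop_apply, mop_apply, mul_add, ← tsum_mul_left, add_assoc]
    congr 1
    have h8 : ∀ p, d q * (e1 q p * ψ p) = (if q ∈ S then 0 else e q p * ψ p) := by
      intro p
      rw [he1]
      simp only
      split_ifs with hq
      · simp
      · rw [← mul_assoc, ← mul_assoc, mul_inv_cancel₀ (h3 q), one_mul]
    have h9 : ∀ p, e2 q p * ψ p = (if q ∈ S then e q p * ψ p else 0) := by
      intro p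
      rw [he2]
      simp only
      split_ifs with hq
      · rfl
      · simp
    simp only [h8, h9]
    split_ifs with hq
    · simp
    · simp

end Matrix

end Pool.Agent.H77.FB
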