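import Pool.Agent.H77.FB.Est
import Pool.Agent.H77.FB.Fred
import Pool.Agent.H77.FB.Bridge

/-!
Ends of a plane curve that are asymptotic to lines of distinct directions, and the kernels
that they define.
-/

open MeasureTheory Filter

namespace Pool.Agent.H77.FB

/-- The vector orthogonal to `a`. -/
noncomputable def pp (a : Fin 2 → ℂ) : Fin 2 → ℂ :=
  ![-((starRingEnd ℂ) (a 1)), (starRingEnd ℂ) (a 0)]

/-- Ends of a plane curve. -/
structure EndData (m : ℕ) where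
  R₀ : ℝ
  R : ℝ
  A : ℝ
  κ : ℝ
  a : Fin m → Fin 2 → ℂ
  η : Fin m → ℂ → ℂ
  hR₀ : 0 < R₀
  hR : R₀ < R
  unit : ∀ i, a i 0 * (starRingEnd ℂ) (a i 0) + a i 1 * (starRingEnd ℂ) (a i 1) = 1
  κ0 : 0 ≤ κ
  κ1 : κ < 1
  ang : ∀ i j, i ≠ j → ‖a i 0 * (starRingEnd ℂ) (a j 0) + a i 1 * (starRingEnd ℂ) (a j 1)‖ ≤ κ
  A0 : 0 ≤ A
  dη : ∀ i ε, ‖ε‖ < R₀⁻¹ → DifferentiableAt ℂ (η i) ε
  bη : ∀ i ε, ‖ε‖ < R₀⁻¹ → ‖η i ε‖ ≤ A

namespace EndData

variable {m : ℕ} (D : EndData m)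

/-- The parametrization of the end `i`. -/
noncomputable def ζ (i : Fin m) (x : ℂ) : Fin 2 → ℂ :=
  fun k => x * D.a i k + D.η i x⁻¹ * pp (D.a i) k

/-- The parametrization of the conjugate end. -/
noncomputable def z (j : Fin m) (y : ℂ) : Fin 2 → ℂ := cj (D.ζ j ((starRingEnd ℂ) y))

/-- The conjugated function. -/
noncomputable def ηc (j : Fin m) (ε : ℂ) : ℂ := (starRingEnd ℂ) (D.η j ((starRingEnd ℂ) ε))

lemma z_apply (j : Fin m) (y : ℂ) (k : Fin 2) :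
    D.z j y k = y * (starRingEnd ℂ) (D.a j k) + D.ηc j y⁻¹ * (starRingEnd ℂ) (pp (D.a j) k) := by
  simp [z, cj, ζ, ηc]

lemma R₀_le : 0 ≤ D.R₀ := D.hR₀.le

lemma Rpos : 0 < D.R := D.hR₀.trans D.hR

lemma inv_lt {x : ℂ} (hx : D.R₀ < ‖x‖) : ‖x⁻¹‖ < D.R₀⁻¹ := by
  rw [norm_inv]
  exact inv_strictAnti₀ D.hR₀ hx

lemma dηc (j : Fin m) {ε : ℂ} (h : ‖ε‖ < D.R₀⁻¹) : DifferentiableAt ℂ (D.ηc j) ε := by
  have h1 := (D.dη j ((starRingEnd ℂ) ε) (by rwa [RCLike.norm_conj])).star_star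
  have h2 : star ((starRingEnd ℂ) ε) = ε := by simp
  rw [h2] at h1
  exact h1

lemma bηc (j : Fin m) {ε : ℂ} (h : ‖ε‖ < D.R₀⁻¹) : ‖D.ηc j ε‖ ≤ D.A := by
  unfold ηc
  rw [RCLike.norm_conj]
  exact D.bη j _ (by rwa [RCLike.norm_conj])

lemma ne_zero {x : ℂ} (hx : D.R₀ < ‖x‖) : x ≠ 0 := by
  rw [← norm_pos_iff]; exact D.hR₀.trans hx

lemma dζ (i : Fin m) {x : ℂ} (hx : D.R₀ < ‖x‖) (k : Fin 2) :
    DifferentiableAt ℂ (fun x => D.ζ i x k) x := by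
  unfold ζ
  refine (differentiableAt_id.mul_const _).add (DifferentiableAt.mul_const ?_ _)
  exact (D.dη i _ (D.inv_lt hx)).comp x (differentiableAt_inv (D.ne_zero hx))

lemma dζ' (i : Fin m) {x : ℂ} (hx : D.R₀ < ‖x‖) : DifferentiableAt ℂ (D.ζ i) x :=
  differentiableAt_pi.2 fun k => D.dζ i hx k

lemma dz (j : Fin m) {y : ℂ} (hy : D.R₀ < ‖y‖) (k : Fin 2) :
    DifferentiableAt ℂ (fun y => D.z j y k) y := by
  simp only [z_apply]
  refine (differentiableAt_id.mul_const _).add (DifferentiableAt.mul_const ?_ _)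
  exact (D.dηc j (D.inv_lt hy)).comp y (differentiableAt_inv (D.ne_zero hy))

lemma dz' (j : Fin m) {y : ℂ} (hy : D.R₀ < ‖y‖) : DifferentiableAt ℂ (D.z j) y :=
  differentiableAt_pi.2 fun k => D.dz j hy k

/-- The exponent of the kernel. -/
noncomputable def ex (j i : Fin m) (y x : ℂ) : ℂ := ∑ k, D.ζ i x k * D.z j y k

/-- The kernel. -/
noncomputable def K (j i : Fin m) (y x : ℂ) : ℂ := Complex.exp (D.ex j i y x)

lemma K_hol (j i : Fin m) : Hol2 D.R₀ (D.K j i) := by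
  apply Hol2.exp
  have h1 : D.ex j i = fun y x => (D.ζ i x 0 * D.z j y 0) + (D.ζ i x 1 * D.z j y 1) := by
    funext y x
    simp [ex, Fin.sum_univ_two]
  rw [h1]
  apply Hol2.add
  · exact (hol2_right fun x hx => D.dζ i hx 0).mul (hol2_left fun y hy => D.dz j hy 0)
  · exact (hol2_right fun x hx => D.dζ i hx 1).mul (hol2_left fun y hy => D.dz j hy 1)

lemma ex_eq (j i : Fin m) (y x : ℂ) :
    D.ex j i y x = x * y * (D.a i 0 * (starRingEnd ℂ) (D.a j 0) +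
        D.a i 1 * (starRingEnd ℂ) (D.a j 1))
      + x * D.ηc j y⁻¹ * (D.a i 1 * D.a j 0 - D.a i 0 * D.a j 1)
      + y * D.η i x⁻¹ * (starRingEnd ℂ) (D.a j 1 * D.a i 0 - D.a j 0 * D.a i 1)
      + D.η i x⁻¹ * D.ηc j y⁻¹ * ((starRingEnd ℂ) (D.a i 0) * D.a j 0 +
        (starRingEnd ℂ) (D.a i 1) * D.a j 1) := by
  simp only [ex, Fin.sum_univ_two, z_apply, ζ, pp, Matrix.cons_val_zero, Matrix.cons_val_one,
    map_neg, Complex.conj_conj, map_sub, map_mul]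
  ring

lemma norm_a_le (i : Fin m) : ‖D.a i 0‖ ^ 2 + ‖D.a i 1‖ ^ 2 = 1 := by
  have h := D.unit i
  rw [Complex.mul_conj', Complex.mul_conj'] at h
  exact_mod_cast h

lemma norm_pair_le {a b c d : ℝ} (h1 : a ^ 2 + b ^ 2 = 1) (h2 : c ^ 2 + d ^ 2 = 1) :
    a * c + b * d ≤ 1 := by
  nlinarith [sq_nonneg (a - c), sq_nonneg (b - d)]

lemma K_off {j i : Fin m} (h : i ≠ j) {y x : ℂ} (hy : D.R₀ < ‖y‖) (hx : D.R₀ < ‖x‖) :
    ‖D.K j i y x‖ ≤ Real.exp (D.κ * ‖y‖ * ‖x‖ + (D.A + D.A ^ 2) * (‖y‖ + ‖x‖) +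
      (D.A + D.A ^ 2)) := by
  unfold K
  rw [Complex.norm_exp]
  apply Real.exp_le_exp.2
  refine (Complex.re_le_norm _).trans ?_
  rw [ex_eq]
  have hi := D.norm_a_le i
  have hj := D.norm_a_le j
  have hA := D.A0
  have h1 := D.ang i j h
  have h2 : ‖D.a i 1 * D.a j 0 - D.a i 0 * D.a j 1‖ ≤ 1 := by
    refine (norm_sub_le _ _).trans ?_
    rw [norm_mul, norm_mul]
    have := norm_pair_le (a := ‖D.a i 1‖) (b := ‖D.a i 0‖) (c := ‖D.a j 0‖) (d := ‖D.a j 1‖)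
      (by linarith) hj
    exact this
  have h3 : ‖(starRingEnd ℂ) (D.a j 1 * D.a i 0 - D.a j 0 * D.a i 1)‖ ≤ 1 := by
    rw [RCLike.norm_conj]
    refine (norm_sub_le _ _).trans ?_
    rw [norm_mul, norm_mul]
    have := norm_pair_le (a := ‖D.a j 1‖) (b := ‖D.a j 0‖) (c := ‖D.a i 0‖) (d := ‖D.a i 1‖)
      (by linarith) hi
    exact this
  have h4 : ‖(starRingEnd ℂ) (D.a i 0) * D.a j 0 + (starRingEnd ℂ) (D.a i 1) * D.a j 1‖ ≤ 1 := by
    refine (norm_add_le _ _).trans ?_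
    rw [norm_mul, norm_mul, RCLike.norm_conj, RCLike.norm_conj]
    exact norm_pair_le hi hj
  have h5 := D.bη i _ (D.inv_lt hx)
  have h6 := D.bηc j (D.inv_lt hy)
  have e1 : ‖x * y * (D.a i 0 * (starRingEnd ℂ) (D.a j 0) +
        D.a i 1 * (starRingEnd ℂ) (D.a j 1))‖ ≤ D.κ * ‖y‖ * ‖x‖ := by
    rw [norm_mul, norm_mul]
    calc ‖x‖ * ‖y‖ * _ ≤ ‖x‖ * ‖y‖ * D.κ := by gcongr
      _ = _ := by ring
  have e2 : ‖x * D.ηc j y⁻¹ * (D.a i 1 * D.a j 0 - D.a i 0 * D.a j 1)‖ ≤ D.A * ‖x‖ := by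
    rw [norm_mul, norm_mul]
    calc ‖x‖ * ‖D.ηc j y⁻¹‖ * _ ≤ ‖x‖ * D.A * 1 := by gcongr
      _ = _ := by ring
  have e3 : ‖y * D.η i x⁻¹ * (starRingEnd ℂ) (D.a j 1 * D.a i 0 - D.a j 0 * D.a i 1)‖
      ≤ D.A * ‖y‖ := by
    rw [norm_mul, norm_mul]
    calc ‖y‖ * ‖D.η i x⁻¹‖ * _ ≤ ‖y‖ * D.A * 1 := by gcongr
      _ = _ := by ring
  have e4 : ‖D.η i x⁻¹ * D.ηc j y⁻¹ * ((starRingEnd ℂ) (D.a i 0) * D.a j 0 +
        (starRingEnd ℂ) (D.a i 1) * D.a j 1)‖ ≤ D.A ^ 2 := by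
    rw [norm_mul, norm_mul]
    calc ‖D.η i x⁻¹‖ * ‖D.ηc j y⁻¹‖ * _ ≤ D.A * D.A * 1 := by gcongr
      _ = _ := by ring
  have hx0 := norm_nonneg x
  have hy0 := norm_nonneg y
  calc _ ≤ D.κ * ‖y‖ * ‖x‖ + D.A * ‖x‖ + D.A * ‖y‖ + D.A ^ 2 := by
        refine (norm_add_le _ _).trans (add_le_add ((norm_add₃_le).trans ?_) e4)
        exact add_le_add (add_le_add e1 e2) e3
    _ ≤ _ := by
        have : 0 ≤ D.A ^ 2 * (‖y‖ + ‖x‖) := by positivity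
        nlinarith

/-- The factor of the diagonal kernels. -/
noncomputable def G (i : Fin m) (ε δ : ℂ) : ℂ := Complex.exp (D.η i δ * D.ηc i ε)

lemma K_same (i : Fin m) (y x : ℂ) :
    D.K i i y x = Complex.exp (x * y) * D.G i y⁻¹ x⁻¹ := by
  unfold K G
  rw [← Complex.exp_add, ex_eq]
  congr 1
  have h := D.unit i
  have h' : (starRingEnd ℂ) (D.a i 0) * D.a i 0 + (starRingEnd ℂ) (D.a i 1) * D.a i 1 = 1 := by
    rw [← h]; ring
  rw [h, h']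
  ring_nf
  simp

lemma Rinv_lt : D.R⁻¹ < D.R₀⁻¹ := inv_strictAnti₀ D.hR₀ D.hR

lemma GH_G (i : Fin m) : GH D.R₀ D.R (Real.exp (D.A ^ 2)) (D.G i) where
  h0 := D.R₀_le
  hR := D.hR
  hol := by
    apply Hol2.exp
    apply Hol2.mul
    · exact hol2_right fun x hx => (D.dη i _ (D.inv_lt hx)).comp x
        (differentiableAt_inv (D.ne_zero hx))
    · exact hol2_left fun y hy => (D.dηc i (D.inv_lt hy)).comp y
        (differentiableAt_inv (D.ne_zero hy))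
  d1 := by
    intro δ hδ
    apply DifferentiableOn.diffContOnCl
    intro ε hε
    have h1 : ‖ε‖ ≤ D.R⁻¹ := by
      have := Metric.closure_ball_subset_closedBall hε
      simpa using this
    exact (((D.dηc i (h1.trans_lt D.Rinv_lt)).const_mul _).cexp).differentiableWithinAt
  d2 := by
    intro ε hε
    apply DifferentiableOn.diffContOnCl
    intro δ hδ
    have h1 : ‖δ‖ ≤ D.R⁻¹ := by
      have := Metric.closure_ball_subset_closedBall hδ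
      simpa using this
    exact (((D.dη i _ (h1.trans_lt D.Rinv_lt)).mul_const _).cexp).differentiableWithinAt
  bd := by
    intro ε δ hε hδ
    unfold G
    rw [Complex.norm_exp]
    apply Real.exp_le_exp.2
    refine (Complex.re_le_norm _).trans ?_
    rw [norm_mul, sq]
    exact mul_le_mul (D.bη i _ (hδ.trans_lt D.Rinv_lt)) (D.bηc i (hε.trans_lt D.Rinv_lt))
      (norm_nonneg _) D.A0

/-- The diagonal entries. -/
noncomputable def d (i : Fin m) : ℂ := D.G i 0 0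

lemma one_le_d (i : Fin m) : 1 ≤ ‖D.d i‖ := by
  unfold d G ηc
  rw [map_zero, Complex.norm_exp, Complex.mul_conj]
  rw [Complex.ofReal_re]
  exact Real.one_le_exp (Complex.normSq_nonneg _)

end EndData

end Pool.Agent.H77.FB
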