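import Pool.Agent.H77.FB.Kern

/-!
Estimates for the matrices of the kernels.
-/

open MeasureTheory Filter

namespace Pool.Agent.H77.FB

lemma norm_zpow_neg {x : ℂ} {r : ℝ} (hx : ‖x‖ = r) (k : ℕ) : ‖x ^ (-(k : ℤ))‖ = (r ^ k)⁻¹ := by
  rw [norm_zpow, hx, zpow_neg, zpow_natCast]

/-- The estimate of the blocks of different directions. -/
lemma off_est {R₀ κ A R : ℝ} (h0 : 0 ≤ R₀) (hR : R₀ < R) (hκ0 : 0 ≤ κ) (hκ : κ < 1)
    {K : ℂ → ℂ → ℂ} (hK : Hol2 R₀ K)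
    (hb : ∀ y x, R₀ < ‖y‖ → R₀ < ‖x‖ →
      ‖K y x‖ ≤ Real.exp (κ * ‖y‖ * ‖x‖ + A * (‖y‖ + ‖x‖) + A)) :
    ∃ q, 0 < q ∧ q < 1 ∧ ∃ B₀ : ℝ, 0 < B₀ ∧ ∀ B, B₀ ≤ B → ∃ ε : ℕ → ℝ,
      Tendsto ε atTop (nhds 0) ∧ (∀ N, 0 ≤ ε N) ∧
      ∀ N k : ℕ, (N.factorial : ℝ) * ‖co K R N k‖ * B ^ k ≤ ε N * q ^ k * B ^ N := by
  set q : ℝ := (1 + κ) / 2 with hq
  have hq0 : 0 < q := by rw [hq]; linarith
  have hq1 : q < 1 := by rw [hq]; linarith
  set κ' : ℝ := κ / q with hκ'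
  have hκ'0 : 0 ≤ κ' := div_nonneg hκ0 hq0.le
  have hκ'1 : κ' < 1 := by
    rw [hκ', div_lt_one hq0, hq]; linarith
  set κ'' : ℝ := (1 + κ') / 2 with hκ''
  have hk0 : 0 < κ'' := by rw [hκ'']; linarith
  have hk1 : κ'' < 1 := by rw [hκ'']; linarith
  have hkk : 0 < κ'' - κ' := by rw [hκ'']; linarith
  refine ⟨q, hq0, hq1, max (R₀ + 1) (A / (κ'' - κ')), by positivity, fun B hB => ?_⟩
  have hB1 : R₀ + 1 ≤ B := (le_max_left _ _).trans hB
  have hB2 : A / (κ'' - κ') ≤ B := (le_max_right _ _).trans hB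
  have hB0 : 0 < B := by linarith
  have hB3 : κ' * B + A ≤ κ'' * B := by
    rw [div_le_iff₀ hkk] at hB2
    linarith
  set r : ℝ := B / q with hr
  have hrB : B ≤ r := by
    rw [hr, le_div_iff₀ hq0]; nlinarith
  have hr0 : R₀ < r := by linarith
  have hrpos : 0 < r := by linarith
  set CB : ℝ := Real.exp (A * r + A) with hCB
  have hR0 : 0 < R := by linarith
  set ρ : ℕ → ℝ := fun N => max R (N / (κ'' * B)) with hρ
  have hρR : ∀ N, R₀ < ρ N := fun N => hR.trans_le (le_max_left _ _)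
  have hρ0 : ∀ N, 0 < ρ N := fun N => h0.trans_lt (hρR N)
  set ε : ℕ → ℝ := fun N => CB * ((N.factorial : ℝ) * ((ρ N) ^ N)⁻¹ *
    Real.exp (κ'' * B * ρ N)) * (B ^ N)⁻¹ with hε
  refine ⟨ε, ?_, fun N => ?_, fun N k => ?_⟩
  · -- the limit
    have h1 : Tendsto (fun N : ℕ => CB * Real.exp 1 * (N * κ'' ^ N)) atTop
        (nhds (CB * Real.exp 1 * 0)) :=
      (tendsto_self_mul_const_pow_of_lt_one hk0.le hk1).const_mul _
    rw [mul_zero] at h1
    refine squeeze_zero' (Eventually.of_forall fun N => ?_) ?_ h1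
    · rw [hε]; simp only
      have := hρ0 N
      positivity
    · have h2 : ∀ᶠ N : ℕ in atTop, R * (κ'' * B) ≤ N := by
        have := tendsto_natCast_atTop_atTop (R := ℝ)
        exact this.eventually_ge_atTop _
      filter_upwards [h2, eventually_ge_atTop 1] with N hN hN1
      have hN0 : (0 : ℝ) < N := by exact_mod_cast hN1
      have hkB : 0 < κ'' * B := by positivity
      have h3 : ρ N = N / (κ'' * B) := by
        rw [hρ]
        exact max_eq_right ((le_div_iff₀ hkB).2 hN)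
      have h4 : κ'' * B * ρ N = N := by rw [h3]; field_simp
      have h5 := fact_le N hN1
      have h6 : ε N = CB * (N.factorial * Real.exp N / (N : ℝ) ^ N) * κ'' ^ N := by
        rw [hε]
        simp only
        rw [h4, h3, div_pow, mul_pow]
        field_simp
      rw [h6]
      have h7 : (N.factorial : ℝ) * Real.exp N / (N : ℝ) ^ N ≤ Real.exp 1 * N := by
        rw [div_le_iff₀ (by positivity)]
        exact h5
      calc CB * (N.factorial * Real.exp N / (N : ℝ) ^ N) * κ'' ^ N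
          ≤ CB * (Real.exp 1 * N) * κ'' ^ N := by gcongr
        _ = _ := by ring
  · rw [hε]; simp only
    have := hρ0 N
    positivity
  · rw [co_eq hK h0 hR (hρR N) hr0]
    have h1 : ‖da (fun y x => K y x * (x ^ (-(k : ℤ)) * y ^ (-(N : ℤ)))) (ρ N) r‖
        ≤ CB * Real.exp (κ'' * B * ρ N) * ((r ^ k)⁻¹ * ((ρ N) ^ N)⁻¹) := by
      apply da_norm_le (hρ0 N).le hrpos.le
      intro y x hy hx
      rw [norm_mul, norm_mul, norm_zpow_neg hy, norm_zpow_neg hx]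
      apply mul_le_mul_of_nonneg_right _ (by have := hρ0 N; positivity)
      refine (hb y x (by rw [hy]; exact hρR N) (by rw [hx]; exact hr0)).trans ?_
      rw [hCB, ← Real.exp_add]
      apply Real.exp_le_exp.2
      rw [hy, hx]
      have h2 : κ * r = κ' * B := by rw [hr, hκ']; ring
      have h3 := hρ0 N
      have h4 : κ * ρ N * r = κ' * B * ρ N := by
        calc κ * ρ N * r = (κ * r) * ρ N := by ring
          _ = _ := by rw [h2]
      rw [h4]
      nlinarith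
    have h2 : B ^ k * (r ^ k)⁻¹ = q ^ k := by
      rw [hr, div_pow, inv_div]
      field_simp
    calc (N.factorial : ℝ) * ‖da (fun y x => K y x * (x ^ (-(k : ℤ)) * y ^ (-(N : ℤ)))) (ρ N) r‖
          * B ^ k
        ≤ (N.factorial : ℝ) * (CB * Real.exp (κ'' * B * ρ N) * ((r ^ k)⁻¹ * ((ρ N) ^ N)⁻¹))
          * B ^ k := by gcongr
      _ = CB * ((N.factorial : ℝ) * ((ρ N) ^ N)⁻¹ * Real.exp (κ'' * B * ρ N)) *
          (B ^ k * (r ^ k)⁻¹) := by ring
      _ = ε N * q ^ k * B ^ N := by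
          rw [h2, hε]
          simp only
          field_simp

section Same

variable {R₀ R Kb : ℝ} {G : ℂ → ℂ → ℂ}

/-- The coefficients of the factor `G (1/y) (1/x)`. -/
noncomputable def hh (G : ℂ → ℂ → ℂ) (R : ℝ) (a b : ℤ) : ℂ :=
  da (fun y x => G y⁻¹ x⁻¹ * (x ^ b * y ^ a)) R R

/-- The hypotheses on `G`. -/
structure GH (R₀ R Kb : ℝ) (G : ℂ → ℂ → ℂ) : Prop where
  h0 : 0 ≤ R₀
  hR : R₀ < R
  hol : Hol2 R₀ (fun y x => G y⁻¹ x⁻¹)
  d1 : ∀ δ, ‖δ‖ ≤ R⁻¹ → DiffContOnCl ℂ (fun ε => G ε δ) (Metric.ball 0 R⁻¹)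
  d2 : ∀ ε, ‖ε‖ ≤ R⁻¹ → DiffContOnCl ℂ (fun δ => G ε δ) (Metric.ball 0 R⁻¹)
  bd : ∀ ε δ, ‖ε‖ ≤ R⁻¹ → ‖δ‖ ≤ R⁻¹ → ‖G ε δ‖ ≤ Kb

lemma GH.pos (h : GH R₀ R Kb G) : 0 < R := h.h0.trans_lt h.hR

lemma GH.Kb0 (h : GH R₀ R Kb G) : 0 ≤ Kb := by
  have h1 := h.bd 0 0 (by simp [h.pos.le]) (by simp [h.pos.le])
  exact (norm_nonneg _).trans h1

lemma norm_inv_le {x : ℂ} {R : ℝ} (hx : ‖x‖ = R) : ‖x⁻¹‖ ≤ R⁻¹ := by rw [norm_inv, hx]

lemma hh_bound (h : GH R₀ R Kb G) (a b : ℤ) : ‖hh G R a b‖ ≤ Kb * (R ^ b * R ^ a) := by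
  apply da_norm_le h.pos.le h.pos.le
  intro y x hy hx
  rw [norm_mul, norm_mul, norm_zpow, norm_zpow, hx, hy]
  have := h.pos
  exact mul_le_mul_of_nonneg_right (h.bd _ _ (norm_inv_le hy) (norm_inv_le hx)) (by positivity)

lemma hh_negb (h : GH R₀ R Kb G) (a : ℤ) {b : ℤ} (hb : b < 0) : hh G R a b = 0 := by
  obtain ⟨k, rfl⟩ : ∃ k : ℕ, b = -((k : ℤ) + 1) := ⟨(-b - 1).toNat, by omega⟩
  unfold hh da
  have h1 : ∀ y : ℂ, ‖y‖ = R → av (fun x => G y⁻¹ x⁻¹ * (x ^ (-((k : ℤ) + 1)) * y ^ a)) R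
      = (fun _ => (0 : ℂ)) y := by
    intro y hy
    have h2 : (fun x : ℂ => G y⁻¹ x⁻¹ * (x ^ (-((k : ℤ) + 1)) * y ^ a))
        = fun x => y ^ a * (G y⁻¹ x⁻¹ * (x⁻¹) ^ (k + 1)) := by
      funext x
      have h3 : x ^ (-((k : ℤ) + 1)) = (x⁻¹) ^ (k + 1) := by
        rw [zpow_neg, inv_pow, ← zpow_natCast]; push_cast; rfl
      rw [h3]; ring
    rw [h2, av_mul_left, av_inner h.pos (k + 1) (h.d2 _ (norm_inv_le hy))]
    simp
  rw [av_congr h.pos.le h1]
  exact av_const 0 R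

lemma hh_swap (h : GH R₀ R Kb G) (a b : ℤ) :
    hh G R a b = da (fun y x => G x⁻¹ y⁻¹ * (x ^ a * y ^ b)) R R := by
  unfold hh da
  rw [av_swap h.pos.le h.pos.le ((h.hol.mul (hol2_fac h.h0 a b)).contS h.hR h.hR)]
  congr 1
  funext x
  congr 1
  funext y
  ring

lemma hh_nega (h : GH R₀ R Kb G) {a : ℤ} (b : ℤ) (ha : a < 0) : hh G R a b = 0 := by
  rw [hh_swap h]
  obtain ⟨k, rfl⟩ : ∃ k : ℕ, a = -((k : ℤ) + 1) := ⟨(-a - 1).toNat, by omega⟩
  unfold da
  have h1 : ∀ y : ℂ, ‖y‖ = R → av (fun x => G x⁻¹ y⁻¹ * (x ^ (-((k : ℤ) + 1)) * y ^ b)) R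
      = (fun _ => (0 : ℂ)) y := by
    intro y hy
    have h2 : (fun x : ℂ => G x⁻¹ y⁻¹ * (x ^ (-((k : ℤ) + 1)) * y ^ b))
        = fun x => y ^ b * (G x⁻¹ y⁻¹ * (x⁻¹) ^ (k + 1)) := by
      funext x
      have h3 : x ^ (-((k : ℤ) + 1)) = (x⁻¹) ^ (k + 1) := by
        rw [zpow_neg, inv_pow, ← zpow_natCast]; push_cast; rfl
      rw [h3]; ring
    rw [h2, av_mul_left, av_inner (g := fun ε => G ε y⁻¹) h.pos (k + 1)
      (h.d1 _ (norm_inv_le hy))]
    simp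
  rw [av_congr h.pos.le h1]
  exact av_const 0 R

lemma hh_zero (h : GH R₀ R Kb G) : hh G R 0 0 = G 0 0 := by
  unfold hh da
  have h1 : ∀ y : ℂ, ‖y‖ = R → av (fun x => G y⁻¹ x⁻¹ * (x ^ (0 : ℤ) * y ^ (0 : ℤ))) R
      = G y⁻¹ 0 := by
    intro y hy
    have h2 : (fun x : ℂ => G y⁻¹ x⁻¹ * (x ^ (0 : ℤ) * y ^ (0 : ℤ)))
        = fun x => G y⁻¹ x⁻¹ * (x⁻¹) ^ 0 := by
      funext x; simp
    rw [h2, av_inner h.pos 0 (h.d2 _ (norm_inv_le hy))]
    simp
  rw [av_congr h.pos.le h1]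
  have h3 := av_inner (g := fun ε => G ε 0) h.pos 0 (h.d1 0 (by simp [h.pos.le]))
  simpa using h3

/-- The expansion of the matrix of `exp (xy) G (1/y) (1/x)`. -/
lemma co_hasSum (h : GH R₀ R Kb G) (N k : ℕ) :
    HasSum (fun n : ℕ => ((n.factorial : ℂ))⁻¹ * hh G R ((n : ℤ) - N) ((n : ℤ) - k))
      (co (fun y x => Complex.exp (x * y) * G y⁻¹ x⁻¹) R N k) := by
  have hR := h.pos
  have h1 := da_tsum (ι := ℕ) (ρ := R) (r := R)
    (K := fun n y x => ((n.factorial : ℂ))⁻¹ * (G y⁻¹ x⁻¹ * (x ^ ((n : ℤ) - k) * y ^ ((n : ℤ) - N))))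
    (u := fun n => Kb * ((R ^ k)⁻¹ * (R ^ N)⁻¹) * ((R * R) ^ n / n.factorial)) hR.le hR.le
    ((Real.summable_pow_div_factorial (R * R)).mul_left _) ?_ ?_
  · have h2 : ∀ n : ℕ, da (fun y x => ((n.factorial : ℂ))⁻¹ *
        (G y⁻¹ x⁻¹ * (x ^ ((n : ℤ) - k) * y ^ ((n : ℤ) - N)))) R R
        = ((n.factorial : ℂ))⁻¹ * hh G R ((n : ℤ) - N) ((n : ℤ) - k) := by
      intro n
      unfold hh da
      simp only [av_mul_left]
    simp only [h2] at h1
    have h3 : da (fun y x => ∑' n : ℕ, ((n.factorial : ℂ))⁻¹ *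
        (G y⁻¹ x⁻¹ * (x ^ ((n : ℤ) - k) * y ^ ((n : ℤ) - N)))) R R
        = co (fun y x => Complex.exp (x * y) * G y⁻¹ x⁻¹) R N k := by
      unfold co
      apply da_congr hR.le hR.le
      intro y x hy hx
      have hx0 : x ≠ 0 := by rw [← norm_pos_iff, hx]; exact hR
      have hy0 : y ≠ 0 := by rw [← norm_pos_iff, hy]; exact hR
      have h4 : HasSum (fun n : ℕ => (x * y) ^ n / (n.factorial : ℂ)) (Complex.exp (x * y)) := by
        rw [Complex.exp_eq_exp_ℂ]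
        exact NormedSpace.expSeries_div_hasSum_exp (x * y)
      have h5 := (h4.mul_right (G y⁻¹ x⁻¹ * (x ^ (-(k : ℤ)) * y ^ (-(N : ℤ)))))
      rw [mul_assoc, ← h5.tsum_eq]
      congr 1
      funext n
      rw [sub_eq_add_neg, sub_eq_add_neg, zpow_add₀ hx0, zpow_add₀ hy0, zpow_natCast,
        zpow_natCast, mul_pow]
      field_simp
    rw [h3] at h1
    exact h1
  · intro n
    have h6 : Hol2 R₀ (fun y x => G y⁻¹ x⁻¹ * (x ^ ((n : ℤ) - k) * y ^ ((n : ℤ) - N))) :=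
      h.hol.mul (hol2_fac h.h0 _ _)
    exact (continuousOn_const.mul (h6.contS h.hR h.hR))
  · intro n y x hy hx
    rw [norm_mul, norm_mul, norm_mul, norm_inv, Complex.norm_natCast, norm_zpow, norm_zpow, hx, hy]
    have h7 : R ^ ((n : ℤ) - k) * R ^ ((n : ℤ) - N) = (R ^ k)⁻¹ * (R ^ N)⁻¹ * (R * R) ^ n := by
      rw [sub_eq_add_neg, sub_eq_add_neg, zpow_add₀ hR.ne', zpow_add₀ hR.ne', zpow_natCast,
        zpow_neg, zpow_neg, zpow_natCast, zpow_natCast, mul_pow]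
      ring
    rw [h7]
    have h8 := h.bd _ _ (norm_inv_le hy) (norm_inv_le hx)
    calc ((n.factorial : ℝ))⁻¹ * (‖G y⁻¹ x⁻¹‖ * ((R ^ k)⁻¹ * (R ^ N)⁻¹ * (R * R) ^ n))
        ≤ ((n.factorial : ℝ))⁻¹ * (Kb * ((R ^ k)⁻¹ * (R ^ N)⁻¹ * (R * R) ^ n)) := by gcongr
      _ = _ := by ring

lemma fact_mul_le (N M : ℕ) (hM : 1 ≤ M) :
    (N.factorial : ℝ) * ((N + 1) * M.factorial) ≤ (N + M).factorial := by
  induction M, hM using Nat.le_induction with
  | base => simp [Nat.factorial_succ]; linarith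
  | succ m hm ih =>
    rw [← Nat.add_assoc, Nat.factorial_succ, Nat.factorial_succ]
    push_cast
    have h1 : (0 : ℝ) ≤ (N + m).factorial := by positivity
    calc (N.factorial : ℝ) * ((N + 1) * ((m + 1) * m.factorial))
        = (m + 1) * (N.factorial * ((N + 1) * m.factorial)) := by ring
      _ ≤ (m + 1) * (N + m).factorial := by gcongr
      _ ≤ (N + m + 1) * (N + m).factorial := by
          have : (0 : ℝ) ≤ N := by positivity
          nlinarith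

lemma expo_sum (c : ℝ) : HasSum (fun n : ℕ => c ^ n / n.factorial) (Real.exp c) := by
  rw [Real.exp_eq_exp_ℝ]
  exact NormedSpace.expSeries_div_hasSum_exp c

/-- Entries below the diagonal. -/
lemma same_lt (h : GH R₀ R Kb G) {N k : ℕ} (hk : k ≤ N) :
    (N.factorial : ℝ) * ‖co (fun y x => Complex.exp (x * y) * G y⁻¹ x⁻¹) R N k‖
      ≤ Kb * Real.exp (R * R) * R ^ (N - k) := by
  have hR := h.pos
  have h1 := co_hasSum h N k
  have h2 : HasSum (fun l : ℕ => (((l + N).factorial : ℂ))⁻¹ *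
      hh G R (((l + N : ℕ) : ℤ) - N) (((l + N : ℕ) : ℤ) - k))
      (co (fun y x => Complex.exp (x * y) * G y⁻¹ x⁻¹) R N k) := by
    have := (hasSum_nat_add_iff' N).2 h1
    rwa [Finset.sum_eq_zero, sub_zero] at this
    intro n hn
    rw [Finset.mem_range] at hn
    rw [hh_nega h _ (by omega), mul_zero]
  have h3 : ∀ l : ℕ, ‖(((l + N).factorial : ℂ))⁻¹ *
      hh G R (((l + N : ℕ) : ℤ) - N) (((l + N : ℕ) : ℤ) - k)‖
      ≤ ((N.factorial : ℝ))⁻¹ * (Kb * R ^ (N - k)) * ((R * R) ^ l / l.factorial) := by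
    intro l
    rw [norm_mul, norm_inv, Complex.norm_natCast]
    have h4 := hh_bound h (((l + N : ℕ) : ℤ) - N) (((l + N : ℕ) : ℤ) - k)
    have h5 : (((l + N : ℕ) : ℤ) - N) = (l : ℤ) := by push_cast; ring
    have h6 : (((l + N : ℕ) : ℤ) - k) = (((N - k) + l : ℕ) : ℤ) := by
      push_cast [Nat.cast_sub hk]; ring
    rw [h5, h6, zpow_natCast, zpow_natCast] at h4
    rw [h5, h6]
    have h7 : (N.factorial : ℝ) * l.factorial ≤ (l + N).factorial := by
      have := Nat.factorial_mul_factorial_dvd_factorial_add l N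
      have := Nat.le_of_dvd (Nat.factorial_pos _) this
      have h8 : ((l.factorial * N.factorial : ℕ) : ℝ) ≤ ((l + N).factorial : ℕ) := by
        exact_mod_cast this
      push_cast at h8
      linarith
    have h9 : (((l + N).factorial : ℝ))⁻¹ ≤ ((N.factorial : ℝ))⁻¹ * ((l.factorial : ℝ))⁻¹ := by
      rw [← mul_inv]
      apply inv_anti₀ (by positivity) h7
    have hK := h.Kb0
    calc (((l + N).factorial : ℝ))⁻¹ * ‖hh G R (l : ℤ) (((N - k) + l : ℕ) : ℤ)‖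
        ≤ (((N.factorial : ℝ))⁻¹ * ((l.factorial : ℝ))⁻¹) * (Kb * (R ^ ((N - k) + l) * R ^ l)) := by
          apply mul_le_mul h9 h4 (norm_nonneg _) (by positivity)
      _ = _ := by rw [pow_add, mul_pow]; ring
  have h4 := ((expo_sum (R * R)).mul_left (((N.factorial : ℝ))⁻¹ * (Kb * R ^ (N - k))))
  have h5 := tsum_of_norm_bounded h4 h3
  rw [h2.tsum_eq] at h5
  calc (N.factorial : ℝ) * ‖co (fun y x => Complex.exp (x * y) * G y⁻¹ x⁻¹) R N k‖
      ≤ (N.factorial : ℝ) * (((N.factorial : ℝ))⁻¹ * (Kb * R ^ (N - k)) * Real.exp (R * R)) := by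
        gcongr
    _ = _ := by
        have : (N.factorial : ℝ) ≠ 0 := by positivity
        field_simp

/-- The diagonal entries. -/
lemma same_eq (h : GH R₀ R Kb G) (N : ℕ) :
    ‖(N.factorial : ℂ) * co (fun y x => Complex.exp (x * y) * G y⁻¹ x⁻¹) R N N - G 0 0‖
      ≤ Kb * (R * R) * Real.exp (R * R) / (N + 1) := by
  have hR := h.pos
  have h1 := co_hasSum h N N
  have h2 := (hasSum_nat_add_iff' (N + 1)).2 h1
  rw [Finset.sum_range_succ, Finset.sum_eq_zero, zero_add, sub_self, hh_zero h] at h2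
  swap
  · intro n hn
    rw [Finset.mem_range] at hn
    rw [hh_nega h _ (by omega), mul_zero]
  have h2' := h2.mul_left (N.factorial : ℂ)
  have h3 : ∀ l : ℕ, ‖(N.factorial : ℂ) * ((((l + (N + 1)).factorial : ℂ))⁻¹ *
      hh G R (((l + (N + 1) : ℕ) : ℤ) - N) (((l + (N + 1) : ℕ) : ℤ) - N))‖
      ≤ (Kb * (R * R) / (N + 1)) * ((R * R) ^ l / l.factorial) := by
    intro l
    rw [norm_mul, norm_mul, norm_inv, Complex.norm_natCast, Complex.norm_natCast]
    have h4 := hh_bound h (((l + (N + 1) : ℕ) : ℤ) - N) (((l + (N + 1) : ℕ) : ℤ) - N)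
    have h5 : (((l + (N + 1) : ℕ) : ℤ) - N) = ((l + 1 : ℕ) : ℤ) := by push_cast; ring
    rw [h5, zpow_natCast] at h4
    rw [h5]
    have h7 : (N.factorial : ℝ) * ((N + 1) * l.factorial) ≤ (l + (N + 1)).factorial := by
      have h8 := fact_mul_le N (l + 1) (by omega)
      have h9 : N + (l + 1) = l + (N + 1) := by ring
      rw [h9] at h8
      refine le_trans ?_ h8
      have h10 : (l.factorial : ℝ) ≤ (l + 1).factorial := by
        exact_mod_cast Nat.factorial_le (Nat.le_succ l)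
      gcongr
    have h9 : (N.factorial : ℝ) * (((l + (N + 1)).factorial : ℝ))⁻¹
        ≤ ((N + 1 : ℝ) * l.factorial)⁻¹ := by
      rw [← div_eq_mul_inv, div_le_iff₀ (by positivity), inv_mul_eq_div,
        le_div_iff₀ (by positivity)]
      exact h7
    have hK := h.Kb0
    calc (N.factorial : ℝ) * ((((l + (N + 1)).factorial : ℝ))⁻¹ *
          ‖hh G R ((l + 1 : ℕ) : ℤ) ((l + 1 : ℕ) : ℤ)‖)
        = ((N.factorial : ℝ) * (((l + (N + 1)).factorial : ℝ))⁻¹) *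
          ‖hh G R ((l + 1 : ℕ) : ℤ) ((l + 1 : ℕ) : ℤ)‖ := by ring
      _ ≤ ((N + 1 : ℝ) * l.factorial)⁻¹ * (Kb * (R ^ (l + 1) * R ^ (l + 1))) := by
          apply mul_le_mul h9 h4 (norm_nonneg _) (by positivity)
      _ = _ := by rw [pow_succ, mul_pow]; field_simp
  have h4 := ((expo_sum (R * R)).mul_left (Kb * (R * R) / (N + 1)))
  have h5 := tsum_of_norm_bounded h4 h3
  rw [h2'.tsum_eq] at h5
  have h6 : (N.factorial : ℂ) * (co (fun y x => Complex.exp (x * y) * G y⁻¹ x⁻¹) R N N -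
      ((N.factorial : ℂ))⁻¹ * G 0 0)
      = (N.factorial : ℂ) * co (fun y x => Complex.exp (x * y) * G y⁻¹ x⁻¹) R N N - G 0 0 := by
    have : (N.factorial : ℂ) ≠ 0 := by exact_mod_cast Nat.factorial_ne_zero N
    field_simp
  rw [h6] at h5
  refine h5.trans_eq ?_
  ring

/-- Entries above the diagonal. -/
lemma same_gt (h : GH R₀ R Kb G) (N j : ℕ) (hj : 1 ≤ j) :
    (N.factorial : ℝ) * ‖co (fun y x => Complex.exp (x * y) * G y⁻¹ x⁻¹) R N (N + j)‖
      ≤ Kb * Real.exp (R * R) / (N + 1) * (R ^ j / j.factorial) := by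
  have hR := h.pos
  have h1 := co_hasSum h N (N + j)
  have h2 := (hasSum_nat_add_iff' (N + j)).2 h1
  rw [Finset.sum_eq_zero, sub_zero] at h2
  swap
  · intro n hn
    rw [Finset.mem_range] at hn
    rw [hh_negb h _ (by omega), mul_zero]
  have h3 : ∀ l : ℕ, ‖(((l + (N + j)).factorial : ℂ))⁻¹ *
      hh G R (((l + (N + j) : ℕ) : ℤ) - N) (((l + (N + j) : ℕ) : ℤ) - ((N + j : ℕ) : ℤ))‖
      ≤ ((N.factorial : ℝ))⁻¹ * (Kb / (N + 1) * (R ^ j / j.factorial)) *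
        ((R * R) ^ l / l.factorial) := by
    intro l
    rw [norm_mul, norm_inv, Complex.norm_natCast]
    have h4 := hh_bound h (((l + (N + j) : ℕ) : ℤ) - N) (((l + (N + j) : ℕ) : ℤ) - ((N + j : ℕ) : ℤ))
    have h5 : (((l + (N + j) : ℕ) : ℤ) - N) = ((l + j : ℕ) : ℤ) := by push_cast; ring
    have h6 : (((l + (N + j) : ℕ) : ℤ) - ((N + j : ℕ) : ℤ)) = ((l : ℕ) : ℤ) := by push_cast; ring
    rw [h5, h6, zpow_natCast, zpow_natCast] at h4
    rw [h5, h6]
    have h7 : (N.factorial : ℝ) * ((N + 1) * (j.factorial * l.factorial))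
        ≤ (l + (N + j)).factorial := by
      have h8 := fact_mul_le N (l + j) (by omega)
      have h9 : N + (l + j) = l + (N + j) := by ring
      rw [h9] at h8
      refine le_trans ?_ h8
      have h10 : (j.factorial : ℝ) * l.factorial ≤ (l + j).factorial := by
        have := Nat.factorial_mul_factorial_dvd_factorial_add l j
        have := Nat.le_of_dvd (Nat.factorial_pos _) this
        have h8 : ((l.factorial * j.factorial : ℕ) : ℝ) ≤ ((l + j).factorial : ℕ) := by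
          exact_mod_cast this
        push_cast at h8
        linarith
      gcongr
    have h9 : (((l + (N + j)).factorial : ℝ))⁻¹
        ≤ ((N.factorial : ℝ) * ((N + 1) * (j.factorial * l.factorial)))⁻¹ :=
      inv_anti₀ (by positivity) h7
    have hK := h.Kb0
    calc (((l + (N + j)).factorial : ℝ))⁻¹ * ‖hh G R ((l + j : ℕ) : ℤ) ((l : ℕ) : ℤ)‖
        ≤ ((N.factorial : ℝ) * ((N + 1) * (j.factorial * l.factorial)))⁻¹ *
          (Kb * (R ^ l * R ^ (l + j))) := by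
          apply mul_le_mul h9 h4 (norm_nonneg _) (by positivity)
      _ = _ := by rw [pow_add, mul_pow]; field_simp
  have h4 := ((expo_sum (R * R)).mul_left (((N.factorial : ℝ))⁻¹ *
    (Kb / (N + 1) * (R ^ j / j.factorial))))
  have h5 := tsum_of_norm_bounded h4 h3
  rw [h2.tsum_eq] at h5
  calc (N.factorial : ℝ) * ‖co (fun y x => Complex.exp (x * y) * G y⁻¹ x⁻¹) R N (N + j)‖
      ≤ (N.factorial : ℝ) * (((N.factorial : ℝ))⁻¹ *
        (Kb / (N + 1) * (R ^ j / j.factorial)) * Real.exp (R * R)) := by gcongr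
    _ = _ := by
        have : (N.factorial : ℝ) ≠ 0 := by positivity
        field_simp

end Same

end Pool.Agent.H77.FB
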