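import Pool.Agent.H77.FB.Oper

/-!
The functionals carried by the ends of a curve.
-/

open MeasureTheory Filter BoundedContinuousFunction

namespace Pool.Agent.H77.FB

lemma half_sum (m : ℕ) : HasSum (fun p : Fin m × ℕ => (1 / 2 : ℝ) ^ p.2) (2 * m) := by
  have h1 : Summable (fun p : Fin m × ℕ => (1 / 2 : ℝ) ^ p.2) := by
    rw [summable_prod_of_nonneg fun p => by positivity]
    exact ⟨fun _ => summable_geometric_two, Summable.of_finite⟩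
  have h2 : ∑' p : Fin m × ℕ, (1 / 2 : ℝ) ^ p.2 = 2 * m := by
    rw [h1.tsum_prod, tsum_fintype]
    simp only [tsum_geometric_two]
    rw [Finset.sum_const, Finset.card_univ, Fintype.card_fin, nsmul_eq_mul]
    ring
  rw [← h2]
  exact h1.hasSum

namespace EndData

variable {m : ℕ} (D : EndData m)

lemma norm_ζ_le (i : Fin m) {x : ℂ} (hx : D.R₀ < ‖x‖) : ‖D.ζ i x‖ ≤ ‖x‖ + D.A := by
  have hi := D.norm_a_le i
  have h0 : ‖D.a i 0‖ ≤ 1 := by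
    have := sq_nonneg ‖D.a i 1‖
    nlinarith [norm_nonneg (D.a i 0)]
  have h1 : ‖D.a i 1‖ ≤ 1 := by
    have := sq_nonneg ‖D.a i 0‖
    nlinarith [norm_nonneg (D.a i 1)]
  have h2 := D.bη i _ (D.inv_lt hx)
  have hA := D.A0
  refine (pi_norm_le_iff_of_nonneg (by positivity)).2 fun k => ?_
  have h3 : ‖D.a i k‖ ≤ 1 := by fin_cases k <;> assumption
  have h4 : ‖pp (D.a i) k‖ ≤ 1 := by
    fin_cases k
    · change ‖-((starRingEnd ℂ) (D.a i 1))‖ ≤ 1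
      rw [norm_neg, RCLike.norm_conj]; exact h1
    · change ‖(starRingEnd ℂ) (D.a i 0)‖ ≤ 1
      rw [RCLike.norm_conj]; exact h0
  unfold ζ
  refine (norm_add_le _ _).trans ?_
  rw [norm_mul, norm_mul]
  calc ‖x‖ * ‖D.a i k‖ + ‖D.η i x⁻¹‖ * ‖pp (D.a i) k‖ ≤ ‖x‖ * 1 + D.A * 1 := by gcongr
    _ = _ := by ring

/-- The coefficients of an entire function along the ends. -/
noncomputable def cf (i : Fin m) (k : ℕ) (f : (Fin 2 → ℂ) → ℂ) : ℂ :=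
  av (fun x => f (D.ζ i x) * x ^ (-(k : ℤ))) D.R

lemma diff_comp (i : Fin m) {f : (Fin 2 → ℂ) → ℂ} (hf : Differentiable ℂ f) {x : ℂ}
    (hx : D.R₀ < ‖x‖) : DifferentiableAt ℂ (fun x => f (D.ζ i x)) x :=
  (hf (D.ζ i x)).comp x (D.dζ' i hx)

lemma cont_comp (i : Fin m) {f : (Fin 2 → ℂ) → ℂ} (hf : Differentiable ℂ f) (k : ℤ) {r : ℝ}
    (hr : D.R₀ < r) : ContinuousOn (fun x => f (D.ζ i x) * x ^ k) {x | ‖x‖ = r} := by
  intro x hx
  have hx' : D.R₀ < ‖x‖ := by rw [show ‖x‖ = r from hx]; exact hr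
  exact ((D.diff_comp i hf hx').mul (diff_zpow D.R₀_le k x hx')).continuousAt.continuousWithinAt

lemma cf_bound (i : Fin m) (k : ℕ) {f : (Fin 2 → ℂ) → ℂ} (hf : Differentiable ℂ f) {r M : ℝ}
    (hr : D.R₀ < r) (hM : ∀ x, ‖x‖ = r → ‖f (D.ζ i x)‖ ≤ M) : ‖D.cf i k f‖ ≤ M * (r ^ k)⁻¹ := by
  have hr0 : 0 < r := D.hR₀.trans hr
  unfold cf
  rw [av_radius (F := fun x => f (D.ζ i x) * x ^ (-(k : ℤ))) D.R₀_le D.hR hr fun x hx =>
    (D.diff_comp i hf hx).mul (diff_zpow D.R₀_le _ x hx)]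
  apply av_norm_le hr0.le
  intro x hx
  rw [norm_mul, norm_zpow_neg hx]
  exact mul_le_mul_of_nonneg_right (hM x hx) (by positivity)

/-- The functional with coefficients `ψ`. -/
noncomputable def T (B : ℝ) (ψ : Fin m × ℕ →ᵇ ℂ) (f : (Fin 2 → ℂ) → ℂ) : ℂ :=
  ∑' p : Fin m × ℕ, D.cf p.1 p.2 f * ((B : ℂ) ^ p.2 * ψ p)

/-- A good radius. -/
noncomputable def rr (B : ℝ) : ℝ := max (2 * B) D.R

lemma rr_gt (B : ℝ) : D.R₀ < D.rr B := D.hR.trans_le (le_max_right _ _)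

lemma rr_pos (B : ℝ) : 0 < D.rr B := D.hR₀.trans (D.rr_gt B)

lemma rr_ratio {B : ℝ} (hB : 0 < B) (k : ℕ) : (D.rr B ^ k)⁻¹ * B ^ k ≤ (1 / 2) ^ k := by
  have h1 : B ≤ (1 / 2) * D.rr B := by
    have := le_max_left (2 * B) D.R
    unfold rr; linarith
  have h2 := D.rr_pos B
  rw [inv_mul_le_iff₀ (by positivity), ← mul_pow]
  calc B ^ k ≤ ((1 / 2) * D.rr B) ^ k := pow_le_pow_left₀ hB.le h1 k
    _ = _ := by rw [mul_comm]

lemma term_bound {B : ℝ} (hB : 0 < B) (ψ : Fin m × ℕ →ᵇ ℂ) {f : (Fin 2 → ℂ) → ℂ}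
    (hf : Differentiable ℂ f) {M : ℝ} (hM : ∀ i x, ‖x‖ = D.rr B → ‖f (D.ζ i x)‖ ≤ M)
    (hM0 : 0 ≤ M) (p : Fin m × ℕ) :
    ‖D.cf p.1 p.2 f * ((B : ℂ) ^ p.2 * ψ p)‖ ≤ M * ‖ψ‖ * (1 / 2) ^ p.2 := by
  rw [norm_mul, norm_mul, norm_pow, Complex.norm_real, Real.norm_of_nonneg hB.le]
  have h1 := D.cf_bound p.1 p.2 hf (D.rr_gt B) (hM p.1)
  have h2 := ψ.norm_coe_le_norm p
  have h3 := D.rr_ratio hB p.2
  have h4 := D.rr_pos B
  calc ‖D.cf p.1 p.2 f‖ * (B ^ p.2 * ‖ψ p‖) ≤ (M * (D.rr B ^ p.2)⁻¹) * (B ^ p.2 * ‖ψ‖) := by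
        gcongr
    _ = M * ‖ψ‖ * ((D.rr B ^ p.2)⁻¹ * B ^ p.2) := by ring
    _ ≤ M * ‖ψ‖ * (1 / 2) ^ p.2 := by gcongr

lemma exists_M {B : ℝ} {f : (Fin 2 → ℂ) → ℂ} (hf : Differentiable ℂ f) :
    ∃ M : ℝ, 0 ≤ M ∧ ∀ i x, ‖x‖ = D.rr B → ‖f (D.ζ i x)‖ ≤ M := by
  obtain ⟨M, hM⟩ := (isCompact_closedBall (0 : Fin 2 → ℂ) (D.rr B + D.A)).exists_bound_of_continuousOn
    hf.continuous.continuousOn
  have h1 := D.rr_pos B
  have hA := D.A0
  refine ⟨M, (norm_nonneg _).trans (hM 0 (by simp; positivity)), fun i x hx => hM _ ?_⟩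
  rw [mem_closedBall_zero_iff, ← hx]
  exact D.norm_ζ_le i (by rw [hx]; exact D.rr_gt B)

lemma T_summable {B : ℝ} (hB : 0 < B) (ψ : Fin m × ℕ →ᵇ ℂ) {f : (Fin 2 → ℂ) → ℂ}
    (hf : Differentiable ℂ f) :
    Summable fun p : Fin m × ℕ => D.cf p.1 p.2 f * ((B : ℂ) ^ p.2 * ψ p) := by
  obtain ⟨M, hM0, hM⟩ := D.exists_M (B := B) hf
  exact Summable.of_norm_bounded ((half_sum m).summable.mul_left (M * ‖ψ‖))
    (D.term_bound hB ψ hf hM hM0)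

lemma T_an {B : ℝ} (hB : 0 < B) (ψ : Fin m × ℕ →ᵇ ℂ) : AnFunctional (D.T B ψ) := by
  refine ⟨fun f g hf hg => ?_, fun c f hf => ?_, D.rr B + D.A, 2 * m * ‖ψ‖,
    fun f hf A hA => ?_⟩
  · unfold T
    rw [← (D.T_summable hB ψ hf).tsum_add (D.T_summable hB ψ hg)]
    congr 1
    funext p
    rw [← add_mul]
    congr 1
    unfold cf
    rw [← av_add D.Rpos.le (D.cont_comp p.1 hf _ D.hR) (D.cont_comp p.1 hg _ D.hR)]
    congr 1
    funext x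
    ring
  · unfold T
    rw [← tsum_mul_left]
    congr 1
    funext p
    have h1 : D.cf p.1 p.2 (fun z => c * f z) = c * D.cf p.1 p.2 f := by
      unfold cf
      rw [← av_mul_left]
      congr 1
      funext x
      ring
    rw [h1]
    ring
  · have hA' : ∀ i x, ‖x‖ = D.rr B → ‖f (D.ζ i x)‖ ≤ A := fun i x hx => hA _ (by
      rw [← hx]
      exact D.norm_ζ_le i (by rw [hx]; exact D.rr_gt B))
    have hA0 : 0 ≤ A := (norm_nonneg _).trans (hA 0 (by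
      rw [norm_zero]; have := D.rr_pos B; have := D.A0; positivity))
    have h1 := (half_sum m).mul_left (A * ‖ψ‖)
    refine (tsum_of_norm_bounded h1 (D.term_bound hB ψ hf hA' hA0)).trans_eq ?_
    ring

lemma T_ann {P : MvPolynomial (Fin 2) ℂ} (hP : ∀ i x, D.R₀ < ‖x‖ →
    MvPolynomial.eval (D.ζ i x) P = 0) {B : ℝ} (ψ : Fin m × ℕ →ᵇ ℂ) :
    Annihilates P (D.T B ψ) := by
  intro f _
  unfold T
  have h1 : ∀ p : Fin m × ℕ,
      D.cf p.1 p.2 (fun z => MvPolynomial.eval z P * f z) = 0 := by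
    intro p
    unfold cf
    rw [av_congr D.Rpos.le (G := fun _ => 0) fun x hx => ?_]
    · exact av_const 0 _
    · simp only
      rw [hP p.1 x (by rw [hx]; exact D.hR), zero_mul, zero_mul]
  simp only [h1, zero_mul, tsum_zero]

/-- The coefficients along the conjugate ends. -/
noncomputable def sg (j : Fin m) (N : ℕ) (s : (Fin 2 → ℂ) → ℂ) : ℂ :=
  (N.factorial : ℂ) * av (fun y => s (D.z j y) * y ^ (-(N : ℤ))) D.R

lemma conj_cf (i : Fin m) (k : ℕ) {s : (Fin 2 → ℂ) → ℂ} (hs : Differentiable ℂ s) :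
    (starRingEnd ℂ) (D.cf i k (fun w => (starRingEnd ℂ) (s (cj w))))
      = av (fun y => s (D.z i y) * y ^ (-(k : ℤ))) D.R := by
  unfold cf
  have hs' := differentiable_conj hs
  have h1 := (Complex.conjCLE : ℂ ≃L[ℝ] ℂ).toContinuousLinearMap.circleAverage_comp_comm
    (av_int D.Rpos.le (D.cont_comp i hs' (-(k : ℤ)) D.hR))
  change Real.circleAverage (⇑(Complex.conjCLE : ℂ ≃L[ℝ] ℂ).toContinuousLinearMap ∘
    fun x => (starRingEnd ℂ) (s (cj (D.ζ i x))) * x ^ (-(k : ℤ))) 0 D.R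
    = (starRingEnd ℂ) (Real.circleAverage
      (fun x => (starRingEnd ℂ) (s (cj (D.ζ i x))) * x ^ (-(k : ℤ))) 0 D.R) at h1
  unfold av
  rw [← h1]
  have h2 := av_conj (fun y => s (D.z i y) * y ^ (-(k : ℤ))) D.R
  unfold av at h2
  rw [← h2]
  congr 1
  funext x
  change (starRingEnd ℂ) ((starRingEnd ℂ) (s (cj (D.ζ i x))) * x ^ (-(k : ℤ))) = _
  rw [map_mul, Complex.conj_conj, map_zpow₀]
  unfold z
  rw [Complex.conj_conj]

end EndData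

end Pool.Agent.H77.FB
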