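import Pool.Agent.H77.FB.Loc

/-!
The division property of a curve all of whose ends are known.
-/

open Filter Topology

namespace Pool.Agent.H77.FB

lemma exists_t {ι : Type*} [Fintype ι] (a b : ι → ℂ) (h : ∀ i, a i ≠ 0 ∨ b i ≠ 0) :
    ∃ t : ℂ, ∀ i, a i * t + b i ≠ 0 := by
  by_contra hcon
  push Not at hcon
  have h1 : (∏ i, (Polynomial.C (a i) * Polynomial.X + Polynomial.C (b i)) : Polynomial ℂ) = 0 := by
    apply Polynomial.funext
    intro t
    rw [Polynomial.eval_prod, Polynomial.eval_zero, Finset.prod_eq_zero_iff]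
    obtain ⟨i, hi⟩ := hcon t
    exact ⟨i, Finset.mem_univ i, by simpa using hi⟩
  rw [Finset.prod_eq_zero_iff] at h1
  obtain ⟨i, _, hi⟩ := h1
  have h2 := congrArg (fun f : Polynomial ℂ => f.coeff 0) hi
  have h3 := congrArg (fun f : Polynomial ℂ => f.coeff 1) hi
  simp at h2 h3
  rcases h i with h4 | h4
  · exact h4 h3
  · exact h4 h2

lemma expType_lin {g : (Fin 2 → ℂ) → ℂ} (hg : ExpType g) (c t : ℂ) :
    ExpType (fun z : Fin 2 → ℂ => c * g ![z 0 + t * z 1, z 1]) := by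
  obtain ⟨hd, C, hC, B, hB, h⟩ := hg
  refine ⟨?_, (‖c‖ + 1) * C, by positivity, B * (1 + ‖t‖), by positivity, fun z => ?_⟩
  · apply Differentiable.const_mul
    apply hd.comp
    rw [differentiable_pi]
    intro k
    fin_cases k
    · exact (differentiable_apply 0).fun_add ((differentiable_apply 1).const_mul t)
    · exact differentiable_apply 1
  · have h1 : ‖(![z 0 + t * z 1, z 1] : Fin 2 → ℂ)‖ ≤ (1 + ‖t‖) * ‖z‖ := by
      have h0 : ‖z 0‖ ≤ ‖z‖ := norm_le_pi_norm z 0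
      have h1 : ‖z 1‖ ≤ ‖z‖ := norm_le_pi_norm z 1
      refine (pi_norm_le_iff_of_nonneg (by positivity)).2 fun k => ?_
      fin_cases k
      · change ‖z 0 + t * z 1‖ ≤ _
        refine (norm_add_le _ _).trans ?_
        rw [norm_mul]
        have := norm_nonneg t
        nlinarith
      · change ‖z 1‖ ≤ _
        have := norm_nonneg t
        nlinarith [norm_nonneg z]
    rw [norm_mul]
    calc ‖c‖ * ‖g ![z 0 + t * z 1, z 1]‖
        ≤ (‖c‖ + 1) * (C * Real.exp (B * ‖(![z 0 + t * z 1, z 1] : Fin 2 → ℂ)‖)) := by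
          apply mul_le_mul _ (h _) (norm_nonneg _) (by positivity)
          linarith
      _ ≤ (‖c‖ + 1) * (C * Real.exp (B * ((1 + ‖t‖) * ‖z‖))) := by gcongr
      _ = _ := by rw [mul_assoc, mul_assoc]

namespace EndData

variable {m : ℕ} (D : EndData m)

lemma cross_ne {i j : Fin m} (h : i ≠ j) : D.a i 0 * D.a j 1 ≠ D.a j 0 * D.a i 1 := by
  intro h1
  have h2 := D.ang i j h
  have h3 : ((D.a i 0 * (starRingEnd ℂ) (D.a j 0) + D.a i 1 * (starRingEnd ℂ) (D.a j 1)) *
      (starRingEnd ℂ) (D.a i 0 * (starRingEnd ℂ) (D.a j 0) + D.a i 1 * (starRingEnd ℂ) (D.a j 1)))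
      = 1 := by
    have e : (D.a i 0 * (starRingEnd ℂ) (D.a j 0) + D.a i 1 * (starRingEnd ℂ) (D.a j 1)) *
      (starRingEnd ℂ) (D.a i 0 * (starRingEnd ℂ) (D.a j 0) + D.a i 1 * (starRingEnd ℂ) (D.a j 1))
      = (D.a i 0 * (starRingEnd ℂ) (D.a i 0) + D.a i 1 * (starRingEnd ℂ) (D.a i 1)) *
        (D.a j 0 * (starRingEnd ℂ) (D.a j 0) + D.a j 1 * (starRingEnd ℂ) (D.a j 1)) -
        (D.a i 0 * D.a j 1 - D.a j 0 * D.a i 1) *
          (starRingEnd ℂ) (D.a i 0 * D.a j 1 - D.a j 0 * D.a i 1) := by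
      simp only [map_add, map_sub, map_mul, Complex.conj_conj]
      ring
    rw [e, D.unit, D.unit, sub_eq_zero.2 h1]
    simp
  rw [Complex.mul_conj'] at h3
  have h4 : ‖D.a i 0 * (starRingEnd ℂ) (D.a j 0) + D.a i 1 * (starRingEnd ℂ) (D.a j 1)‖ ^ 2 = 1 := by
    exact_mod_cast h3
  have h5 := D.κ1
  have h6 := norm_nonneg (D.a i 0 * (starRingEnd ℂ) (D.a j 0) + D.a i 1 * (starRingEnd ℂ) (D.a j 1))
  nlinarith

end EndData

theorem EndData.hdiv {M : ℕ} (D : EndData (M + 1)) {R Q : MvPolynomial (Fin 2) ℂ}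
    {α β : Fin (M + 1) → ℂ}
    (hR : R = ∏ j, (MvPolynomial.C (α j) * MvPolynomial.X 0 +
      MvPolynomial.C (β j) * MvPolynomial.X 1) + Q) (hQ : Q.totalDegree < M + 1)
    (hαβ : ∀ j, α j ≠ 0 ∨ β j ≠ 0)
    (hz : ∀ j y, D.R₀ < ‖y‖ → MvPolynomial.eval (D.z j y) R = 0)
    {s : (Fin 2 → ℂ) → ℂ} (hs : ExpType s)
    (hdec : ∀ j, ∃ C R' : ℝ, ∀ y, R' ≤ ‖y‖ → ‖s (D.z j y)‖ ≤ C / ‖y‖) :
    ∃ g, ExpType g ∧ ∀ z, s z = MvPolynomial.eval z R * g z := by
  -- the choice of the direction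
  obtain ⟨t, ht⟩ := exists_t (ι := Fin (M + 1) ⊕ Fin (M + 1))
    (Sum.elim α fun j => -(starRingEnd ℂ) (D.a j 1))
    (Sum.elim β fun j => (starRingEnd ℂ) (D.a j 0)) (by
      rintro (j | j)
      · exact hαβ j
      · simp only [Sum.elim_inr, neg_ne_zero]
        by_contra hcon
        push Not at hcon
        have h1 := D.unit j
        rw [hcon.1, hcon.2] at h1
        simp at h1)
  have ht1 : ∀ j, α j * t + β j ≠ 0 := fun j => ht (Sum.inl j)
  have ht2 : ∀ j, (starRingEnd ℂ) (D.a j 0) - t * (starRingEnd ℂ) (D.a j 1) ≠ 0 := fun j => by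
    have := ht (Sum.inr j)
    simp only [Sum.elim_inr] at this
    intro h
    apply this
    rw [← h]
    ring
  obtain ⟨c₀, hc₀, p, hp, K, hK, hpb, hev⟩ := coords hR hQ ht1
  choose y hy1 hy2 hy3 using fun j => D.root_fun j (ht2 j)
  obtain ⟨hd, C, hC, B, hB, hsb⟩ := hs
  set s1 : (Fin 2 → ℂ) → ℂ := fun v => s ![v 0 + t * v 1, v 1] with hs1
  have hs1e : ∀ u w, s1 ![u, w] = s ![u + t * w, w] := fun u w => rfl
  have hs1d : Differentiable ℂ s1 := by
    apply hd.comp
    rw [differentiable_pi]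
    intro k
    fin_cases k
    · exact (differentiable_apply 0).fun_add ((differentiable_apply 1).const_mul t)
    · exact differentiable_apply 1
  have hs1b : ∀ u w, ‖s1 ![u, w]‖ ≤ C * Real.exp (B * (1 + ‖t‖) * (‖u‖ + ‖w‖)) := by
    intro u w
    rw [hs1e]
    refine (hsb _).trans ?_
    apply mul_le_mul_of_nonneg_left _ hC.le
    apply Real.exp_le_exp.2
    rw [mul_assoc]
    apply mul_le_mul_of_nonneg_left _ hB.le
    refine (pi_norm_le_iff_of_nonneg (by positivity)).2 fun k => ?_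
    fin_cases k
    · change ‖u + t * w‖ ≤ _
      refine (norm_add_le _ _).trans ?_
      rw [norm_mul]
      nlinarith [norm_nonneg t, norm_nonneg u, norm_nonneg w, mul_nonneg (norm_nonneg t) (norm_nonneg u)]
    · change ‖w‖ ≤ _
      nlinarith [norm_nonneg t, norm_nonneg u, norm_nonneg w, mul_nonneg (norm_nonneg t) (norm_nonneg u),
        mul_nonneg (norm_nonneg t) (norm_nonneg w)]
  have hpt : ∀ j, ∀ᶠ u in cocompact ℂ,
      (![u + t * D.z j (y j u) 1, D.z j (y j u) 1] : Fin 2 → ℂ) = D.z j (y j u) := by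
    intro j
    filter_upwards [hy1 j] with u hu
    funext k
    fin_cases k
    · change u + t * D.z j (y j u) 1 = D.z j (y j u) 0
      linear_combination -hu.2
    · rfl
  obtain ⟨g, hg, hg'⟩ := division_uw hp hK hpb hs1d hC (by positivity) hs1b
    (w := fun j u => D.z j (y j u) 1)
    (lam := fun j => (starRingEnd ℂ) (D.a j 1) /
      ((starRingEnd ℂ) (D.a j 0) - t * (starRingEnd ℂ) (D.a j 1)))
    (by
      intro i j hij
      by_contra hne
      simp only at hij
      rw [div_eq_div_iff (ht2 i) (ht2 j)] at hij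
      apply D.cross_ne hne
      have h1 : (starRingEnd ℂ) (D.a i 0 * D.a j 1) = (starRingEnd ℂ) (D.a j 0 * D.a i 1) := by
        rw [map_mul, map_mul]
        linear_combination -hij
      exact (starRingEnd ℂ).injective h1)
    (fun j => by
      filter_upwards [hy1 j, hpt j] with u hu hu'
      have h1 := hz j (y j u) hu.1
      rw [← hu', hev] at h1
      exact (mul_eq_zero.1 h1).resolve_left hc₀)
    hy3
    (fun j => by
      obtain ⟨C', R', hCR⟩ := hdec j
      have h1 : Tendsto (fun u => C' * ‖(y j u)⁻¹‖) (cocompact ℂ) (𝓝 0) := by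
        have := (hy2 j).norm.const_mul C'
        simpa using this
      refine squeeze_zero_norm' ?_ h1
      have h2 : ∀ᶠ u in cocompact ℂ, ‖(y j u)⁻¹‖ < (max R' 1)⁻¹ := by
        have h3 := (hy2 j).norm
        rw [norm_zero] at h3
        exact h3.eventually_lt_const (by positivity)
      filter_upwards [hy1 j, hpt j, h2] with u hu hu' hu2
      rw [hs1e, hu']
      have h4 : 0 < ‖y j u‖ := D.hR₀.trans hu.1
      rw [norm_inv] at hu2 ⊢
      have h5 := (inv_lt_inv₀ h4 (by positivity)).1 hu2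
      exact hCR _ ((le_max_left _ _).trans h5.le))
  refine ⟨fun z => c₀⁻¹ * g ![z 0 + (-t) * z 1, z 1], expType_lin hg _ _, fun z => ?_⟩
  have h1 := hg' (z 0 + (-t) * z 1) (z 1)
  have h2 : (![z 0 + (-t) * z 1 + t * z 1, z 1] : Fin 2 → ℂ) = z := by
    funext k
    fin_cases k
    · change z 0 + (-t) * z 1 + t * z 1 = z 0
      ring
    · rfl
  have h3 := hev (z 0 + (-t) * z 1) (z 1)
  rw [h2] at h3
  rw [hs1e, h2] at h1
  rw [h1, h3]
  field_simp

end Pool.Agent.H77.FB
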