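import Pool.Agent.H77.FB.Avg

/-!
Double Laurent coefficients of kernels that are holomorphic outside a bidisc.
-/

open MeasureTheory

namespace Pool.Agent.H77.FB

lemma av_cont {K : ℂ → ℂ → ℂ} {ρ r : ℝ} (hr : 0 ≤ r)
    (hc : ContinuousOn (Function.uncurry K) ({y | ‖y‖ = ρ} ×ˢ {x | ‖x‖ = r})) :
    ContinuousOn (fun y => av (K y) r) {y | ‖y‖ = ρ} := by
  rw [continuousOn_iff_continuous_domRestrict]
  have h1 : Continuous (Function.uncurry fun (y : {y : ℂ | ‖y‖ = ρ}) (θ : ℝ) =>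
      K y.1 (circleMap 0 r θ)) := by
    have h2 : Continuous (fun p : {y : ℂ | ‖y‖ = ρ} × ℝ => ((p.1 : ℂ), circleMap 0 r p.2)) :=
      (continuous_subtype_val.comp continuous_fst).prodMk
        ((continuous_circleMap 0 r).comp continuous_snd)
    exact hc.comp_continuous h2 fun p => ⟨p.1.2, norm_cm hr _⟩
  have h3 := intervalIntegral.continuous_parametric_intervalIntegral_of_continuous'
    (μ := volume) h1 0 (2 * Real.pi)
  exact h3.const_smul _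

/-- Kernels holomorphic in each variable outside the disc of radius `R₀`. -/
structure Hol2 (R₀ : ℝ) (K : ℂ → ℂ → ℂ) : Prop where
  cont : ContinuousOn (Function.uncurry K) ({y | R₀ < ‖y‖} ×ˢ {x | R₀ < ‖x‖})
  d1 : ∀ y x, R₀ < ‖y‖ → R₀ < ‖x‖ → DifferentiableAt ℂ (fun y => K y x) y
  d2 : ∀ y x, R₀ < ‖y‖ → R₀ < ‖x‖ → DifferentiableAt ℂ (K y) x

lemma Hol2.contS {R₀ ρ r : ℝ} {K : ℂ → ℂ → ℂ} (h : Hol2 R₀ K) (hρ : R₀ < ρ) (hr : R₀ < r) :
    ContinuousOn (Function.uncurry K) ({y | ‖y‖ = ρ} ×ˢ {x | ‖x‖ = r}) := by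
  refine h.cont.mono ?_
  rintro ⟨y, x⟩ ⟨hy, hx⟩
  refine ⟨?_, ?_⟩
  · change R₀ < ‖y‖
    rw [show ‖y‖ = ρ from hy]; exact hρ
  · change R₀ < ‖x‖
    rw [show ‖x‖ = r from hx]; exact hr

lemma Hol2.mul {R₀ : ℝ} {K L : ℂ → ℂ → ℂ} (hK : Hol2 R₀ K) (hL : Hol2 R₀ L) :
    Hol2 R₀ (fun y x => K y x * L y x) :=
  ⟨hK.cont.mul hL.cont, fun y x hy hx => (hK.d1 y x hy hx).mul (hL.d1 y x hy hx),
    fun y x hy hx => (hK.d2 y x hy hx).mul (hL.d2 y x hy hx)⟩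

lemma Hol2.exp {R₀ : ℝ} {K : ℂ → ℂ → ℂ} (hK : Hol2 R₀ K) :
    Hol2 R₀ (fun y x => Complex.exp (K y x)) :=
  ⟨Complex.continuous_exp.comp_continuousOn hK.cont, fun y x hy hx => (hK.d1 y x hy hx).cexp,
    fun y x hy hx => (hK.d2 y x hy hx).cexp⟩

lemma Hol2.add {R₀ : ℝ} {K L : ℂ → ℂ → ℂ} (hK : Hol2 R₀ K) (hL : Hol2 R₀ L) :
    Hol2 R₀ (fun y x => K y x + L y x) :=
  ⟨hK.cont.add hL.cont, fun y x hy hx => (hK.d1 y x hy hx).add (hL.d1 y x hy hx),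
    fun y x hy hx => (hK.d2 y x hy hx).add (hL.d2 y x hy hx)⟩

lemma hol2_left {R₀ : ℝ} {f : ℂ → ℂ} (hf : ∀ y, R₀ < ‖y‖ → DifferentiableAt ℂ f y) :
    Hol2 R₀ (fun y _ => f y) := by
  refine ⟨?_, fun y x hy _ => hf y hy, fun y x _ _ => differentiableAt_const _⟩
  have h1 : ContinuousOn f {y | R₀ < ‖y‖} := fun y hy => (hf y hy).continuousAt.continuousWithinAt
  exact h1.comp continuousOn_fst fun p hp => hp.1

lemma hol2_right {R₀ : ℝ} {f : ℂ → ℂ} (hf : ∀ y, R₀ < ‖y‖ → DifferentiableAt ℂ f y) :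
    Hol2 R₀ (fun _ x => f x) := by
  refine ⟨?_, fun y x _ _ => differentiableAt_const _, fun y x _ hx => hf x hx⟩
  have h1 : ContinuousOn f {y | R₀ < ‖y‖} := fun y hy => (hf y hy).continuousAt.continuousWithinAt
  exact h1.comp continuousOn_snd fun p hp => hp.2

lemma diff_zpow {R₀ : ℝ} (h0 : 0 ≤ R₀) (k : ℤ) :
    ∀ y : ℂ, R₀ < ‖y‖ → DifferentiableAt ℂ (fun y : ℂ => y ^ k) y := by
  intro y hy
  apply DifferentiableAt.zpow differentiableAt_id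
  left
  change y ≠ 0
  rw [← norm_pos_iff]
  linarith

/-- The double average. -/
noncomputable def da (K : ℂ → ℂ → ℂ) (ρ r : ℝ) : ℂ := av (fun y => av (K y) r) ρ

lemma da_indep {R₀ ρ ρ' r r' : ℝ} {K : ℂ → ℂ → ℂ} (h : Hol2 R₀ K) (h0 : 0 ≤ R₀) (hρ : R₀ < ρ)
    (hρ' : R₀ < ρ') (hr : R₀ < r) (hr' : R₀ < r') : da K ρ r = da K ρ' r' := by
  have h1 : da K ρ r = da K ρ r' := by
    unfold da
    apply av_congr (h0.trans hρ.le)
    intro y hy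
    exact av_radius h0 hr hr' fun x hx => h.d2 y x (by rw [hy]; exact hρ) hx
  rw [h1]
  unfold da
  rw [av_swap (h0.trans hρ.le) (h0.trans hr'.le) (h.contS hρ hr'),
    av_swap (h0.trans hρ'.le) (h0.trans hr'.le) (h.contS hρ' hr')]
  apply av_congr (h0.trans hr'.le)
  intro x hx
  exact av_radius h0 hρ hρ' fun y hy => h.d1 y x hy (by rw [hx]; exact hr')

lemma da_congr {K L : ℂ → ℂ → ℂ} {ρ r : ℝ} (hρ : 0 ≤ ρ) (hr : 0 ≤ r)
    (h : ∀ y x, ‖y‖ = ρ → ‖x‖ = r → K y x = L y x) : da K ρ r = da L ρ r := by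
  unfold da
  apply av_congr hρ
  intro y hy
  exact av_congr hr fun x hx => h y x hy hx

lemma da_norm_le {K : ℂ → ℂ → ℂ} {ρ r M : ℝ} (hρ : 0 ≤ ρ) (hr : 0 ≤ r)
    (h : ∀ y x, ‖y‖ = ρ → ‖x‖ = r → ‖K y x‖ ≤ M) : ‖da K ρ r‖ ≤ M :=
  av_norm_le hρ fun y hy => av_norm_le hr fun x hx => h y x hy hx

lemma da_tsum {ι : Type*} [Countable ι] {K : ι → ℂ → ℂ → ℂ} {u : ι → ℝ} {ρ r : ℝ}
    (hρ : 0 ≤ ρ) (hr : 0 ≤ r) (hu : Summable u)
    (hc : ∀ i, ContinuousOn (Function.uncurry (K i)) ({y | ‖y‖ = ρ} ×ˢ {x | ‖x‖ = r}))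
    (hb : ∀ i y x, ‖y‖ = ρ → ‖x‖ = r → ‖K i y x‖ ≤ u i) :
    HasSum (fun i => da (K i) ρ r) (da (fun y x => ∑' i, K i y x) ρ r) := by
  unfold da
  have h1 : ∀ y, ‖y‖ = ρ → HasSum (fun i => av (K i y) r) (av (fun x => ∑' i, K i y x) r) := by
    intro y hy
    apply av_tsum hr hu
    · intro i
      exact (hc i).comp (continuousOn_const.prodMk continuousOn_id) fun x hx => ⟨hy, hx⟩
    · exact fun i x hx => hb i y x hy hx
  have h2 := av_tsum (ι := ι) (F := fun i y => av (K i y) r) (u := u) (r := ρ) hρ hu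
    (fun i => av_cont hr (hc i)) (fun i y hy => av_norm_le hr fun x hx => hb i y x hy hx)
  rw [av_congr hρ fun y hy => (h1 y hy).tsum_eq] at h2
  exact h2

/-- The matrix of a kernel: the coefficient of `y^N x^k`. -/
noncomputable def co (K : ℂ → ℂ → ℂ) (R : ℝ) (N k : ℕ) : ℂ :=
  da (fun y x => K y x * (x ^ (-(k : ℤ)) * y ^ (-(N : ℤ)))) R R

lemma hol2_fac {R₀ : ℝ} (h0 : 0 ≤ R₀) (a b : ℤ) :
    Hol2 R₀ (fun y x => x ^ b * y ^ a) :=
  (hol2_right (diff_zpow h0 b)).mul (hol2_left (diff_zpow h0 a))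

lemma co_eq {R₀ R ρ r : ℝ} {K : ℂ → ℂ → ℂ} (h : Hol2 R₀ K) (h0 : 0 ≤ R₀) (hR : R₀ < R)
    (hρ : R₀ < ρ) (hr : R₀ < r) (N k : ℕ) :
    co K R N k = da (fun y x => K y x * (x ^ (-(k : ℤ)) * y ^ (-(N : ℤ)))) ρ r :=
  da_indep (h.mul (hol2_fac h0 _ _)) h0 hR hρ hR hr

lemma fact_le (N : ℕ) (hN : 1 ≤ N) :
    (N.factorial : ℝ) * Real.exp N ≤ Real.exp 1 * N * (N : ℝ) ^ N := by
  induction N, hN using Nat.le_induction with
  | base => simp
  | succ n hn ih =>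
    have hn0 : (0 : ℝ) < n := by exact_mod_cast hn
    have h1 : Real.exp 1 * (n : ℝ) ^ (n + 1) ≤ ((n : ℝ) + 1) ^ (n + 1) := by
      have h2 : (1 : ℝ) ≤ (n + 1) * Real.log ((n + 1) / n) := by
        have h3 := Real.one_sub_inv_le_log_of_pos (x := ((n : ℝ) + 1) / n) (by positivity)
        rw [inv_div] at h3
        have h4 : 1 - (n : ℝ) / (n + 1) = 1 / (n + 1) := by field_simp; ring
        rw [h4, div_le_iff₀ (by positivity)] at h3
        linarith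
      have h5 : Real.exp 1 ≤ (((n : ℝ) + 1) / n) ^ (n + 1) := by
        rw [← Real.exp_log (show (0 : ℝ) < (((n : ℝ) + 1) / n) ^ (n + 1) by positivity)]
        apply Real.exp_le_exp.2
        rw [Real.log_pow]
        push_cast
        exact h2
      rw [div_pow, le_div_iff₀ (by positivity)] at h5
      exact h5
    have h6 : Real.exp ((n + 1 : ℕ) : ℝ) = Real.exp n * Real.exp 1 := by
      rw [← Real.exp_add]; push_cast; rfl
    rw [h6, Nat.factorial_succ]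
    push_cast
    calc ((n : ℝ) + 1) * n.factorial * (Real.exp n * Real.exp 1)
        = ((n : ℝ) + 1) * Real.exp 1 * (n.factorial * Real.exp n) := by ring
      _ ≤ ((n : ℝ) + 1) * Real.exp 1 * (Real.exp 1 * n * (n : ℝ) ^ n) := by gcongr
      _ = ((n : ℝ) + 1) * Real.exp 1 * (Real.exp 1 * (n : ℝ) ^ (n + 1)) := by ring
      _ ≤ ((n : ℝ) + 1) * Real.exp 1 * (((n : ℝ) + 1) ^ (n + 1)) := by gcongr
      _ = _ := by ring

end Pool.Agent.H77.FB
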