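import Pool.Agent.H77.FB.Divi
import Pool.Agent.H77.FB.Coef

/-!
The points of an end over a given value of a linear coordinate.
-/

open Filter Topology

namespace Pool.Agent.H77.FB

/-- The implicit function theorem in the form that is used. -/
lemma ift {f : ℂ × ℂ → ℂ} (hf : ContDiffAt ℂ 1 f (0, 0)) (h0 : f (0, 0) = 0) {c : ℂ}
    (hc : c ≠ 0) (h1 : HasDerivAt (fun θ => f (0, θ)) c 0) :
    ∃ ψ : ℂ → ℂ, ψ 0 = 0 ∧ (∀ᶠ ε in 𝓝 0, f (ε, ψ ε) = 0) ∧
      ∀ᶠ ε in 𝓝 0, DifferentiableAt ℂ ψ ε := by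
  have h2 : (fderiv ℂ f (0, 0) ∘L .inr ℂ ℂ ℂ).IsInvertible := by
    refine ⟨ContinuousLinearEquiv.unitsEquivAut ℂ (Units.mk0 c hc), ?_⟩
    ext
    have h3 : HasFDerivAt f (fderiv ℂ f (0, 0)) (0, 0) :=
      (hf.differentiableAt one_ne_zero).hasFDerivAt
    have h4 : HasDerivAt (fun θ : ℂ => ((0 : ℂ), θ)) ((0 : ℂ), (1 : ℂ)) 0 :=
      (hasDerivAt_const _ _).prodMk (hasDerivAt_id _)
    have h5 := (h3.comp_hasDerivAt (0 : ℂ) h4).unique h1
    simp only [ContinuousLinearEquiv.coe_coe, ContinuousLinearEquiv.unitsEquivAut_apply,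
      Units.val_mk0, one_mul, ContinuousLinearMap.comp_apply, ContinuousLinearMap.inr_apply]
    exact h5.symm
  refine ⟨hf.implicitFunction one_ne_zero h2, hf.implicitFunction_apply_self one_ne_zero h2,
    ?_, ?_⟩
  · have := hf.eventually_apply_implicitFunction one_ne_zero h2
    rw [h0] at this
    exact this
  · have h3 := hf.contDiffAt_implicitFunction one_ne_zero h2
    have h4 := h3.eventually (by simp)
    filter_upwards [h4] with ε hε using hε.differentiableAt one_ne_zero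

namespace EndData

variable {m : ℕ} (D : EndData m)

lemma tendsto_inv_cocompact : Tendsto (fun u : ℂ => u⁻¹) (cocompact ℂ) (𝓝 0) := by
  rw [← Metric.cobounded_eq_cocompact]
  exact tendsto_inv₀_cobounded

lemma eventually_ne_cocompact : ∀ᶠ u : ℂ in cocompact ℂ, u ≠ 0 := by
  have h3 : ({0} : Set ℂ)ᶜ ∈ cocompact ℂ := isCompact_singleton.compl_mem_cocompact
  filter_upwards [h3] with u hu using hu

lemma an_ηc (j : Fin m) : AnalyticAt ℂ (D.ηc j) 0 := by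
  have h1 : DifferentiableOn ℂ (D.ηc j) (Metric.ball 0 D.R₀⁻¹) := fun ε hε =>
    (D.dηc j (by simpa using hε)).differentiableWithinAt
  exact h1.analyticAt (Metric.ball_mem_nhds _ (inv_pos.2 D.hR₀))

lemma root_fun (j : Fin m) {t : ℂ}
    (ht : (starRingEnd ℂ) (D.a j 0) - t * (starRingEnd ℂ) (D.a j 1) ≠ 0) :
    ∃ y : ℂ → ℂ, (∀ᶠ u in cocompact ℂ, D.R₀ < ‖y u‖ ∧
      D.z j (y u) 0 - t * D.z j (y u) 1 = u) ∧
      Tendsto (fun u => (y u)⁻¹) (cocompact ℂ) (𝓝 0) ∧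
      Tendsto (fun u => D.z j (y u) 1 / u) (cocompact ℂ)
        (𝓝 ((starRingEnd ℂ) (D.a j 1) /
          ((starRingEnd ℂ) (D.a j 0) - t * (starRingEnd ℂ) (D.a j 1)))) := by
  obtain ⟨L0, hL0⟩ : ∃ L0, L0 = (starRingEnd ℂ) (D.a j 0) - t * (starRingEnd ℂ) (D.a j 1) :=
    ⟨_, rfl⟩
  obtain ⟨L1, hL1⟩ : ∃ L1, L1 = (starRingEnd ℂ) (pp (D.a j) 0) -
    t * (starRingEnd ℂ) (pp (D.a j) 1) := ⟨_, rfl⟩
  rw [← hL0] at ht ⊢
  have hden : AnalyticAt ℂ (fun ε => L0 + ε * D.ηc j ε * L1) 0 :=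
    analyticAt_const.add ((analyticAt_id.mul (D.an_ηc j)).mul analyticAt_const)
  have hd0 : (fun ε => L0 + ε * D.ηc j ε * L1) 0 ≠ 0 := by simpa using ht
  set h : ℂ → ℂ := fun ε => ε * (L0 + ε * D.ηc j ε * L1)⁻¹ with hh
  have han : AnalyticAt ℂ h 0 := analyticAt_id.mul (hden.inv hd0)
  have hder : deriv h 0 = L0⁻¹ := by
    have h1 : HasDerivAt h (1 * (L0 + 0 * D.ηc j 0 * L1)⁻¹ + 0 *
        deriv (fun ε => (L0 + ε * D.ηc j ε * L1)⁻¹) 0) 0 :=
      (hasDerivAt_id (0 : ℂ)).mul (hden.inv hd0).differentiableAt.hasDerivAt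
    rw [h1.deriv]
    simp
  have hder0 : deriv h 0 ≠ 0 := by rw [hder]; exact inv_ne_zero ht
  have hst := han.hasStrictDerivAt
  set k := hst.localInverse _ _ _ hder0 with hk
  have hh0 : h 0 = 0 := by simp [hh]
  have hk1 : ∀ᶠ δ in 𝓝 (0 : ℂ), h (k δ) = δ := by
    have := HasStrictDerivAt.eventually_right_inverse (hf := hst) (hf' := hder0)
    rw [hh0] at this
    exact this
  have hk0 : k 0 = 0 := by
    have h1 := HasStrictDerivAt.eventually_left_inverse (hf := hst) (hf' := hder0)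
    have h2 := h1.self_of_nhds
    rw [hh0] at h2
    exact h2
  have hkc : Tendsto k (𝓝 0) (𝓝 0) := by
    have h1 := (hst.to_localInverse hder0).hasDerivAt.continuousAt
    rw [hh0] at h1
    have h2 : Tendsto k (𝓝 0) (𝓝 (k 0)) := h1
    rwa [hk0] at h2
  have hden' : ∀ᶠ ε in 𝓝 (0 : ℂ), L0 + ε * D.ηc j ε * L1 ≠ 0 :=
    hden.continuousAt.eventually_ne hd0
  -- the composite with the inversion
  have hku : Tendsto (fun u : ℂ => k u⁻¹) (cocompact ℂ) (𝓝 0) := hkc.comp tendsto_inv_cocompact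
  have e1 : ∀ᶠ u in cocompact ℂ, h (k u⁻¹) = u⁻¹ := tendsto_inv_cocompact.eventually hk1
  have e2 : ∀ᶠ u in cocompact ℂ, L0 + k u⁻¹ * D.ηc j (k u⁻¹) * L1 ≠ 0 := hku.eventually hden'
  have e3 : ∀ᶠ u in cocompact ℂ, ‖k u⁻¹‖ < D.R₀⁻¹ := by
    have h1 : ∀ᶠ ε in 𝓝 (0 : ℂ), ‖ε‖ < D.R₀⁻¹ := by
      have := Metric.ball_mem_nhds (0 : ℂ) (inv_pos.2 D.hR₀)
      filter_upwards [this] with ε hε
      simpa using hε
    exact hku.eventually h1
  have key : ∀ᶠ u in cocompact ℂ, k u⁻¹ ≠ 0 ∧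
      u = (k u⁻¹)⁻¹ * (L0 + k u⁻¹ * D.ηc j (k u⁻¹) * L1) := by
    filter_upwards [e1, e2, eventually_ne_cocompact] with u h1 h2 h3
    have h4 : k u⁻¹ ≠ 0 := by
      intro h5
      rw [h5, hh0] at h1
      exact h3 (inv_eq_zero.1 h1.symm)
    refine ⟨h4, ?_⟩
    have h5 : (h (k u⁻¹))⁻¹ = u := by rw [h1, inv_inv]
    rw [hh] at h5
    simp only at h5
    rw [mul_inv, inv_inv] at h5
    exact h5.symm
  have hz : ∀ u i, D.z j (k u⁻¹)⁻¹ i = (k u⁻¹)⁻¹ * (starRingEnd ℂ) (D.a j i) +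
      D.ηc j (k u⁻¹) * (starRingEnd ℂ) (pp (D.a j) i) := by
    intro u i
    rw [D.z_apply, inv_inv]
  refine ⟨fun u => (k u⁻¹)⁻¹, ?_, ?_, ?_⟩
  · filter_upwards [key, e3] with u ⟨h1, h2⟩ h3
    refine ⟨?_, ?_⟩
    · rw [norm_inv]
      exact (lt_inv_comm₀ (norm_pos_iff.2 h1) D.hR₀).1 h3
    · rw [hz, hz]
      generalize k u⁻¹ = ε at h1 h2
      generalize D.ηc j ε = e at h2
      rw [h2, hL0, hL1]
      field_simp
      ring
  · simpa using hku
  · have h1 : ContinuousAt (fun ε => ((starRingEnd ℂ) (D.a j 1) +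
        ε * D.ηc j ε * (starRingEnd ℂ) (pp (D.a j) 1)) / (L0 + ε * D.ηc j ε * L1)) 0 := by
      apply ContinuousAt.div _ hden.continuousAt hd0
      exact continuousAt_const.add
        ((continuousAt_id.mul (D.an_ηc j).continuousAt).mul continuousAt_const)
    have h2 := h1.tendsto.comp hku
    simp only [zero_mul, add_zero] at h2
    refine h2.congr' ?_
    filter_upwards [key, e2] with u ⟨h3, h4⟩ h5
    rw [Function.comp_apply, hz]
    generalize k u⁻¹ = ε at h3 h4 h5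
    generalize D.ηc j ε = e at h4 h5
    rw [h4]
    field_simp

end EndData

end Pool.Agent.H77.FB
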