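import Pool.Agent.H77.FB.Surj

/-!
The surjectivity theorem for curves with ends of distinct directions.
-/

open MeasureTheory Filter BoundedContinuousFunction

namespace Pool.Agent.H77.FB

lemma expType_sub {n : ℕ} {f g : (Fin n → ℂ) → ℂ} (hf : ExpType f) (hg : ExpType g) :
    ExpType (fun z => f z - g z) :=
  (ExpT n).sub_mem (show f ∈ ExpT n from hf) (show g ∈ ExpT n from hg)

lemma expType_fb {n : ℕ} {T : ((Fin n → ℂ) → ℂ) → ℂ} (hT : AnFunctional T) :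
    ExpType (fourierBorel T) :=
  borel_mem (bund_isAF hT)

namespace EndData

variable {m : ℕ} (D : EndData m)

/-- The pairing. -/
noncomputable def pr (B : ℝ) (ν σ : Fin m × ℕ →ᵇ ℂ) : ℂ :=
  ∑' p : Fin m × ℕ, (starRingEnd ℂ) (ν p) * σ p * ((B : ℂ) ^ (2 * p.2) / p.2.factorial)

lemma summ_fac (m : ℕ) (B : ℝ) : Summable (fun p : Fin m × ℕ => (B ^ 2) ^ p.2 / p.2.factorial) := by
  rw [summable_prod_of_nonneg fun p => by positivity]
  exact ⟨fun _ => Real.summable_pow_div_factorial (B ^ 2), Summable.of_finite⟩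

lemma pr_summable (B : ℝ) (ν σ : Fin m × ℕ →ᵇ ℂ) : Summable fun p : Fin m × ℕ =>
    (starRingEnd ℂ) (ν p) * σ p * ((B : ℂ) ^ (2 * p.2) / p.2.factorial) := by
  refine Summable.of_norm_bounded ((summ_fac m B).mul_left (‖ν‖ * ‖σ‖)) fun p => ?_
  rw [norm_mul, norm_mul, norm_div, norm_pow, Complex.norm_real, Complex.norm_natCast,
    RCLike.norm_conj, pow_mul, Real.norm_eq_abs, sq_abs]
  have h1 := ν.norm_coe_le_norm p
  have h2 := σ.norm_coe_le_norm p
  gcongr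

lemma pr_add (B : ℝ) (ν σ τ : Fin m × ℕ →ᵇ ℂ) : pr B ν (σ + τ) = pr B ν σ + pr B ν τ := by
  unfold pr
  rw [← (pr_summable B ν σ).tsum_add (pr_summable B ν τ)]
  congr 1
  funext p
  change (starRingEnd ℂ) (ν p) * (σ p + τ p) * _ = _
  ring

lemma pr_smul (B : ℝ) (ν σ : Fin m × ℕ →ᵇ ℂ) (c : ℂ) : pr B ν (c • σ) = c * pr B ν σ := by
  unfold pr
  rw [← tsum_mul_left]
  congr 1
  funext p
  change (starRingEnd ℂ) (ν p) * (c * σ p) * _ = _
  ring

lemma pr_self (B : ℝ) (hB : 0 < B) (ν : Fin m × ℕ →ᵇ ℂ) (h : pr B ν ν = 0) : ν = 0 := by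
  have h1 : pr B ν ν = ((∑' p : Fin m × ℕ, ‖ν p‖ ^ 2 * ((B ^ 2) ^ p.2 / p.2.factorial) : ℝ) : ℂ) := by
    unfold pr
    rw [Complex.ofReal_tsum]
    congr 1
    funext p
    push_cast
    rw [← Complex.conj_mul', pow_mul]
  have h2 : Summable fun p : Fin m × ℕ => ‖ν p‖ ^ 2 * ((B ^ 2) ^ p.2 / p.2.factorial) := by
    refine Summable.of_nonneg_of_le (fun p => by positivity) (fun p => ?_)
      ((summ_fac m B).mul_left (‖ν‖ ^ 2))
    have := ν.norm_coe_le_norm p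
    gcongr
  rw [h1] at h
  have h3 : ∑' p : Fin m × ℕ, ‖ν p‖ ^ 2 * ((B ^ 2) ^ p.2 / p.2.factorial) = 0 := by
    exact_mod_cast h
  have h4 := (hasSum_zero_iff_of_nonneg (fun p => by positivity)).1 (h3 ▸ h2.hasSum)
  ext p
  have h5 := congrFun h4 p
  simp only [Pi.zero_apply] at h5
  have h6 : (B ^ 2) ^ p.2 / (p.2.factorial : ℝ) ≠ 0 := by positivity
  have h7 := (mul_eq_zero.1 h5).resolve_right h6
  rw [BoundedContinuousFunction.coe_zero, Pi.zero_apply]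
  exact norm_eq_zero.1 ((pow_eq_zero_iff two_ne_zero).1 h7)

/-- The pairing with the coefficients of an entire function. -/
lemma pr_sg {B : ℝ} (hB : 0 < B) {s : (Fin 2 → ℂ) → ℂ} (hs : Differentiable ℂ s)
    (ν σ : Fin m × ℕ →ᵇ ℂ) (hσ : ∀ q, σ q = D.sg q.1 q.2 s / (B : ℂ) ^ q.2) :
    pr B ν σ = (starRingEnd ℂ) (D.T B ν (fun w => (starRingEnd ℂ) (s (cj w)))) := by
  unfold pr T
  rw [Complex.conj_tsum]
  congr 1
  funext p
  have hB' : (B : ℂ) ^ p.2 ≠ 0 := pow_ne_zero _ (by exact_mod_cast hB.ne')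
  have hf : (p.2.factorial : ℂ) ≠ 0 := by exact_mod_cast Nat.factorial_ne_zero _
  rw [map_mul, D.conj_cf p.1 p.2 hs, map_mul, map_pow, Complex.conj_ofReal, hσ]
  unfold sg
  rw [pow_mul, pow_right_comm, pow_two ((B : ℂ) ^ p.2)]
  field_simp

/-- From vanishing coefficients to the division. -/
lemma decay_z {s : (Fin 2 → ℂ) → ℂ} (hs : Differentiable ℂ s) (j : Fin m)
    (h : ∀ N, D.sg j N s = 0) :
    ∃ C R' : ℝ, ∀ y, R' ≤ ‖y‖ → ‖s (D.z j y)‖ ≤ C / ‖y‖ := by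
  obtain ⟨C, hC⟩ := decay_of_coeff (F := fun y => s (D.z j y)) D.R₀_le D.hR
    (fun y hy => (hs (D.z j y)).comp y (D.dz' j hy)) (fun N => by
      have h1 := h N
      unfold sg at h1
      have h2 : (N.factorial : ℂ) ≠ 0 := by exact_mod_cast Nat.factorial_ne_zero _
      have h3 := (mul_eq_zero.1 h1).resolve_left h2
      rw [← h3]
      congr 1
      funext x
      rw [zpow_neg, inv_pow, zpow_natCast])
  exact ⟨C, D.R + 1, hC⟩

theorem surj {P : MvPolynomial (Fin 2) ℂ}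
    (hP : ∀ i x, D.R₀ < ‖x‖ → MvPolynomial.eval (D.ζ i x) P = 0)
    (hdiv : ∀ s : (Fin 2 → ℂ) → ℂ, ExpType s →
      (∀ j, ∃ C R' : ℝ, ∀ y, R' ≤ ‖y‖ → ‖s (D.z j y)‖ ≤ C / ‖y‖) →
      ∃ g, ExpType g ∧ ∀ z, s z = starEval P z * g z) : PhiSurjective P := by
  intro s hs
  obtain ⟨B₁, H₁⟩ := D.oper
  obtain ⟨B₂, H₂⟩ := D.sg_bound hs
  set B : ℝ := max 1 (max B₁ B₂) with hBdef
  have hB : 0 < B := lt_of_lt_of_le one_pos (le_max_left _ _)
  obtain ⟨hsum, U, F, hU, hF, hM⟩ := H₁ B ((le_max_left _ _).trans (le_max_right _ _))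
  obtain ⟨C, hC⟩ := H₂ B ((le_max_right _ _).trans (le_max_right _ _))
  have hop : ∀ ψ q, (U + F) ψ q = D.sg q.1 q.2 (fourierBorel (D.T B ψ)) / (B : ℂ) ^ q.2 := by
    intro ψ q
    rw [hM, D.sg_op hB hsum]
  have hBq : ∀ q : ℕ, (B : ℂ) ^ q ≠ 0 := fun q => pow_ne_zero _ (by exact_mod_cast hB.ne')
  -- the kernel consists of vanishing functionals
  have hker : ∀ ν, (U + F) ν = 0 → ∀ f, Differentiable ℂ f → D.T B ν f = 0 := by
    intro ν hν
    have h1 : ∀ j N, D.sg j N (fourierBorel (D.T B ν)) = 0 := by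
      intro j N
      have h2 := hop ν (j, N)
      rw [hν] at h2
      have h3 : D.sg j N (fourierBorel (D.T B ν)) / (B : ℂ) ^ N = 0 := h2.symm
      exact (div_eq_zero_iff.1 h3).resolve_right (hBq N)
    have hE := expType_fb (D.T_an hB ν)
    obtain ⟨g, hg, hg'⟩ := hdiv _ hE (fun j => D.decay_z hE.1 j (h1 j))
    exact phiInjective P (D.T B ν) (D.T_an hB ν) (D.T_ann hP ν) ⟨g, hg, hg'⟩
  let K : Submodule ℂ (Fin m × ℕ →ᵇ ℂ) :=
    { carrier := {σ | ∀ ν, (U + F) ν = 0 → pr B ν σ = 0}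
      add_mem' := fun {σ τ} hσ hτ ν hν => by rw [pr_add, hσ ν hν, hτ ν hν, add_zero]
      zero_mem' := fun ν _ => by
        have := pr_smul B ν 0 0
        simpa using this
      smul_mem' := fun c σ hσ ν hν => by rw [pr_smul, hσ ν hν, mul_zero] }
  have hmem : ∀ {s : (Fin 2 → ℂ) → ℂ}, Differentiable ℂ s → ∀ σ : Fin m × ℕ →ᵇ ℂ,
      (∀ q, σ q = D.sg q.1 q.2 s / (B : ℂ) ^ q.2) → σ ∈ K := by
    intro s hs σ hσ ν hν
    rw [D.pr_sg hB hs ν σ hσ, hker ν hν _ (differentiable_conj hs), map_zero]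
  have hK : ∀ ψ, (U + F) ψ ∈ K := fun ψ =>
    hmem (expType_fb (D.T_an hB ψ)).1 _ (hop ψ)
  have hN : ∀ ν, (U + F) ν = 0 → ν ∈ K → ν = 0 := fun ν hν hνK =>
    pr_self B hB ν (hνK ν hν)
  -- the coefficients of s
  set σ : Fin m × ℕ →ᵇ ℂ := BoundedContinuousFunction.ofNormedAddCommGroupDiscrete
    (fun q => D.sg q.1 q.2 s / (B : ℂ) ^ q.2) C (fun q => by
      rw [norm_div, norm_pow, Complex.norm_real, Real.norm_of_nonneg hB.le,
        div_le_iff₀ (by positivity)]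
      exact hC q.1 q.2) with hσ
  have hσ' : ∀ q, σ q = D.sg q.1 q.2 s / (B : ℂ) ^ q.2 := fun q => rfl
  obtain ⟨ψ, hψ⟩ := fredholm hU hF hK hN σ (hmem hs.1 σ hσ')
  have hT := D.T_an hB ψ
  have hh := expType_fb hT
  have hsub : ExpType (fun z => s z - fourierBorel (D.T B ψ) z) := expType_sub hs hh
  have hsg : ∀ j N, D.sg j N (fun z => s z - fourierBorel (D.T B ψ) z) = 0 := by
    intro j N
    have h1 : D.sg j N (fourierBorel (D.T B ψ)) = D.sg j N s := by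
      have h2 := hop ψ (j, N)
      rw [hψ, hσ' (j, N)] at h2
      have h3 : D.sg j N s / (B : ℂ) ^ N
        = D.sg j N (fourierBorel (D.T B ψ)) / (B : ℂ) ^ N := h2
      exact ((div_left_inj' (hBq N)).1 h3).symm
    have h4 : D.sg j N (fun z => s z - fourierBorel (D.T B ψ) z)
        = D.sg j N s - D.sg j N (fourierBorel (D.T B ψ)) := by
      unfold sg
      rw [← mul_sub]
      congr 1
      have hc : ∀ {f : (Fin 2 → ℂ) → ℂ}, Differentiable ℂ f →
          ContinuousOn (fun y => f (D.z j y) * y ^ (-(N : ℤ))) {y | ‖y‖ = D.R} := by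
        intro f hf y hy
        have hy' : D.R₀ < ‖y‖ := by rw [show ‖y‖ = D.R from hy]; exact D.hR
        exact (((hf (D.z j y)).comp y (D.dz' j hy')).mul
          (diff_zpow D.R₀_le _ y hy')).continuousAt.continuousWithinAt
      rw [← av_sub D.Rpos.le (hc hs.1) (hc hh.1)]
      congr 1
      funext y
      ring
    rw [h4, h1, sub_self]
  obtain ⟨g, hg, hg'⟩ := hdiv _ hsub (fun j => D.decay_z hsub.1 j (hsg j))
  exact ⟨D.T B ψ, g, hT, D.T_ann hP ψ, hg, fun z => by rw [← hg' z]; ring⟩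

end EndData

end Pool.Agent.H77.FB
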