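import Pool.Agent.H77.FB.Loc

/-!
The ends of a plane curve whose leading form is a product of distinct lines.
-/

open Filter Topology

namespace Pool.Agent.H77.FB

/-- The homogenization. -/
noncomputable def hmg (N : ℕ) (Q : MvPolynomial (Fin 2) ℂ) (ε z0 z1 : ℂ) : ℂ :=
  ∑ d ∈ Q.support, Q.coeff d * (ε ^ (N - (d 0 + d 1)) * (z0 ^ d 0 * z1 ^ d 1))

lemma hmg_eq {N : ℕ} {Q : MvPolynomial (Fin 2) ℂ} (hQ : Q.totalDegree ≤ N) {ε : ℂ} (hε : ε ≠ 0)
    (z0 z1 : ℂ) :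
    hmg N Q ε z0 z1 = ε ^ N * MvPolynomial.eval ![ε⁻¹ * z0, ε⁻¹ * z1] Q := by
  rw [MvPolynomial.eval_eq', Finset.mul_sum]
  apply Finset.sum_congr rfl
  intro d hd
  have h1 : d 0 + d 1 ≤ N := by
    have := MvPolynomial.le_totalDegree hd
    rw [Finsupp.sum_fintype _ _ (fun _ => rfl), Fin.sum_univ_two] at this
    omega
  rw [Fin.prod_univ_two]
  simp only [Matrix.cons_val_zero, Matrix.cons_val_one]
  obtain ⟨k, hk⟩ := Nat.exists_eq_add_of_le h1
  rw [hk, Nat.add_sub_cancel_left, pow_add, pow_add, mul_pow, mul_pow]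
  have h2 : ε ^ d 0 * ε⁻¹ ^ d 0 = 1 := by rw [← mul_pow, mul_inv_cancel₀ hε, one_pow]
  have h3 : ε ^ d 1 * ε⁻¹ ^ d 1 = 1 := by rw [← mul_pow, mul_inv_cancel₀ hε, one_pow]
  calc MvPolynomial.coeff d Q * (ε ^ k * (z0 ^ d 0 * z1 ^ d 1))
      = MvPolynomial.coeff d Q * (ε ^ k * (z0 ^ d 0 * z1 ^ d 1)) * (ε ^ d 0 * ε⁻¹ ^ d 0) *
        (ε ^ d 1 * ε⁻¹ ^ d 1) := by rw [h2, h3]; ring
    _ = _ := by ring

/-- The equation of an end. -/
noncomputable def eqn {m : ℕ} (α β : Fin m → ℂ) (Q : MvPolynomial (Fin 2) ℂ)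
    (a0 a1 b0 b1 : ℂ) (q : ℂ × ℂ) : ℂ :=
  ∏ j, (α j * (a0 + q.2 * b0) + β j * (a1 + q.2 * b1)) +
    q.1 * hmg (m - 1) Q q.1 (a0 + q.2 * b0) (a1 + q.2 * b1)

lemma contDiff_eqn {m : ℕ} (α β : Fin m → ℂ) (Q : MvPolynomial (Fin 2) ℂ)
    (a0 a1 b0 b1 : ℂ) : ContDiff ℂ 1 (eqn α β Q a0 a1 b0 b1) := by
  have h1 : ∀ a b : ℂ, ContDiff ℂ 1 (fun q : ℂ × ℂ => a + q.2 * b) := fun a b =>
    contDiff_const.add (contDiff_snd.mul contDiff_const)
  unfold eqn hmg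
  apply ContDiff.add
  · apply contDiff_prod
    intro j _
    exact (contDiff_const.mul (h1 _ _)).add (contDiff_const.mul (h1 _ _))
  · apply contDiff_fst.mul
    apply ContDiff.sum
    intro d _
    exact contDiff_const.mul ((contDiff_fst.pow _).mul (((h1 _ _).pow _).mul ((h1 _ _).pow _)))

lemma eqn_deriv {m : ℕ} (α β : Fin m → ℂ) (Q : MvPolynomial (Fin 2) ℂ)
    (a0 a1 b0 b1 : ℂ) (i : Fin m) (hi : α i * a0 + β i * a1 = 0) :
    HasDerivAt (fun θ => eqn α β Q a0 a1 b0 b1 (0, θ))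
      ((α i * b0 + β i * b1) * ∏ j ∈ Finset.univ.erase i, (α j * a0 + β j * a1)) 0 := by
  have h1 : (fun θ => eqn α β Q a0 a1 b0 b1 (0, θ)) = fun θ => (θ * (α i * b0 + β i * b1)) *
      ∏ j ∈ Finset.univ.erase i, (α j * (a0 + θ * b0) + β j * (a1 + θ * b1)) := by
    funext θ
    unfold eqn
    simp only [zero_mul, add_zero]
    rw [← Finset.mul_prod_erase Finset.univ _ (Finset.mem_univ i)]
    congr 1
    linear_combination hi
  rw [h1]
  set g : ℂ → ℂ := fun θ => ∏ j ∈ Finset.univ.erase i,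
    (α j * (a0 + θ * b0) + β j * (a1 + θ * b1)) with hg
  have h2 : DifferentiableAt ℂ g 0 := by
    apply DifferentiableAt.fun_finsetProd
    intro j _
    fun_prop
  have h3 : HasDerivAt (fun θ : ℂ => θ * (α i * b0 + β i * b1)) (α i * b0 + β i * b1) 0 := by
    simpa using (hasDerivAt_id (0 : ℂ)).mul_const (α i * b0 + β i * b1)
  have h4 := h3.mul h2.hasDerivAt
  have h5 : (α i * b0 + β i * b1) * ∏ j ∈ Finset.univ.erase i, (α j * a0 + β j * a1)
      = (α i * b0 + β i * b1) * g 0 + 0 * (α i * b0 + β i * b1) * deriv g 0 := by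
    rw [hg]
    simp
  rw [h5]
  exact h4

lemma eval_of_eqn {m : ℕ} {α β : Fin m → ℂ} {P Q : MvPolynomial (Fin 2) ℂ}
    (hP : P = ∏ j, (MvPolynomial.C (α j) * MvPolynomial.X 0 +
      MvPolynomial.C (β j) * MvPolynomial.X 1) + Q) (hQ : Q.totalDegree < m)
    {a0 a1 b0 b1 ε θ : ℂ} (hε : ε ≠ 0) (h : eqn α β Q a0 a1 b0 b1 (ε, θ) = 0) :
    MvPolynomial.eval ![ε⁻¹ * (a0 + θ * b0), ε⁻¹ * (a1 + θ * b1)] P = 0 := by
  unfold eqn at h
  simp only at h
  rw [hmg_eq (by omega : Q.totalDegree ≤ m - 1) hε, ← mul_assoc, ← pow_succ',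
    Nat.sub_add_cancel (by omega : 1 ≤ m)] at h
  have h1 : ε ^ m ≠ 0 := pow_ne_zero _ hε
  apply (mul_eq_zero.1 (_ : ε ^ m * _ = 0)).resolve_left h1
  rw [← h, hP, map_add, mul_add, map_prod]
  congr 1
  have h2 : ε ^ m = ∏ _j : Fin m, ε := by
    rw [Finset.prod_const, Finset.card_univ, Fintype.card_fin]
  rw [h2, ← Finset.prod_mul_distrib]
  apply Finset.prod_congr rfl
  intro j _
  simp only [map_add, map_mul, MvPolynomial.eval_C, MvPolynomial.eval_X, Matrix.cons_val_zero,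
    Matrix.cons_val_one]
  field_simp

lemma exists_eta {m : ℕ} {α β : Fin m → ℂ} {P Q : MvPolynomial (Fin 2) ℂ}
    (hP : P = ∏ j, (MvPolynomial.C (α j) * MvPolynomial.X 0 +
      MvPolynomial.C (β j) * MvPolynomial.X 1) + Q) (hQ : Q.totalDegree < m)
    {a0 a1 b0 b1 : ℂ} (i : Fin m) (hi : α i * a0 + β i * a1 = 0)
    (hb : α i * b0 + β i * b1 ≠ 0) (hj : ∀ j, j ≠ i → α j * a0 + β j * a1 ≠ 0) :
    ∃ η : ℂ → ℂ, (∀ᶠ ε in 𝓝 0, DifferentiableAt ℂ η ε) ∧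
      ∀ᶠ ε in 𝓝 0, ε ≠ 0 →
        MvPolynomial.eval ![ε⁻¹ * a0 + η ε * b0, ε⁻¹ * a1 + η ε * b1] P = 0 := by
  have h0 : eqn α β Q a0 a1 b0 b1 (0, 0) = 0 := by
    unfold eqn
    simp only [zero_mul, add_zero]
    exact Finset.prod_eq_zero (Finset.mem_univ i) hi
  have hc : (α i * b0 + β i * b1) * ∏ j ∈ Finset.univ.erase i, (α j * a0 + β j * a1) ≠ 0 :=
    mul_ne_zero hb (Finset.prod_ne_zero_iff.2 fun j hj' => hj j (Finset.ne_of_mem_erase hj'))
  obtain ⟨ψ, hψ0, hψ1, hψ2⟩ := ift (contDiff_eqn α β Q a0 a1 b0 b1).contDiffAt h0 hc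
    (eqn_deriv α β Q a0 a1 b0 b1 i hi)
  refine ⟨dslope ψ 0, ?_, ?_⟩
  · obtain ⟨r, hr, hr'⟩ := Metric.eventually_nhds_iff_ball.1 hψ2
    have h1 : DifferentiableOn ℂ ψ (Metric.ball 0 r) := fun ε hε =>
      (hr' ε hε).differentiableWithinAt
    have h2 := (Complex.differentiableOn_dslope (Metric.ball_mem_nhds (0 : ℂ) hr)).2 h1
    filter_upwards [Metric.ball_mem_nhds (0 : ℂ) hr] with ε hε
    exact h2.differentiableAt (Metric.isOpen_ball.mem_nhds hε)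
  · filter_upwards [hψ1] with ε hε hε0
    have h1 := eval_of_eqn hP hQ hε0 hε
    have h2 : ε * dslope ψ 0 ε = ψ ε := by
      have := sub_smul_dslope ψ 0 ε
      rw [hψ0, sub_zero, sub_zero, smul_eq_mul] at this
      exact this
    rw [← h2] at h1
    refine (congrArg (fun v => MvPolynomial.eval v P) ?_).trans h1
    funext k
    fin_cases k
    · change ε⁻¹ * a0 + dslope ψ 0 ε * b0 = ε⁻¹ * (a0 + ε * dslope ψ 0 ε * b0)
      field_simp
    · change ε⁻¹ * a1 + dslope ψ 0 ε * b1 = ε⁻¹ * (a1 + ε * dslope ψ 0 ε * b1)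
      field_simp

theorem exists_ends {m : ℕ} {α β : Fin m → ℂ} {P Q : MvPolynomial (Fin 2) ℂ}
    (hP : P = ∏ j, (MvPolynomial.C (α j) * MvPolynomial.X 0 +
      MvPolynomial.C (β j) * MvPolynomial.X 1) + Q) (hQ : Q.totalDegree < m)
    (h0 : ∀ j, α j ≠ 0 ∨ β j ≠ 0) (hne : ∀ i j, i ≠ j → α i * β j ≠ α j * β i) :
    ∃ D : EndData m, ∀ i x, D.R₀ < ‖x‖ → MvPolynomial.eval (D.ζ i x) P = 0 := by
  -- the unit vectors
  have hn : ∀ i, 0 < ‖α i‖ ^ 2 + ‖β i‖ ^ 2 := fun i => by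
    rcases h0 i with h | h
    · have := norm_pos_iff.2 h; positivity
    · have := norm_pos_iff.2 h; positivity
  set n : Fin m → ℝ := fun i => Real.sqrt (‖α i‖ ^ 2 + ‖β i‖ ^ 2) with hndef
  have hn0 : ∀ i, 0 < n i := fun i => Real.sqrt_pos.2 (hn i)
  have hn2 : ∀ i, n i ^ 2 = ‖α i‖ ^ 2 + ‖β i‖ ^ 2 := fun i => Real.sq_sqrt (hn i).le
  have hnc : ∀ i, (n i : ℂ) ≠ 0 := fun i => by exact_mod_cast (hn0 i).ne'
  have hnc2 : ∀ i, (n i : ℂ) ^ 2 = α i * (starRingEnd ℂ) (α i) + β i * (starRingEnd ℂ) (β i) := by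
    intro i
    rw [Complex.mul_conj', Complex.mul_conj']
    exact_mod_cast hn2 i
  set a : Fin m → Fin 2 → ℂ := fun i => ![β i / n i, -α i / n i] with ha
  have ha0 : ∀ i, a i 0 = β i / n i := fun i => rfl
  have ha1 : ∀ i, a i 1 = -α i / n i := fun i => rfl
  have hb0 : ∀ i, pp (a i) 0 = (starRingEnd ℂ) (α i) / n i := fun i => by
    change -((starRingEnd ℂ) (a i 1)) = _
    rw [ha1, map_div₀, map_neg, Complex.conj_ofReal]
    ring
  have hb1 : ∀ i, pp (a i) 1 = (starRingEnd ℂ) (β i) / n i := fun i => by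
    change (starRingEnd ℂ) (a i 0) = _
    rw [ha0, map_div₀, Complex.conj_ofReal]
  have hunit : ∀ i, a i 0 * (starRingEnd ℂ) (a i 0) + a i 1 * (starRingEnd ℂ) (a i 1) = 1 := by
    intro i
    rw [ha0, ha1, map_div₀, map_div₀, map_neg, Complex.conj_ofReal]
    have h1 := hnc i
    have h2 := hnc2 i
    field_simp
    rw [h2]
    ring
  have hang : ∀ i j, i ≠ j →
      ‖a i 0 * (starRingEnd ℂ) (a j 0) + a i 1 * (starRingEnd ℂ) (a j 1)‖ < 1 := by
    intro i j hij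
    have e : (a i 0 * (starRingEnd ℂ) (a j 0) + a i 1 * (starRingEnd ℂ) (a j 1)) *
      (starRingEnd ℂ) (a i 0 * (starRingEnd ℂ) (a j 0) + a i 1 * (starRingEnd ℂ) (a j 1))
      = (a i 0 * (starRingEnd ℂ) (a i 0) + a i 1 * (starRingEnd ℂ) (a i 1)) *
        (a j 0 * (starRingEnd ℂ) (a j 0) + a j 1 * (starRingEnd ℂ) (a j 1)) -
        (a i 0 * a j 1 - a j 0 * a i 1) *
          (starRingEnd ℂ) (a i 0 * a j 1 - a j 0 * a i 1) := by
      simp only [map_add, map_sub, map_mul, Complex.conj_conj]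
      ring
    rw [hunit, hunit, Complex.mul_conj', Complex.mul_conj'] at e
    have e' : ‖a i 0 * (starRingEnd ℂ) (a j 0) + a i 1 * (starRingEnd ℂ) (a j 1)‖ ^ 2
        = 1 * 1 - ‖a i 0 * a j 1 - a j 0 * a i 1‖ ^ 2 := by exact_mod_cast e
    have h1 : a i 0 * a j 1 - a j 0 * a i 1 ≠ 0 := by
      rw [ha0, ha0, ha1, ha1]
      have h2 := hne i j hij
      have h3 := hnc i
      have h4 := hnc j
      intro h5
      apply h2
      field_simp at h5
      linear_combination h5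
    have h2 := norm_pos_iff.2 h1
    have h3 := norm_nonneg (a i 0 * (starRingEnd ℂ) (a j 0) + a i 1 * (starRingEnd ℂ) (a j 1))
    nlinarith
  obtain ⟨κ, hκ0, hκ1, hκ⟩ : ∃ κ : ℝ, 0 ≤ κ ∧ κ < 1 ∧ ∀ i j, i ≠ j →
      ‖a i 0 * (starRingEnd ℂ) (a j 0) + a i 1 * (starRingEnd ℂ) (a j 1)‖ ≤ κ := by
    classical
    set f : Fin m × Fin m → NNReal := fun q => if q.1 = q.2 then 0 else
      ‖a q.1 0 * (starRingEnd ℂ) (a q.2 0) + a q.1 1 * (starRingEnd ℂ) (a q.2 1)‖₊ with hf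
    refine ⟨(Finset.univ.sup f : NNReal), NNReal.coe_nonneg _, ?_, fun i j hij => ?_⟩
    · have h1 : Finset.univ.sup f < 1 := by
        rw [Finset.sup_lt_iff (by simp)]
        intro q _
        rw [hf]
        simp only
        split_ifs with h
        · exact one_pos
        · rw [← NNReal.coe_lt_coe]
          exact hang q.1 q.2 h
      exact_mod_cast h1
    · have h1 : f (i, j) ≤ Finset.univ.sup f := Finset.le_sup (Finset.mem_univ (i, j))
      rw [hf] at h1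
      simp only [if_neg hij] at h1
      exact_mod_cast h1
  -- the functions
  have hex : ∀ i, ∃ η : ℂ → ℂ, (∀ᶠ ε in 𝓝 0, DifferentiableAt ℂ η ε) ∧
      ∀ᶠ ε in 𝓝 0, ε ≠ 0 →
        MvPolynomial.eval ![ε⁻¹ * a i 0 + η ε * pp (a i) 0, ε⁻¹ * a i 1 + η ε * pp (a i) 1] P = 0 := by
    intro i
    apply exists_eta hP hQ i
    · rw [ha0, ha1]; ring
    · rw [hb0, hb1]
      have h1 : α i * ((starRingEnd ℂ) (α i) / n i) + β i * ((starRingEnd ℂ) (β i) / n i)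
          = (n i : ℂ) := by
        have h2 := hnc i
        field_simp
        rw [hnc2]
      rw [h1]
      exact hnc i
    · intro j hj
      rw [ha0, ha1]
      have h1 := hne i j hj.symm
      have h2 := hnc i
      intro h3
      apply h1
      field_simp at h3
      linear_combination -h3
  choose η hη1 hη2 using hex
  have hη3 : ∀ i, ∀ᶠ ε in 𝓝 (0 : ℂ), ‖η i ε‖ ≤ ‖η i 0‖ + 1 := by
    intro i
    have h1 : ContinuousAt (η i) 0 := (hη1 i).self_of_nhds.continuousAt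
    have h2 := h1.norm.eventually_lt_const (u := ‖η i 0‖ + 1) (by linarith)
    filter_upwards [h2] with ε hε using hε.le
  obtain ⟨r, hr, hr'⟩ := Metric.eventually_nhds_iff_ball.1
    ((eventually_all.2 hη1).and ((eventually_all.2 hη2).and (eventually_all.2 hη3)))
  have hmem : ∀ ε : ℂ, ‖ε‖ < (r⁻¹)⁻¹ → ε ∈ Metric.ball (0 : ℂ) r := fun ε hε => by
    rw [inv_inv] at hε
    simpa using hε
  refine ⟨{
    R₀ := r⁻¹
    R := r⁻¹ + 1
    A := ∑ i, (‖η i 0‖ + 1)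
    κ := κ
    a := a
    η := η
    hR₀ := inv_pos.2 hr
    hR := by linarith
    unit := hunit
    κ0 := hκ0
    κ1 := hκ1
    ang := hκ
    A0 := Finset.sum_nonneg fun i _ => by positivity
    dη := fun i ε hε => (hr' ε (hmem ε hε)).1 i
    bη := fun i ε hε => ((hr' ε (hmem ε hε)).2.2 i).trans
      (Finset.single_le_sum (f := fun i => ‖η i 0‖ + 1) (fun _ _ => by positivity)
        (Finset.mem_univ i)) }, fun i x hx => ?_⟩
  have hx0 : x ≠ 0 := by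
    rw [← norm_pos_iff]
    exact (inv_pos.2 hr).trans hx
  have hx1 : ‖x⁻¹‖ < (r⁻¹)⁻¹ := by
    rw [norm_inv]
    exact inv_strictAnti₀ (inv_pos.2 hr) hx
  have h1 := (hr' x⁻¹ (hmem _ hx1)).2.1 i (inv_ne_zero hx0)
  rw [inv_inv] at h1
  refine (congrArg (fun v => MvPolynomial.eval v P) ?_).trans h1
  funext k
  fin_cases k
  · rfl
  · rfl

end Pool.Agent.H77.FB
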