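import Pool.Agent.H77.FB.Row

/-!
The operator of the kernels is a finite rank perturbation of a bijective operator.
-/

open MeasureTheory Filter BoundedContinuousFunction

namespace Pool.Agent.H77.FB

namespace EndData

variable {m : ℕ} (D : EndData m)

lemma block (j i : Fin m) {δ : ℝ} (hδ : 0 < δ) : ∃ B₀ : ℝ, ∀ B, B₀ ≤ B → ∃ w : ℕ → ℝ,
    (∃ W, ∀ N, w N ≤ W) ∧ (∃ N₀, ∀ N, N₀ ≤ N → w N ≤ δ) ∧
    ∀ N, (Summable fun k => ‖D.em B (j, N) (i, k)‖) ∧
      ∑' k, ‖D.em B (j, N) (i, k)‖ ≤ w N := by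
  suffices h : ∃ B₀ : ℝ, ∀ B, B₀ ≤ B → ∃ w : ℕ → ℝ, ∃ L, L < δ ∧ Tendsto w atTop (nhds L) ∧
      ∀ N, (Summable fun k => ‖D.em B (j, N) (i, k)‖) ∧
      ∑' k, ‖D.em B (j, N) (i, k)‖ ≤ w N by
    obtain ⟨B₀, h⟩ := h
    refine ⟨B₀, fun B hB => ?_⟩
    obtain ⟨w, L, hL, hw, hN⟩ := h B hB
    refine ⟨w, ?_, ?_, hN⟩
    · obtain ⟨W, hW⟩ := hw.bddAbove_range
      exact ⟨W, fun N => hW ⟨N, rfl⟩⟩
    · exact (hw.eventually_le_const hL).exists_forall_of_atTop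
  by_cases hij : i = j
  · subst hij
    set c : ℝ := Real.exp (D.A ^ 2) * Real.exp (D.R * D.R) with hc
    have hc0 : 0 < c := by positivity
    have hR := D.Rpos
    refine ⟨max (2 * D.R) (4 * c * D.R / δ), fun B hB => ?_⟩
    have hB1 : 2 * D.R ≤ B := (le_max_left _ _).trans hB
    have hB2 : 4 * c * D.R / δ ≤ B := (le_max_right _ _).trans hB
    have hBpos : 0 < B := by linarith
    refine ⟨fun N => c * (2 * D.R / B) + c * (D.R * D.R + Real.exp (D.R * B)) / (N + 1),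
      c * (2 * D.R / B) + 0, ?_, ?_, fun N => D.row_same i hB1 N⟩
    · rw [add_zero, ← mul_div_assoc, div_lt_iff₀ hBpos]
      rw [div_le_iff₀ hδ] at hB2
      nlinarith [mul_pos hc0 hR]
    · apply Tendsto.const_add
      exact tendsto_const_nhds.div_atTop
        (tendsto_atTop_add_const_right _ _ tendsto_natCast_atTop_atTop)
  · obtain ⟨B₀, -, H⟩ := D.row_off hij
    refine ⟨B₀, fun B hB => ?_⟩
    obtain ⟨w, hw, hN⟩ := H B hB
    exact ⟨w, 0, hδ, hw, hN⟩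

lemma rows : ∃ B₁ : ℝ, ∀ B, B₁ ≤ B → ∃ w : Fin m × ℕ → ℝ, ∃ W : ℝ, ∃ S : Finset (Fin m × ℕ),
    (∀ q, Summable fun p => ‖D.em B q p‖) ∧ (∀ q, ∑' p, ‖D.em B q p‖ ≤ w q) ∧
    (∀ q, w q ≤ W) ∧ ∀ q, q ∉ S → w q ≤ 1 / 2 := by
  have hδ : (0 : ℝ) < 1 / (2 * (m + 1)) := by positivity
  choose f hf using fun j i => D.block j i hδ
  refine ⟨∑ j, ∑ i, |f j i|, fun B hB => ?_⟩
  have hB' : ∀ j i, f j i ≤ B := by
    intro j i
    refine le_trans ?_ hB
    refine (le_abs_self _).trans ?_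
    refine (Finset.single_le_sum (f := fun i => |f j i|) (fun _ _ => abs_nonneg _)
      (Finset.mem_univ i)).trans ?_
    exact Finset.single_le_sum (f := fun j => ∑ i, |f j i|)
      (fun _ _ => Finset.sum_nonneg fun _ _ => abs_nonneg _) (Finset.mem_univ j)
  choose w hW hN hS using fun j i => hf j i B (hB' j i)
  choose W hW using hW
  choose N₀ hN₀ using hN
  set NN : ℕ := ∑ j, ∑ i, N₀ j i with hNN
  have hNN' : ∀ j i, N₀ j i ≤ NN := by
    intro j i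
    refine (Finset.single_le_sum (f := fun i => N₀ j i) (fun _ _ => Nat.zero_le _)
      (Finset.mem_univ i)).trans ?_
    exact Finset.single_le_sum (f := fun j => ∑ i, N₀ j i)
      (fun _ _ => Nat.zero_le _) (Finset.mem_univ j)
  have hsum : ∀ q : Fin m × ℕ, Summable fun p => ‖D.em B q p‖ := by
    rintro ⟨j, N⟩
    rw [summable_prod_of_nonneg fun _ => norm_nonneg _]
    exact ⟨fun i => (hS j i N).1, Summable.of_finite⟩
  refine ⟨fun q => ∑ i, w q.1 i q.2, ∑ j, ∑ i, |W j i|, Finset.univ ×ˢ Finset.range NN, hsum,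
    ?_, ?_, ?_⟩
  · rintro ⟨j, N⟩
    rw [(hsum (j, N)).tsum_prod, tsum_fintype]
    exact Finset.sum_le_sum fun i _ => (hS j i N).2
  · rintro ⟨j, N⟩
    refine (Finset.sum_le_sum fun i _ => (hW j i N).trans (le_abs_self _)).trans ?_
    exact Finset.single_le_sum (f := fun j => ∑ i, |W j i|)
      (fun _ _ => Finset.sum_nonneg fun _ _ => abs_nonneg _) (Finset.mem_univ j)
  · rintro ⟨j, N⟩ hq
    have hN : NN ≤ N := by
      by_contra h
      exact hq (Finset.mem_product.2 ⟨Finset.mem_univ _, Finset.mem_range.2 (not_le.1 h)⟩)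
    calc ∑ i, w j i N ≤ ∑ _i : Fin m, (1 : ℝ) / (2 * (m + 1)) :=
          Finset.sum_le_sum fun i _ => hN₀ j i N ((hNN' j i).trans hN)
      _ = m * (1 / (2 * (m + 1))) := by
          rw [Finset.sum_const, Finset.card_univ, Fintype.card_fin, nsmul_eq_mul]
      _ ≤ 1 / 2 := by
          rw [mul_one_div, div_le_div_iff₀ (by positivity) (by norm_num)]
          have : (0 : ℝ) ≤ m := by positivity
          nlinarith

/-- The operator, for all large `B`. -/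
lemma oper : ∃ B₁ : ℝ, ∀ B, B₁ ≤ B → (∀ q, Summable fun p => ‖D.em B q p‖) ∧
    ∃ U F : (Fin m × ℕ →ᵇ ℂ) →ₗ[ℂ] (Fin m × ℕ →ᵇ ℂ), Function.Bijective U ∧
      FiniteDimensional ℂ (LinearMap.range F) ∧
      ∀ ψ q, (U + F) ψ q = D.d q.1 * ψ q + ∑' p, D.em B q p * ψ p := by
  obtain ⟨B₁, h⟩ := D.rows
  refine ⟨B₁, fun B hB => ?_⟩
  obtain ⟨w, W, S, h1, h2, h3, h4⟩ := h B hB
  refine ⟨h1, ?_⟩
  have h5 : ∀ q : Fin m × ℕ, ‖D.d q.1‖ ≤ ∑ i, ‖D.d i‖ := fun q =>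
    Finset.single_le_sum (f := fun i => ‖D.d i‖) (fun _ _ => norm_nonneg _) (Finset.mem_univ q.1)
  exact split_op (fun q => D.d q.1) _ h5 (fun q => D.one_le_d q.1) (D.em B) w W h1 h2 h3 S h4

end EndData

end Pool.Agent.H77.FB
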