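import Pool.Agent.H77.FB.Defs

open MvPolynomial MeasureTheory

namespace Pool.Agent.H77.FB

/-- The closed ball of radius `R` in `ℂ^n`. -/
abbrev Bl (n : ℕ) (R : ℝ) : Type := Metric.closedBall (0 : Fin n → ℂ) R

/-- Restriction of an entire function to a closed ball. -/
noncomputable def restr {n : ℕ} (R : ℝ) : Ent n →ₗ[ℂ] C(Bl n R, ℂ) where
  toFun f := ⟨fun z => f.1 z, (Differentiable.continuous f.2).comp continuous_subtype_val⟩
  map_add' _ _ := rfl
  map_smul' _ _ := rfl

lemma exists_ext {n : ℕ} {T : Ent n →ₗ[ℂ] ℂ} (hT : IsAF T) :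
    ∃ R : ℝ, 0 ≤ R ∧ ∃ S : StrongDual ℂ C(Bl n R, ℂ), ∀ f : Ent n, T f = S (restr R f) := by
  obtain ⟨R₀, C₀, h₀⟩ := hT
  set R := max R₀ 0
  have h : ∀ f : Ent n, ∀ A : ℝ, (∀ z, ‖z‖ ≤ R → ‖f.1 z‖ ≤ A) → ‖T f‖ ≤ C₀ * A :=
    fun f A hA => h₀ f A fun z hz => hA z (hz.trans (le_max_left _ _))
  refine ⟨R, le_max_right _ _, ?_⟩
  have hb : ∀ f : Ent n, ‖T f‖ ≤ C₀ * ‖restr R f‖ := by
    intro f
    refine h f _ fun z hz => ?_
    exact (restr R f).norm_coe_le_norm ⟨z, by simpa using hz⟩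
  have hker : LinearMap.ker (restr (n := n) R) ≤ LinearMap.ker T := by
    intro f hf
    rw [LinearMap.mem_ker] at hf ⊢
    have := hb f
    rw [hf, norm_zero, mul_zero] at this
    exact norm_le_zero_iff.1 this
  let T' : LinearMap.range (restr (n := n) R) →ₗ[ℂ] ℂ :=
    ((LinearMap.ker (restr (n := n) R)).liftQ T hker).comp
      (LinearMap.quotKerEquivRange (restr (n := n) R)).symm.toLinearMap
  have hT' : ∀ f : Ent n, T' ⟨restr R f, LinearMap.mem_range_self _ f⟩ = T f := by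
    intro f
    have h1 : (LinearMap.quotKerEquivRange (restr (n := n) R)).symm
        ⟨restr R f, LinearMap.mem_range_self _ f⟩ = Submodule.Quotient.mk f := by
      rw [LinearEquiv.symm_apply_eq]
      rfl
    change ((LinearMap.ker (restr (n := n) R)).liftQ T hker)
      ((LinearMap.quotKerEquivRange (restr (n := n) R)).symm
        ⟨restr R f, LinearMap.mem_range_self _ f⟩) = T f
    rw [h1]
    rfl
  let T'' : StrongDual ℂ (LinearMap.range (restr (n := n) R)) :=
    T'.mkContinuous C₀ (by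
      rintro ⟨_, f, rfl⟩
      rw [hT' f]
      exact hb f)
  obtain ⟨S, hS, -⟩ := exists_extension_norm_eq _ T''
  refine ⟨S, fun f => ?_⟩
  have h2 := hS ⟨restr R f, LinearMap.mem_range_self _ f⟩
  rw [h2]
  exact (hT' f).symm


/-- The coordinate functions on a closed ball. -/
noncomputable def coordK {n : ℕ} (R : ℝ) (j : Fin n) : C(Bl n R, ℂ) :=
  ⟨fun ζ => ζ.1 j, (continuous_apply j).comp continuous_subtype_val⟩

lemma restr_expo {n : ℕ} (R : ℝ) (z : Fin n → ℂ) :
    restr R (expo z) = NormedSpace.exp (∑ j, z j • coordK R j) := by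
  ext ζ
  have h := NormedSpace.map_exp (ContinuousMap.evalAlgHom ℂ ℂ ζ)
    (ContinuousMap.evalCLM ℂ (M := ℂ) ζ).continuous (∑ j, z j • coordK R j)
  change _ = (ContinuousMap.evalAlgHom ℂ ℂ ζ) (NormedSpace.exp (∑ j, z j • coordK R j))
  rw [h, ← Complex.exp_eq_exp_ℂ]
  change Complex.exp (∑ j, ζ.1 j * z j) = _
  congr 1
  rw [map_sum]
  refine Finset.sum_congr rfl fun j _ => ?_
  change _ = z j * ζ.1 j
  ring

lemma differentiable_restr_expo {n : ℕ} (R : ℝ) :
    Differentiable ℂ (fun z : Fin n → ℂ => restr R (expo z)) := by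
  have h1 : (fun z : Fin n → ℂ => restr R (expo z))
      = fun z : Fin n → ℂ => NormedSpace.exp (∑ j, z j • coordK R j) := by
    funext z; exact restr_expo R z
  rw [h1]
  have h2 : Differentiable ℂ (fun z : Fin n → ℂ => ∑ j, z j • coordK R j) := by
    fun_prop
  intro z
  exact (hasFDerivAt_exp (𝕂 := ℂ)).differentiableAt.comp z (h2 z)

lemma norm_expo_le {n : ℕ} (z ζ : Fin n → ℂ) :
    ‖(expo z).1 ζ‖ ≤ Real.exp (n * ‖ζ‖ * ‖z‖) := by
  change ‖Complex.exp (∑ j, ζ j * z j)‖ ≤ _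
  rw [Complex.norm_exp]
  apply Real.exp_le_exp.2
  calc (∑ j, ζ j * z j).re ≤ ‖∑ j, ζ j * z j‖ := Complex.re_le_norm _
    _ ≤ ∑ j, ‖ζ j * z j‖ := norm_sum_le _ _
    _ ≤ ∑ _j : Fin n, ‖ζ‖ * ‖z‖ := by
        refine Finset.sum_le_sum fun j _ => ?_
        rw [norm_mul]
        exact mul_le_mul (norm_le_pi_norm ζ j) (norm_le_pi_norm z j) (norm_nonneg _)
          (norm_nonneg _)
    _ = _ := by
        rw [Finset.sum_const, Finset.card_univ, Fintype.card_fin, nsmul_eq_mul]; ring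

/-- The Fourier-Borel transform of an analytic functional is an entire function of
exponential type. -/
lemma borel_mem {n : ℕ} {T : Ent n →ₗ[ℂ] ℂ} (hT : IsAF T) :
    (fun z : Fin n → ℂ => T (expo z)) ∈ ExpT n := by
  refine ⟨?_, ?_⟩
  · obtain ⟨R, -, S, hS⟩ := exists_ext hT
    have h1 : (fun z : Fin n → ℂ => T (expo z)) = fun z => S (restr R (expo z)) := by
      funext z; exact hS _
    rw [h1]
    exact S.differentiable.comp (differentiable_restr_expo R)
  · obtain ⟨R, C, h⟩ := hT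
    refine ⟨|C| + 1, by positivity, n * |R| + 1, by positivity, fun z => ?_⟩
    have h1 := h (expo z) (Real.exp (n * |R| * ‖z‖)) (fun ζ hζ => by
      refine (norm_expo_le z ζ).trans (Real.exp_le_exp.2 ?_)
      have : ‖ζ‖ ≤ |R| := hζ.trans (le_abs_self R)
      gcongr)
    have h2 : Real.exp (n * |R| * ‖z‖) ≤ Real.exp ((n * |R| + 1) * ‖z‖) := by
      apply Real.exp_le_exp.2
      have := norm_nonneg z
      nlinarith
    calc ‖T (expo z)‖ ≤ C * Real.exp (n * |R| * ‖z‖) := h1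
      _ ≤ (|C| + 1) * Real.exp ((n * |R| + 1) * ‖z‖) := by
          apply mul_le_mul _ h2 (Real.exp_pos _).le (by positivity)
          have := le_abs_self C
          linarith

/-- The Fourier-Borel transform, on the functionals that vanish on `P · H(ℂ^n)`. -/
noncomputable def borel {n : ℕ} (P : MvPolynomial (Fin n) ℂ) : Ann P →ₗ[ℂ] ExpT n where
  toFun T := ⟨fun z => T.1 (expo z), borel_mem T.2.1⟩
  map_add' _ _ := rfl
  map_smul' _ _ := rfl

/-- The polynomial with conjugated coefficients. -/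
noncomputable def star' {n : ℕ} (P : MvPolynomial (Fin n) ℂ) : MvPolynomial (Fin n) ℂ :=
  MvPolynomial.map (starRingEnd ℂ) P

/-- The map `Φ_P` of the problem: the class of the Fourier-Borel transform modulo
`P^* · Exp(ℂ^n)`. -/
noncomputable def Phi {n : ℕ} (P : MvPolynomial (Fin n) ℂ) :
    Ann P →ₗ[ℂ] ExpT n ⧸ LinearMap.range (mulExp (star' P)) :=
  (LinearMap.range (mulExp (star' P))).mkQ.comp (borel P)

end Pool.Agent.H77.FB
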