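import Pool.Agent.H77.FB.Hdiv
import Pool.Agent.H77.FB.Mk

/-!
Surjectivity for polynomials in two variables whose leading form is a product of distinct
lines.
-/

open MvPolynomial

namespace Pool.Agent.H77.FB

lemma totalDegree_map_le' {n : ℕ} (Q : MvPolynomial (Fin n) ℂ) :
    (MvPolynomial.map (starRingEnd ℂ) Q).totalDegree ≤ Q.totalDegree := by
  unfold MvPolynomial.totalDegree
  exact Finset.sup_mono (support_map_subset _ _)

theorem surj_plane {m : ℕ} {α β : Fin m → ℂ} {P Q : MvPolynomial (Fin 2) ℂ}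
    (hP : P = ∏ j, (C (α j) * X 0 + C (β j) * X 1) + Q) (hQ : Q.totalDegree < m)
    (h0 : ∀ j, α j ≠ 0 ∨ β j ≠ 0) (hne : ∀ i j, i ≠ j → α i * β j ≠ α j * β i) :
    PhiSurjective P := by
  obtain ⟨D, hD⟩ := exists_ends hP hQ h0 hne
  obtain ⟨M, rfl⟩ : ∃ M, m = M + 1 := ⟨m - 1, by omega⟩
  refine D.surj hD fun s hs hdec => ?_
  have hR : MvPolynomial.map (starRingEnd ℂ) P =
      ∏ j, (C ((starRingEnd ℂ) (α j)) * X 0 + C ((starRingEnd ℂ) (β j)) * X 1) +
        MvPolynomial.map (starRingEnd ℂ) Q := by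
    rw [hP, map_add, map_prod]
    simp only [map_add, map_mul, MvPolynomial.map_C, MvPolynomial.map_X]
  exact D.hdiv hR ((totalDegree_map_le' Q).trans_lt hQ)
    (fun j => (h0 j).imp (fun h => (map_ne_zero _).2 h) (fun h => (map_ne_zero _).2 h))
    (fun j y hy => by
      have h1 := eval_star' P (D.z j y)
      unfold star' at h1
      rw [h1]
      unfold EndData.z
      rw [cj_cj, hD j _ (by rwa [RCLike.norm_conj]), map_zero]) hs hdec

end Pool.Agent.H77.FB
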