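import Pool.Agent.H77.FB.Ends

/-!
Row sums of the matrix of the kernels.
-/

open MeasureTheory Filter

namespace Pool.Agent.H77.FB

lemma geo_le {t : ℝ} (ht0 : 0 ≤ t) (ht : t ≤ 1 / 2) (N : ℕ) :
    ∑ k ∈ Finset.range N, t ^ (N - k) ≤ 2 * t := by
  induction N with
  | zero => simp; exact ht0
  | succ n ih =>
    rw [Finset.sum_range_succ]
    have h1 : ∑ k ∈ Finset.range n, t ^ (n + 1 - k) = t * ∑ k ∈ Finset.range n, t ^ (n - k) := by
      rw [Finset.mul_sum]
      refine Finset.sum_congr rfl fun k hk => ?_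
      rw [Finset.mem_range] at hk
      rw [← pow_succ']
      congr 1
      omega
    rw [h1]
    have h2 : n + 1 - n = 1 := by omega
    rw [h2, pow_one]
    nlinarith

namespace EndData

variable {m : ℕ} (D : EndData m)

/-- The matrix of the operator minus its diagonal part. -/
noncomputable def em (B : ℝ) (q p : Fin m × ℕ) : ℂ :=
  (q.2.factorial : ℂ) * co (D.K q.1 p.1) D.R q.2 p.2 * (B : ℂ) ^ p.2 / (B : ℂ) ^ q.2
    - (if q = p then D.d q.1 else 0)

lemma norm_em_ne {B : ℝ} (hB : 0 < B) {q p : Fin m × ℕ} (h : q ≠ p) :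
    ‖D.em B q p‖ = (q.2.factorial : ℝ) * ‖co (D.K q.1 p.1) D.R q.2 p.2‖ * B ^ p.2 / B ^ q.2 := by
  unfold em
  rw [if_neg h, sub_zero, norm_div, norm_mul, norm_mul, Complex.norm_natCast, norm_pow, norm_pow,
    Complex.norm_real, Real.norm_of_nonneg hB.le]

lemma row_off {j i : Fin m} (h : i ≠ j) : ∃ B₀ : ℝ, 0 < B₀ ∧ ∀ B, B₀ ≤ B → ∃ w : ℕ → ℝ,
    Tendsto w atTop (nhds 0) ∧ ∀ N, (Summable fun k => ‖D.em B (j, N) (i, k)‖) ∧
      ∑' k, ‖D.em B (j, N) (i, k)‖ ≤ w N := by
  obtain ⟨q, hq0, hq1, B₀, hB₀, H⟩ := off_est (A := D.A + D.A ^ 2) D.R₀_le D.hR D.κ0 D.κ1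
    (D.K_hol j i) (fun y x hy hx => D.K_off h hy hx)
  refine ⟨B₀, hB₀, fun B hB => ?_⟩
  obtain ⟨ε, hε, hε0, He⟩ := H B hB
  have hBpos : 0 < B := hB₀.trans_le hB
  refine ⟨fun N => ε N * (1 - q)⁻¹, by simpa using hε.mul_const (1 - q)⁻¹, fun N => ?_⟩
  have h1 : ∀ k, ‖D.em B (j, N) (i, k)‖ ≤ ε N * q ^ k := by
    intro k
    have hne : (j, N) ≠ (i, k) := fun h' => h (congrArg Prod.fst h').symm
    rw [D.norm_em_ne hBpos hne, div_le_iff₀ (by positivity)]
    exact He N k
  have h2 : HasSum (fun k => ε N * q ^ k) (ε N * (1 - q)⁻¹) :=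
    (hasSum_geometric_of_lt_one hq0.le hq1).mul_left _
  have h3 : Summable fun k => ‖D.em B (j, N) (i, k)‖ :=
    Summable.of_nonneg_of_le (fun _ => norm_nonneg _) h1 h2.summable
  exact ⟨h3, (h3.tsum_le_tsum h1 h2.summable).trans h2.tsum_eq.le⟩

lemma row_same (i : Fin m) {B : ℝ} (hB : 2 * D.R ≤ B) (N : ℕ) :
    (Summable fun k => ‖D.em B (i, N) (i, k)‖) ∧
      ∑' k, ‖D.em B (i, N) (i, k)‖ ≤ (Real.exp (D.A ^ 2) * Real.exp (D.R * D.R)) *
        (2 * D.R / B) + (Real.exp (D.A ^ 2) * Real.exp (D.R * D.R)) *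
          (D.R * D.R + Real.exp (D.R * B)) / (N + 1) := by
  have hR := D.Rpos
  have hBpos : 0 < B := by linarith
  have hGH := D.GH_G i
  set c : ℝ := Real.exp (D.A ^ 2) * Real.exp (D.R * D.R) with hc
  have hc0 : 0 < c := by positivity
  have hK : D.K i i = fun y x => Complex.exp (x * y) * D.G i y⁻¹ x⁻¹ := by
    funext y x; exact D.K_same i y x
  set u : ℕ → ℝ := fun k => if k < N then c * (D.R / B) ^ (N - k) else
    if k = N then c * (D.R * D.R) / (N + 1) else
      c / (N + 1) * ((D.R * B) ^ (k - N) / (k - N).factorial) with hu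
  have h1 : ∀ k, ‖D.em B (i, N) (i, k)‖ ≤ u k := by
    intro k
    rw [hu]
    simp only
    split_ifs with hk hk'
    · have hne : (i, N) ≠ (i, k) := fun h' => hk.ne (congrArg Prod.snd h').symm
      rw [D.norm_em_ne hBpos hne, hK]
      have h2 := same_lt hGH hk.le
      rw [div_le_iff₀ (by positivity)]
      calc (N.factorial : ℝ) * _ * B ^ k
          ≤ (Real.exp (D.A ^ 2) * Real.exp (D.R * D.R) * D.R ^ (N - k)) * B ^ k := by gcongr
        _ = c * (D.R / B) ^ (N - k) * B ^ N := by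
            have h3 : B ^ N = B ^ (N - k) * B ^ k := by rw [← pow_add]; congr 1; omega
            rw [h3, div_pow, ← hc]
            field_simp
    · subst hk'
      unfold em
      rw [if_pos rfl, hK]
      have h2 := same_eq hGH k
      have h3 : (k.factorial : ℂ) * co (fun y x => Complex.exp (x * y) * D.G i y⁻¹ x⁻¹) D.R k k *
          (B : ℂ) ^ k / (B : ℂ) ^ k
          = (k.factorial : ℂ) * co (fun y x => Complex.exp (x * y) * D.G i y⁻¹ x⁻¹) D.R k k := by
        have : (B : ℂ) ^ k ≠ 0 := pow_ne_zero _ (by exact_mod_cast hBpos.ne')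
        field_simp
      change ‖(k.factorial : ℂ) * co (fun y x => Complex.exp (x * y) * D.G i y⁻¹ x⁻¹) D.R k k *
          (B : ℂ) ^ k / (B : ℂ) ^ k - D.d i‖ ≤ _
      rw [h3]
      refine h2.trans_eq ?_
      rw [hc]; ring
    · obtain ⟨j, rfl⟩ : ∃ j, k = N + j := ⟨k - N, by omega⟩
      have hj : 1 ≤ j := by omega
      have hne : (i, N) ≠ (i, N + j) := fun h' => by
        have := congrArg Prod.snd h'
        simp only at this
        omega
      rw [D.norm_em_ne hBpos hne, hK]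
      have h2 := same_gt hGH N j hj
      rw [div_le_iff₀ (by positivity)]
      have h4 : N + j - N = j := by omega
      rw [h4]
      calc (N.factorial : ℝ) * _ * B ^ (N + j)
          ≤ (Real.exp (D.A ^ 2) * Real.exp (D.R * D.R) / (N + 1) * (D.R ^ j / j.factorial)) *
            B ^ (N + j) := by gcongr
        _ = _ := by rw [hc, pow_add, mul_pow]; ring
  have h2 : HasSum u (c / (N + 1) * (Real.exp (D.R * B) - 1) +
      ∑ k ∈ Finset.range (N + 1), u k) := by
    rw [← hasSum_nat_add_iff (N + 1)]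
    have h3 := (hasSum_nat_add_iff' 1).2 (expo_sum (D.R * B))
    simp only [Finset.range_one, Finset.sum_singleton, pow_zero, Nat.factorial_zero,
      Nat.cast_one, div_one] at h3
    have h4 := h3.mul_left (c / (N + 1))
    refine h4.congr_fun fun j => ?_
    rw [hu]
    simp only
    rw [if_neg (by omega), if_neg (by omega)]
    have h5 : j + (N + 1) - N = j + 1 := by omega
    rw [h5]
  have h3 : Summable fun k => ‖D.em B (i, N) (i, k)‖ :=
    Summable.of_nonneg_of_le (fun _ => norm_nonneg _) h1 h2.summable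
  refine ⟨h3, (h3.tsum_le_tsum h1 h2.summable).trans ?_⟩
  rw [h2.tsum_eq, Finset.sum_range_succ]
  have h4 : ∑ k ∈ Finset.range N, u k = c * ∑ k ∈ Finset.range N, (D.R / B) ^ (N - k) := by
    rw [Finset.mul_sum]
    refine Finset.sum_congr rfl fun k hk => ?_
    rw [Finset.mem_range] at hk
    rw [hu]
    simp only
    rw [if_pos hk]
  have h5 : u N = c * (D.R * D.R) / (N + 1) := by
    rw [hu]
    simp
  have h6 := geo_le (t := D.R / B) (by positivity) (by
    rw [div_le_iff₀ hBpos]; linarith) N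
  rw [h4, h5]
  have h7 : c * ∑ k ∈ Finset.range N, (D.R / B) ^ (N - k) ≤ c * (2 * D.R / B) := by
    calc c * ∑ k ∈ Finset.range N, (D.R / B) ^ (N - k) ≤ c * (2 * (D.R / B)) := by gcongr
      _ = _ := by ring
  have h8 : c / ((N : ℝ) + 1) * (Real.exp (D.R * B) - 1) ≤ c * Real.exp (D.R * B) / (N + 1) := by
    rw [div_mul_eq_mul_div]
    gcongr
    linarith
  calc _ ≤ c * Real.exp (D.R * B) / (N + 1) + (c * (2 * D.R / B) + c * (D.R * D.R) / (N + 1)) := by
        gcongr
    _ = _ := by ring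

end EndData

end Pool.Agent.H77.FB
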