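import Pool.Agent.H77.FB.Func

/-!
Surjectivity of the transform, from the ends and a division property.
-/

open MeasureTheory Filter BoundedContinuousFunction

namespace Pool.Agent.H77.FB

namespace EndData

variable {m : ℕ} (D : EndData m)

lemma fb_z (B : ℝ) (ψ : Fin m × ℕ →ᵇ ℂ) (j : Fin m) (y : ℂ) :
    fourierBorel (D.T B ψ) (D.z j y)
      = ∑' p : Fin m × ℕ, av (fun x => D.K j p.1 y x * x ^ (-(p.2 : ℤ))) D.R *
        ((B : ℂ) ^ p.2 * ψ p) := rfl

/-- The coefficients of the transform along the conjugate ends. -/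
lemma sg_T {B : ℝ} (hB : 0 < B) (ψ : Fin m × ℕ →ᵇ ℂ) (j : Fin m) (N : ℕ) :
    D.sg j N (fourierBorel (D.T B ψ)) = (N.factorial : ℂ) *
      ∑' p : Fin m × ℕ, co (D.K j p.1) D.R N p.2 * ((B : ℂ) ^ p.2 * ψ p) := by
  unfold sg
  congr 1
  have hR := D.Rpos
  -- a bound for the kernels
  have hKc : ∀ i, ∃ M : ℝ, ∀ y x : ℂ, ‖y‖ = D.R → ‖x‖ = D.rr B → ‖D.K j i y x‖ ≤ M := by
    intro i
    have h1 : IsCompact (Metric.sphere (0 : ℂ) D.R ×ˢ Metric.sphere (0 : ℂ) (D.rr B)) :=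
      (isCompact_sphere _ _).prod (isCompact_sphere _ _)
    obtain ⟨M, hM⟩ := h1.exists_bound_of_continuousOn (f := Function.uncurry (D.K j i))
      (((D.K_hol j i).contS D.hR (D.rr_gt B)).mono (by
        rintro ⟨y, x⟩ ⟨hy, hx⟩
        exact ⟨by simpa using hy, by simpa using hx⟩))
    exact ⟨M, fun y x hy hx => hM (y, x) ⟨by simpa using hy, by simpa using hx⟩⟩
  choose M hM using hKc
  set MM : ℝ := ∑ i, |M i| with hMM
  have hMM' : ∀ i y x, ‖y‖ = D.R → ‖x‖ = D.rr B → ‖D.K j i y x‖ ≤ MM := fun i y x hy hx =>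
    ((hM i y x hy hx).trans (le_abs_self _)).trans
      (Finset.single_le_sum (f := fun i => |M i|) (fun _ _ => abs_nonneg _) (Finset.mem_univ i))
  have hMM0 : 0 ≤ MM := Finset.sum_nonneg fun _ _ => abs_nonneg _
  set F : Fin m × ℕ → ℂ → ℂ := fun p y =>
    av (fun x => D.K j p.1 y x * (x ^ (-(p.2 : ℤ)) * y ^ (-(N : ℤ)))) D.R *
      ((B : ℂ) ^ p.2 * ψ p) with hF
  have h2 := av_tsum (ι := Fin m × ℕ) (F := F)
    (u := fun p => MM * (D.R ^ N)⁻¹ * ‖ψ‖ * (1 / 2) ^ p.2) (r := D.R) hR.le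
    ((half_sum m).summable.mul_left _) (fun p => ?_) (fun p y hy => ?_)
  · have h3 : av (fun y => ∑' p, F p y) D.R
        = av (fun y => fourierBorel (D.T B ψ) (D.z j y) * y ^ (-(N : ℤ))) D.R := by
      congr 1
      funext y
      rw [fb_z, ← tsum_mul_right]
      congr 1
      funext p
      rw [hF]
      simp only
      have h4 : (fun x => D.K j p.1 y x * (x ^ (-(p.2 : ℤ)) * y ^ (-(N : ℤ))))
          = fun x => y ^ (-(N : ℤ)) * (D.K j p.1 y x * x ^ (-(p.2 : ℤ))) := by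
        funext x; ring
      rw [h4, av_mul_left]
      ring
    rw [← h3, ← h2.tsum_eq]
    congr 1
    funext p
    rw [hF]
    simp only
    have h5 : (fun y => av (fun x => D.K j p.1 y x * (x ^ (-(p.2 : ℤ)) * y ^ (-(N : ℤ)))) D.R *
      ((B : ℂ) ^ p.2 * ψ p)) = fun y => ((B : ℂ) ^ p.2 * ψ p) *
        av (fun x => D.K j p.1 y x * (x ^ (-(p.2 : ℤ)) * y ^ (-(N : ℤ)))) D.R := by
      funext y; ring
    rw [h5, av_mul_left]
    unfold co da
    ring
  · rw [hF]
    simp only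
    apply ContinuousOn.mul _ continuousOn_const
    apply av_cont (K := fun y x => D.K j p.1 y x * (x ^ (-(p.2 : ℤ)) * y ^ (-(N : ℤ)))) hR.le
    exact ((D.K_hol j p.1).mul (hol2_fac D.R₀_le _ _)).contS D.hR D.hR
  · rw [hF]
    simp only
    rw [norm_mul, norm_mul, norm_pow, Complex.norm_real, Real.norm_of_nonneg hB.le]
    have hy' : D.R₀ < ‖y‖ := by rw [hy]; exact D.hR
    have h6 : ‖av (fun x => D.K j p.1 y x * (x ^ (-(p.2 : ℤ)) * y ^ (-(N : ℤ)))) D.R‖
        ≤ MM * ((D.rr B ^ p.2)⁻¹ * (D.R ^ N)⁻¹) := by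
      rw [av_radius (F := fun x => D.K j p.1 y x * (x ^ (-(p.2 : ℤ)) * y ^ (-(N : ℤ))))
        D.R₀_le D.hR (D.rr_gt B) fun x hx =>
        ((D.K_hol j p.1).mul (hol2_fac D.R₀_le _ _)).d2 y x hy' hx]
      apply av_norm_le (D.rr_pos B).le
      intro x hx
      rw [norm_mul, norm_mul, norm_zpow_neg hx, norm_zpow_neg hy]
      have h8 := D.rr_pos B
      exact mul_le_mul_of_nonneg_right (hMM' p.1 y x hy hx) (by positivity)
    have h7 := D.rr_ratio hB p.2
    have h8 := D.rr_pos B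
    have h9 := ψ.norm_coe_le_norm p
    calc _ ≤ (MM * ((D.rr B ^ p.2)⁻¹ * (D.R ^ N)⁻¹)) * (B ^ p.2 * ‖ψ‖) := by gcongr
      _ = MM * (D.R ^ N)⁻¹ * ‖ψ‖ * ((D.rr B ^ p.2)⁻¹ * B ^ p.2) := by ring
      _ ≤ MM * (D.R ^ N)⁻¹ * ‖ψ‖ * (1 / 2) ^ p.2 := by gcongr

/-- The operator expressed by the coefficients. -/
lemma sg_op {B : ℝ} (hB : 0 < B) (hs : ∀ q, Summable fun p => ‖D.em B q p‖)
    (ψ : Fin m × ℕ →ᵇ ℂ) (q : Fin m × ℕ) :
    D.d q.1 * ψ q + ∑' p, D.em B q p * ψ p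
      = D.sg q.1 q.2 (fourierBorel (D.T B ψ)) / (B : ℂ) ^ q.2 := by
  classical
  have hB' : (B : ℂ) ^ q.2 ≠ 0 := pow_ne_zero _ (by exact_mod_cast hB.ne')
  rw [D.sg_T hB, ← tsum_mul_left, ← tsum_div_const]
  have h1 : Summable fun p => D.em B q p * ψ p :=
    Summable.of_norm_bounded ((hs q).mul_right ‖ψ‖) fun p => by
      rw [norm_mul]
      exact mul_le_mul_of_nonneg_left (ψ.norm_coe_le_norm p) (norm_nonneg _)
  have h2 : HasSum (fun p : Fin m × ℕ => if p = q then D.d q.1 * ψ q else 0) (D.d q.1 * ψ q) :=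
    hasSum_ite_eq q _
  rw [← h2.tsum_eq, ← h2.summable.tsum_add h1]
  congr 1
  funext p
  unfold em
  by_cases h : q = p
  · subst h
    simp only [if_true]
    ring
  · rw [if_neg h, if_neg (fun h' => h h'.symm)]
    ring

/-- Growth of the coefficients. -/
lemma sg_bound {s : (Fin 2 → ℂ) → ℂ} (hs : ExpType s) : ∃ B₂ : ℝ, ∀ B, B₂ ≤ B → ∃ C : ℝ,
    ∀ (j : Fin m) (N : ℕ), ‖D.sg j N s‖ ≤ C * B ^ N := by
  obtain ⟨hd, C, hC, b, hb, hsb⟩ := hs
  have hR := D.Rpos
  have hA := D.A0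
  refine ⟨b + 1, fun B hB => ⟨C * Real.exp (b * D.A) * (Real.exp 1 * b + Real.exp (b * D.R)),
    fun j N => ?_⟩⟩
  have hB0 : 0 < B := by linarith
  -- the bound of the average at any radius
  have h1 : ∀ ρ, D.R₀ < ρ → ‖av (fun y => s (D.z j y) * y ^ (-(N : ℤ))) D.R‖
      ≤ C * Real.exp (b * D.A) * Real.exp (b * ρ) * (ρ ^ N)⁻¹ := by
    intro ρ hρ
    have hρ0 : 0 < ρ := D.hR₀.trans hρ
    rw [av_radius (F := fun y => s (D.z j y) * y ^ (-(N : ℤ))) D.R₀_le D.hR hρ fun y hy =>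
      ((hd (D.z j y)).comp y (D.dz' j hy)).mul (diff_zpow D.R₀_le _ y hy)]
    apply av_norm_le hρ0.le
    intro y hy
    rw [norm_mul, norm_zpow_neg hy]
    apply mul_le_mul_of_nonneg_right _ (by positivity)
    refine (hsb _).trans ?_
    rw [mul_assoc, ← Real.exp_add]
    apply mul_le_mul_of_nonneg_left _ hC.le
    apply Real.exp_le_exp.2
    have h2 : ‖D.z j y‖ ≤ ρ + D.A := by
      unfold z
      rw [norm_cj]
      have h3 := D.norm_ζ_le j (x := (starRingEnd ℂ) y) (by rw [RCLike.norm_conj, hy]; exact hρ)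
      rwa [RCLike.norm_conj, hy] at h3
    calc b * ‖D.z j y‖ ≤ b * (ρ + D.A) := by gcongr
      _ = _ := by ring
  unfold sg
  rw [norm_mul, Complex.norm_natCast]
  set c : ℝ := C * Real.exp (b * D.A) with hc
  have hc0 : 0 < c := by positivity
  have key : (N.factorial : ℝ) * ‖av (fun y => s (D.z j y) * y ^ (-(N : ℤ))) D.R‖
      ≤ c * (Real.exp 1 * b * B ^ N) ∨
      (N.factorial : ℝ) * ‖av (fun y => s (D.z j y) * y ^ (-(N : ℤ))) D.R‖
      ≤ c * (Real.exp (b * D.R) * B ^ N) := by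
    by_cases hN : D.R * b ≤ N
    · left
      have hN0 : (0 : ℝ) < N := lt_of_lt_of_le (by positivity) hN
      have hN1 : 1 ≤ N := by exact_mod_cast hN0
      have h2 := h1 (N / b) (D.hR.trans_le ((le_div_iff₀ hb).2 hN))
      have h3 : b * (N / b) = N := by field_simp
      rw [h3] at h2
      have h4 := fact_le N hN1
      have h5 : (N : ℝ) * b ^ N ≤ b * B ^ N := by
        have h6 : 1 + (N : ℝ) * (1 / b) ≤ (1 + 1 / b) ^ N :=
          one_add_mul_le_pow (by have : 0 < 1 / b := by positivity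
                                 linarith) N
        have h7 : (1 + 1 / b) ^ N * b ^ N ≤ B ^ N := by
          rw [← mul_pow]
          apply pow_le_pow_left₀ (by positivity)
          have : (1 + 1 / b) * b = b + 1 := by field_simp
          rw [this]; exact hB
        have h8 : (N : ℝ) ≤ b * (1 + 1 / b) ^ N := by
          have h9 : (N : ℝ) * (1 / b) ≤ (1 + 1 / b) ^ N := by linarith
          rw [mul_one_div, div_le_iff₀ hb] at h9
          linarith
        calc (N : ℝ) * b ^ N ≤ (b * (1 + 1 / b) ^ N) * b ^ N := by gcongr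
          _ = b * ((1 + 1 / b) ^ N * b ^ N) := by ring
          _ ≤ _ := by gcongr
      calc (N.factorial : ℝ) * ‖av (fun y => s (D.z j y) * y ^ (-(N : ℤ))) D.R‖
          ≤ (N.factorial : ℝ) * (c * Real.exp N * ((N / b) ^ N)⁻¹) := by gcongr
        _ = c * ((N.factorial : ℝ) * Real.exp N) * (b ^ N / (N : ℝ) ^ N) := by
            rw [div_pow, inv_div]; ring
        _ ≤ c * (Real.exp 1 * N * (N : ℝ) ^ N) * (b ^ N / (N : ℝ) ^ N) := by gcongr
        _ = c * (Real.exp 1 * (N * b ^ N)) := by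
            have : (N : ℝ) ^ N ≠ 0 := by positivity
            field_simp
        _ ≤ c * (Real.exp 1 * (b * B ^ N)) := by gcongr
        _ = _ := by ring
    · right
      have h2 := h1 D.R D.hR
      have h3 : (N.factorial : ℝ) ≤ (N : ℝ) ^ N := by
        exact_mod_cast Nat.factorial_le_pow N
      have h4 : (N : ℝ) ≤ D.R * b := (not_le.1 hN).le
      have h5 : (N.factorial : ℝ) * (D.R ^ N)⁻¹ ≤ B ^ N := by
        calc (N.factorial : ℝ) * (D.R ^ N)⁻¹ ≤ (D.R * b) ^ N * (D.R ^ N)⁻¹ := by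
              apply mul_le_mul_of_nonneg_right _ (by positivity)
              exact h3.trans (pow_le_pow_left₀ (by positivity) h4 N)
          _ = b ^ N := by rw [mul_pow]; field_simp
          _ ≤ B ^ N := pow_le_pow_left₀ hb.le (by linarith) N
      calc (N.factorial : ℝ) * ‖av (fun y => s (D.z j y) * y ^ (-(N : ℤ))) D.R‖
          ≤ (N.factorial : ℝ) * (c * Real.exp (b * D.R) * (D.R ^ N)⁻¹) := by gcongr
        _ = c * Real.exp (b * D.R) * ((N.factorial : ℝ) * (D.R ^ N)⁻¹) := by ring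
        _ ≤ c * Real.exp (b * D.R) * B ^ N := by gcongr
        _ = _ := by ring
  have hp : 0 ≤ c * (Real.exp 1 * b * B ^ N) := by positivity
  have hp' : 0 ≤ c * (Real.exp (b * D.R) * B ^ N) := by positivity
  have e1 : c * (Real.exp 1 * b + Real.exp (b * D.R)) * B ^ N
      = c * (Real.exp 1 * b * B ^ N) + c * (Real.exp (b * D.R) * B ^ N) := by ring
  rw [e1]
  rcases key with h | h <;> linarith

end EndData

end Pool.Agent.H77.FB
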