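import Pool.Agent.H77.FB.Main

/-!
Taylor coefficients in the second variable, and the division of the powers of the second
variable by a monic polynomial.
-/

open MeasureTheory

namespace Pool.Agent.H77.FB

/-- The Taylor coefficients in the second variable. -/
noncomputable def tc (s : (Fin 2 → ℂ) → ℂ) (n : ℕ) (u : ℂ) : ℂ :=
  cauchyPowerSeries (fun c : ℂ => s ![u, c]) 0 1 n fun _ => 1

lemma diff_slice {s : (Fin 2 → ℂ) → ℂ} (hs : Differentiable ℂ s) (u : ℂ) :
    Differentiable ℂ (fun c : ℂ => s ![u, c]) := by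
  apply hs.comp
  rw [differentiable_pi]
  intro k
  fin_cases k
  · exact differentiable_const u
  · exact differentiable_id

lemma tc_hasSum {s : (Fin 2 → ℂ) → ℂ} (hs : Differentiable ℂ s) (u w : ℂ) :
    HasSum (fun n => tc s n u * w ^ n) (s ![u, w]) := by
  have h := (diff_slice hs u).hasFPowerSeriesOnBall 0 (R := 1) one_pos
  have h1 := h.hasSum (y := w) (by simp)
  simp only [zero_add] at h1
  refine h1.congr_fun ?_ 
  intro n
  rw [FormalMultilinearSeries.apply_eq_pow_smul_coeff, smul_eq_mul, mul_comm]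
  rfl

lemma tc_radius {s : (Fin 2 → ℂ) → ℂ} (hs : Differentiable ℂ s) (u : ℂ)
    (n : ℕ) {r : NNReal} (hr : 0 < r) :
    tc s n u = (cauchyPowerSeries (fun c : ℂ => s ![u, c]) 0 r n fun _ => 1) := by
  have h := ((diff_slice hs u).hasFPowerSeriesOnBall 0 (R := 1) one_pos).hasFPowerSeriesAt
  have h' := ((diff_slice hs u).hasFPowerSeriesOnBall 0 hr).hasFPowerSeriesAt
  have h1 := h.eq_formalMultilinearSeries h'
  unfold tc
  rw [← h1]
  rfl

lemma tc_bound {s : (Fin 2 → ℂ) → ℂ} (hs : Differentiable ℂ s) (u : ℂ)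
    (n : ℕ) {r : ℝ} (hr : 0 < r) {M : ℝ} (hM : ∀ w, ‖w‖ = r → ‖s ![u, w]‖ ≤ M) :
    ‖tc s n u‖ ≤ M * (r⁻¹) ^ n := by
  set r' : NNReal := ⟨r, hr.le⟩ with hr'
  have hr0 : 0 < r' := by rw [← NNReal.coe_pos]; exact hr
  rw [tc_radius hs u n hr0]
  refine (ContinuousMultilinearMap.le_opNorm _ _).trans ?_
  simp only [norm_one, Finset.prod_const_one, mul_one]
  refine (norm_cauchyPowerSeries_le _ _ _ _).trans ?_
  change (2 * Real.pi)⁻¹ * (∫ θ in (0 : ℝ)..2 * Real.pi, ‖s ![u, circleMap 0 r θ]‖) * |r|⁻¹ ^ n ≤ _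
  rw [abs_of_pos hr]
  apply mul_le_mul_of_nonneg_right _ (by positivity)
  have h1 : ‖∫ θ in (0 : ℝ)..2 * Real.pi, ‖s ![u, circleMap 0 r θ]‖‖ ≤ M * |2 * Real.pi - 0| := by
    apply intervalIntegral.norm_integral_le_of_norm_le_const
    intro θ _
    rw [norm_norm]
    apply hM
    exact norm_cm hr.le θ
  rw [sub_zero, abs_of_pos (by positivity : 0 < 2 * Real.pi)] at h1
  have h2 := (le_abs_self _).trans ((Real.norm_eq_abs _).symm.le.trans h1)
  rw [inv_mul_le_iff₀ (by positivity)]
  linarith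

lemma tc_diff {s : (Fin 2 → ℂ) → ℂ} (hs : Differentiable ℂ s) (n : ℕ) :
    Differentiable ℂ (tc s n) := by
  have h1 : tc s n = fun u => (2 * Real.pi * Complex.I : ℂ)⁻¹ •
      ∫ θ in (0 : ℝ)..2 * Real.pi, deriv (circleMap 0 1) θ •
        ((1 / (circleMap 0 1 θ - 0)) ^ n • (circleMap 0 1 θ - 0)⁻¹ •
          s ![u, circleMap 0 1 θ]) := by
    funext z
    unfold tc
    rw [cauchyPowerSeries_apply]
    rfl
  rw [h1]
  apply Differentiable.fun_const_smul
  apply differentiable_integral
  · have hne : ∀ θ : ℝ, circleMap 0 1 θ - 0 ≠ 0 := fun θ => by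
      rw [sub_zero]; exact circleMap_ne_center one_ne_zero
    have hcm : Continuous (fun p : ℝ × ℂ => circleMap 0 1 p.1) :=
      (continuous_circleMap 0 1).comp continuous_fst
    change Continuous (fun p : ℝ × ℂ => deriv (circleMap 0 1) p.1 •
        ((1 / (circleMap 0 1 p.1 - 0)) ^ n • (circleMap 0 1 p.1 - 0)⁻¹ •
          s ![p.2, circleMap 0 1 p.1]))
    have hz : Continuous (fun p : ℝ × ℂ => (![p.2, circleMap 0 1 p.1] : Fin 2 → ℂ)) := by
      apply continuous_pi
      intro k
      fin_cases k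
      · exact continuous_snd
      · exact hcm
    simp only [smul_eq_mul]
    refine Continuous.mul ?_ (Continuous.mul ?_ (Continuous.mul ?_ ?_))
    · simp only [deriv_circleMap]
      exact hcm.mul continuous_const
    · exact (continuous_const.div (hcm.sub continuous_const) fun p => hne p.1).pow n
    · exact (hcm.sub continuous_const).inv₀ fun p => hne p.1
    · exact hs.continuous.comp hz
  · intro θ
    apply Differentiable.fun_const_smul
    apply Differentiable.fun_const_smul
    apply Differentiable.fun_const_smul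
    apply hs.comp
    rw [differentiable_pi]
    intro k
    fin_cases k
    · exact differentiable_id
    · exact differentiable_const _

/-- The bound for functions of exponential type. -/
lemma tc_exp {s : (Fin 2 → ℂ) → ℂ} (hs : Differentiable ℂ s) {C B : ℝ} (hC : 0 < C)
    (hB : 0 < B) (h : ∀ u w, ‖s ![u, w]‖ ≤ C * Real.exp (B * (‖u‖ + ‖w‖))) (n : ℕ) (u : ℂ) :
    ‖tc s n u‖ ≤ C * Real.exp (B * ‖u‖) * ((Real.exp 1 * B) ^ n / n.factorial) := by
  rcases Nat.eq_zero_or_pos n with hn | hn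
  · subst hn
    have h1 : s ![u, 0] = tc s 0 u := by
      have h2 := tc_hasSum hs u 0
      have h3 : HasSum (fun n => tc s n u * (0 : ℂ) ^ n) (tc s 0 u) := by
        have h4 := hasSum_single (f := fun n => tc s n u * (0 : ℂ) ^ n) 0 (fun b hb => by
          simp [hb])
        simpa using h4
      exact h2.unique h3
    rw [← h1]
    simpa using h u 0
  · have hn' : (0 : ℝ) < n := by exact_mod_cast hn
    have h1 := tc_bound hs u n (r := n / B) (by positivity)
      (M := C * Real.exp (B * ‖u‖) * Real.exp n) (fun w hw => by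
        refine (h u w).trans_eq ?_
        rw [mul_assoc, ← Real.exp_add, hw]
        congr 2
        field_simp)
    refine h1.trans ?_
    rw [mul_assoc]
    apply mul_le_mul_of_nonneg_left _ (by positivity)
    have h3 : (n.factorial : ℝ) ≤ (n : ℝ) ^ n := by exact_mod_cast Nat.factorial_le_pow n
    have h4 : Real.exp n = Real.exp 1 ^ n := by
      rw [← Real.exp_nat_mul, mul_one]
    rw [h4, inv_div, div_pow, mul_pow, ← mul_div_assoc]
    apply div_le_div_of_nonneg_left (by positivity) (by positivity) h3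

/-- The remainders of the powers. -/
noncomputable def rh (M : ℕ) (p : ℕ → ℂ → ℂ) : ℕ → ℕ → ℂ → ℂ
  | 0, k, _ => if k = 0 then 1 else 0
  | n + 1, k, u => (if k = 0 then 0 else rh M p n (k - 1) u) - p k u * rh M p n M u

/-- The quotients of the powers. -/
noncomputable def qt (M : ℕ) (p : ℕ → ℂ → ℂ) : ℕ → ℂ → ℂ → ℂ
  | 0, _, _ => 0
  | n + 1, u, w => w * qt M p n u w + rh M p n M u

lemma pow_eq (M : ℕ) (p : ℕ → ℂ → ℂ) (u w : ℂ) (n : ℕ) :
    w ^ n = (w ^ (M + 1) + ∑ k ∈ Finset.range (M + 1), p k u * w ^ k) * qt M p n u w +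
      ∑ k ∈ Finset.range (M + 1), rh M p n k u * w ^ k := by
  induction n with
  | zero =>
    simp only [qt, rh, mul_zero, zero_add, pow_zero, ite_mul, one_mul, zero_mul]
    rw [Finset.sum_ite_eq' (Finset.range (M + 1)) 0]
    simp
  | succ n ih =>
    have h1 : ∑ k ∈ Finset.range (M + 1), rh M p (n + 1) k u * w ^ k
        = ∑ k ∈ Finset.range M, rh M p n k u * w ^ (k + 1) -
          rh M p n M u * ∑ k ∈ Finset.range (M + 1), p k u * w ^ k := by
      rw [Finset.mul_sum]
      have h2 : ∑ k ∈ Finset.range (M + 1), (if k = 0 then 0 else rh M p n (k - 1) u) * w ^ k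
          = ∑ k ∈ Finset.range M, rh M p n k u * w ^ (k + 1) := by
        rw [Finset.sum_range_succ']
        simp
      rw [← h2, ← Finset.sum_sub_distrib]
      apply Finset.sum_congr rfl
      intro k _
      simp only [rh]
      ring
    rw [h1, pow_succ, ih, Finset.sum_range_succ (fun k => rh M p n k u * w ^ k) M]
    simp only [qt]
    have h3 : (∑ k ∈ Finset.range M, rh M p n k u * w ^ k) * w
        = ∑ k ∈ Finset.range M, rh M p n k u * w ^ (k + 1) := by
      rw [Finset.sum_mul]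
      apply Finset.sum_congr rfl
      intro k _
      ring
    rw [← h3]
    ring

lemma rh_bound {M : ℕ} {p : ℕ → ℂ → ℂ} {K U : ℝ} {u : ℂ} (hU : 1 ≤ U) (hK : 0 ≤ K)
    (hp : ∀ k ≤ M, ‖p k u‖ * U ^ k ≤ K * U ^ (M + 1)) (n : ℕ) :
    ∀ k ≤ M, ‖rh M p n k u‖ * U ^ k ≤ (1 + K) ^ n * U ^ n := by
  have hU0 : 0 < U := by linarith
  induction n with
  | zero =>
    intro k _
    simp only [rh, pow_zero, mul_one]
    split_ifs with h
    · subst h; simp
    · simp
  | succ n ih =>
    intro k hk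
    simp only [rh]
    have h1 := hp k hk
    have h2 := ih M le_rfl
    have h3 : ‖(if k = 0 then (0 : ℂ) else rh M p n (k - 1) u)‖ * U ^ k
        ≤ (1 + K) ^ n * U ^ (n + 1) := by
      split_ifs with h
      · rw [norm_zero, zero_mul]; positivity
      · obtain ⟨k, rfl⟩ := Nat.exists_eq_succ_of_ne_zero h
        have h4 := ih k (by omega)
        rw [Nat.succ_sub_one]
        calc ‖rh M p n k u‖ * U ^ (k + 1) = (‖rh M p n k u‖ * U ^ k) * U := by ring
          _ ≤ ((1 + K) ^ n * U ^ n) * U := by gcongr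
          _ = _ := by ring
    have h5 : ‖p k u * rh M p n M u‖ * U ^ k ≤ K * ((1 + K) ^ n * U ^ (n + 1)) := by
      rw [norm_mul]
      calc ‖p k u‖ * ‖rh M p n M u‖ * U ^ k = (‖p k u‖ * U ^ k) * ‖rh M p n M u‖ := by ring
        _ ≤ (K * U ^ (M + 1)) * ‖rh M p n M u‖ := by gcongr
        _ = K * U * (‖rh M p n M u‖ * U ^ M) := by ring
        _ ≤ K * U * ((1 + K) ^ n * U ^ n) := by gcongr
        _ = _ := by ring
    calc _ ≤ (‖(if k = 0 then (0 : ℂ) else rh M p n (k - 1) u)‖ + ‖p k u * rh M p n M u‖) *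
        U ^ k := by
          apply mul_le_mul_of_nonneg_right (norm_sub_le _ _) (by positivity)
      _ ≤ (1 + K) ^ n * U ^ (n + 1) + K * ((1 + K) ^ n * U ^ (n + 1)) := by
          rw [add_mul]; exact add_le_add h3 h5
      _ = _ := by ring

lemma qt_bound {M : ℕ} {p : ℕ → ℂ → ℂ} {K U W : ℝ} {u w : ℂ} (hU : 1 ≤ U) (hK : 0 ≤ K)
    (hUW : U ≤ W) (hw : ‖w‖ ≤ W)
    (hp : ∀ k ≤ M, ‖p k u‖ * U ^ k ≤ K * U ^ (M + 1)) (n : ℕ) :
    ‖qt M p n u w‖ ≤ (2 * (1 + K)) ^ n * W ^ n := by
  have hU0 : 0 < U := by linarith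
  have hW0 : 0 < W := by linarith
  induction n with
  | zero => simp [qt]
  | succ n ih =>
    simp only [qt]
    have h1 := rh_bound hU hK hp n M le_rfl
    have h2 : ‖rh M p n M u‖ ≤ (1 + K) ^ n * W ^ n := by
      calc ‖rh M p n M u‖ = ‖rh M p n M u‖ * 1 := by ring
        _ ≤ ‖rh M p n M u‖ * U ^ M := by gcongr; exact one_le_pow₀ hU
        _ ≤ (1 + K) ^ n * U ^ n := h1
        _ ≤ _ := by gcongr
    have h3 : (1 + K) ^ n * W ^ n ≤ (2 * (1 + K)) ^ n * W ^ (n + 1) := by
      have h4 : (1 + K) ^ n ≤ (2 * (1 + K)) ^ n := by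
        apply pow_le_pow_left₀ (by positivity); linarith
      have h5 : W ^ n ≤ W ^ (n + 1) := pow_le_pow_right₀ (hU.trans hUW) (Nat.le_succ n)
      gcongr
    calc ‖w * qt M p n u w + rh M p n M u‖ ≤ ‖w‖ * ‖qt M p n u w‖ + ‖rh M p n M u‖ := by
          refine (norm_add_le _ _).trans ?_
          rw [norm_mul]
      _ ≤ W * ((2 * (1 + K)) ^ n * W ^ n) + (2 * (1 + K)) ^ n * W ^ (n + 1) := by
          gcongr
          exact h2.trans h3
      _ = (2 * (1 + (0 : ℝ))) * ((2 * (1 + K)) ^ n * W ^ (n + 1)) := by ring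
      _ ≤ (2 * (1 + K)) * ((2 * (1 + K)) ^ n * W ^ (n + 1)) := by gcongr
      _ = _ := by ring

lemma rh_diff {M : ℕ} {p : ℕ → ℂ → ℂ} (hp : ∀ k, Differentiable ℂ (p k)) (n k : ℕ) :
    Differentiable ℂ (rh M p n k) := by
  induction n generalizing k with
  | zero =>
    have : rh M p 0 k = fun _ => if k = 0 then 1 else 0 := by
      funext u; simp only [rh]
    rw [this]
    exact differentiable_const _
  | succ n ih =>
    have : rh M p (n + 1) k = fun u => (if k = 0 then 0 else rh M p n (k - 1) u) -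
        p k u * rh M p n M u := by
      funext u; simp only [rh]
    rw [this]
    apply Differentiable.fun_sub _ ((hp k).fun_mul (ih M))
    split_ifs
    · exact differentiable_const _
    · exact ih _

lemma qt_diff {M : ℕ} {p : ℕ → ℂ → ℂ} (hp : ∀ k, Differentiable ℂ (p k)) (n : ℕ) :
    Differentiable ℂ (fun v : Fin 2 → ℂ => qt M p n (v 0) (v 1)) := by
  induction n with
  | zero => simp only [qt]; exact differentiable_const _
  | succ n ih =>
    simp only [qt]
    exact ((differentiable_apply 1).fun_mul ih).fun_add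
      ((rh_diff hp n M).comp (differentiable_apply 0))

end Pool.Agent.H77.FB
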